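import Pool.Agent.Y580.FL.Base
import Pool.Agent.H37R3.Cnt

/-! Six-vertex flags: bonus terms for the sets of five or six vertices with a given pattern. -/

set_option autoImplicit false
set_option maxRecDepth 100000
set_option maxHeartbeats 4000000
open Finset

namespace Pool.Agent.R170.FA
open Pool.Agent.H122R2.N6 Pool.Agent.H37R3.Pen Pool.Agent.Y580.FL

def eqb (x y : ℕ) : ℕ := cond (Nat.beq x y) 1 0

/-- the number of edges on five vertices -/
def t10 (b012 b013 b023 b123 b014 b024 b124 b034 b134 b234 : ℕ) : ℕ := (Nat.add b012 (Nat.add b013 (Nat.add b023 (Nat.add b123 (Nat.add b014 (Nat.add b024 (Nat.add b124 (Nat.add b034 (Nat.add b134 b234)))))))))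

/-- the number of edges on six vertices -/
def t20 (b012 b013 b023 b123 b014 b024 b124 b034 b134 b234 b015 b025 b125 b035 b135 b235 b045 b145 b245 b345 : ℕ) : ℕ := (Nat.add b012 (Nat.add b013 (Nat.add b023 (Nat.add b123 (Nat.add b014 (Nat.add b024 (Nat.add b124 (Nat.add b034 (Nat.add b134 (Nat.add b234 (Nat.add b015 (Nat.add b025 (Nat.add b125 (Nat.add b035 (Nat.add b135 (Nat.add b235 (Nat.add b045 (Nat.add b145 (Nat.add b245 b345)))))))))))))))))))

/-- the sum of a function of the five-vertex structures over the sets of five of the six vertices -/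
def x5 (g : ℕ → ℕ → ℕ → ℕ → ℕ → ℕ → ℕ → ℕ → ℕ → ℕ → ℕ) (b012 b013 b023 b123 b014 b024 b124 b034 b134 b234 b015 b025 b125 b035 b135 b235 b045 b145 b245 b345 : ℕ) : ℕ := (Nat.add (g b012 b013 b023 b123 b014 b024 b124 b034 b134 b234) (Nat.add (g b012 b013 b023 b123 b015 b025 b125 b035 b135 b235) (Nat.add (g b012 b014 b024 b124 b015 b025 b125 b045 b145 b245) (Nat.add (g b013 b014 b034 b134 b015 b035 b135 b045 b145 b345) (Nat.add (g b023 b024 b034 b234 b025 b035 b235 b045 b245 b345) (g b123 b124 b134 b234 b125 b135 b235 b145 b245 b345))))))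

/-- five vertices: nine edges -/
def g9 (b012 b013 b023 b123 b014 b024 b124 b034 b134 b234 : ℕ) : ℕ := eqb (t10 b012 b013 b023 b123 b014 b024 b124 b034 b134 b234) 9

/-- five vertices: the edges are the six triples containing one of the vertices -/
def gst (b012 b013 b023 b123 b014 b024 b124 b034 b134 b234 : ℕ) : ℕ := Nat.mul (eqb (t10 b012 b013 b023 b123 b014 b024 b124 b034 b134 b234) 6) (Nat.add (eqb (Nat.add b012 (Nat.add b013 (Nat.add b023 (Nat.add b014 (Nat.add b024 b034))))) 6) (Nat.add (eqb (Nat.add b012 (Nat.add b013 (Nat.add b123 (Nat.add b014 (Nat.add b124 b134))))) 6) (Nat.add (eqb (Nat.add b012 (Nat.add b023 (Nat.add b123 (Nat.add b024 (Nat.add b124 b234))))) 6) (Nat.add (eqb (Nat.add b013 (Nat.add b023 (Nat.add b123 (Nat.add b034 (Nat.add b134 b234))))) 6) (eqb (Nat.add b014 (Nat.add b024 (Nat.add b124 (Nat.add b034 (Nat.add b134 b234))))) 6)))))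

/-- six vertices: `m` edges -/
def gm (m : ℕ) (b012 b013 b023 b123 b014 b024 b124 b034 b134 b234 b015 b025 b125 b035 b135 b235 b045 b145 b245 b345 : ℕ) : ℕ := eqb (t20 b012 b013 b023 b123 b014 b024 b124 b034 b134 b234 b015 b025 b125 b035 b135 b235 b045 b145 b245 b345) m

/-- six vertices: the edges are the ten triples containing one of the vertices -/
def gst6 (b012 b013 b023 b123 b014 b024 b124 b034 b134 b234 b015 b025 b125 b035 b135 b235 b045 b145 b245 b345 : ℕ) : ℕ := Nat.mul (eqb (t20 b012 b013 b023 b123 b014 b024 b124 b034 b134 b234 b015 b025 b125 b035 b135 b235 b045 b145 b245 b345) 10) (Nat.add (eqb (Nat.add b012 (Nat.add b013 (Nat.add b023 (Nat.add b014 (Nat.add b024 (Nat.add b034 (Nat.add b015 (Nat.add b025 (Nat.add b035 b045))))))))) 10) (Nat.add (eqb (Nat.add b012 (Nat.add b013 (Nat.add b123 (Nat.add b014 (Nat.add b124 (Nat.add b134 (Nat.add b015 (Nat.add b125 (Nat.add b135 b145))))))))) 10) (Nat.add (eqb (Nat.add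 b012 (Nat.add b023 (Nat.add b123 (Nat.add b024 (Nat.add b124 (Nat.add b234 (Nat.add b025 (Nat.add b125 (Nat.add b235 b245))))))))) 10) (Nat.add (eqb (Nat.add b013 (Nat.add b023 (Nat.add b123 (Nat.add b034 (Nat.add b134 (Nat.add b234 (Nat.add b035 (Nat.add b135 (Nat.add b235 b345))))))))) 10) (Nat.add (eqb (Nat.add b014 (Nat.add b024 (Nat.add b124 (Nat.add b034 (Nat.add b134 (Nat.add b234 (Nat.add b045 (Nat.add b145 (Nat.add b245 b345))))))))) 10) (eqb (Nat.add b015 (Nat.add b025 (Nat.add b125 (Nat.add b035 (Nat.add b135 (Nat.add b235 (Nat.add b045 (Nat.add b145 (Nat.add b245 b345))))))))) 10))))))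

/-- six vertices: the non-edges are the four triples inside a set of four of the vertices -/
def g24 (b012 b013 b023 b123 b014 b024 b124 b034 b134 b234 b015 b025 b125 b035 b135 b235 b045 b145 b245 b345 : ℕ) : ℕ := Nat.mul (eqb (t20 b012 b013 b023 b123 b014 b024 b124 b034 b134 b234 b015 b025 b125 b035 b135 b235 b045 b145 b245 b345) 16) (Nat.add (eqb (Nat.add b012 (Nat.add b013 (Nat.add b023 b123))) 0) (Nat.add (eqb (Nat.add b012 (Nat.add b014 (Nat.add b024 b124))) 0) (Nat.add (eqb (Nat.add b012 (Nat.add b015 (Nat.add b025 b125))) 0) (Nat.add (eqb (Nat.add b013 (Nat.add b014 (Nat.add b034 b134))) 0) (Nat.add (eqb (Nat.add b013 (Nat.add b015 (Nat.add b035 b135))) 0) (Nat.add (eqb (Nat.add b014 (Nat.add b015 (Nat.add b045 b145))) 0) (Nat.add (eqb (Nat.add b023 (Nat.add b024 (Nat.add b034 b234))) 0) (Nat.add (eqb (Nat.add b023 (Nat.add b025 (Nat.add b035 b235))) 0) (Nat.add (eqb (Nat.add b024 (Nat.add b025 (Nat.add b045 b245)))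 0) (Nat.add (eqb (Nat.add b034 (Nat.add b035 (Nat.add b045 b345))) 0) (Nat.add (eqb (Nat.add b123 (Nat.add b124 (Nat.add b134 b234))) 0) (Nat.add (eqb (Nat.add b123 (Nat.add b125 (Nat.add b135 b235))) 0) (Nat.add (eqb (Nat.add b124 (Nat.add b125 (Nat.add b145 b245))) 0) (Nat.add (eqb (Nat.add b134 (Nat.add b135 (Nat.add b145 b345))) 0) (eqb (Nat.add b234 (Nat.add b235 (Nat.add b245 b345))) 0)))))))))))))))

section
variable {V : Type} {E : V → V → V → ℕ}

/-- a function of the structure on five vertices, at a tuple -/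
def G5 (g : ℕ → ℕ → ℕ → ℕ → ℕ → ℕ → ℕ → ℕ → ℕ → ℕ → ℕ) (E : V → V → V → ℕ) (a b c d e : V) : ℕ :=
  g (E a b c) (E a b d) (E a c d) (E b c d) (E a b e) (E a c e) (E b c e) (E a d e) (E b d e) (E c d e)

/-- invariance under an exchange of neighbours -/
def s50 (g : ℕ → ℕ → ℕ → ℕ → ℕ → ℕ → ℕ → ℕ → ℕ → ℕ → ℕ) : Bool :=
  B2 fun b012 => B2 fun b013 => B2 fun b023 => B2 fun b123 => B2 fun b014 => B2 fun b024 => B2 fun b124 => B2 fun b034 => B2 fun b134 => B2 fun b234 => Nat.beq (g b012 b013 b123 b023 b014 b124 b024 b134 b034 b234) (g b012 b013 b023 b123 b014 b024 b124 b034 b134 b234)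

/-- invariance under an exchange of neighbours -/
def s51 (g : ℕ → ℕ → ℕ → ℕ → ℕ → ℕ → ℕ → ℕ → ℕ → ℕ → ℕ) : Bool :=
  B2 fun b012 => B2 fun b013 => B2 fun b023 => B2 fun b123 => B2 fun b014 => B2 fun b024 => B2 fun b124 => B2 fun b034 => B2 fun b134 => B2 fun b234 => Nat.beq (g b012 b023 b013 b123 b024 b014 b124 b034 b234 b134) (g b012 b013 b023 b123 b014 b024 b124 b034 b134 b234)

/-- invariance under an exchange of neighbours -/
def s52 (g : ℕ → ℕ → ℕ → ℕ → ℕ → ℕ → ℕ → ℕ → ℕ → ℕ → ℕ) : Bool :=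
  B2 fun b012 => B2 fun b013 => B2 fun b023 => B2 fun b123 => B2 fun b014 => B2 fun b024 => B2 fun b124 => B2 fun b034 => B2 fun b134 => B2 fun b234 => Nat.beq (g b013 b012 b023 b123 b014 b034 b134 b024 b124 b234) (g b012 b013 b023 b123 b014 b024 b124 b034 b134 b234)

/-- invariance under an exchange of neighbours -/
def s53 (g : ℕ → ℕ → ℕ → ℕ → ℕ → ℕ → ℕ → ℕ → ℕ → ℕ → ℕ) : Bool :=
  B2 fun b012 => B2 fun b013 => B2 fun b023 => B2 fun b123 => B2 fun b014 => B2 fun b024 => B2 fun b124 => B2 fun b034 => B2 fun b134 => B2 fun b234 => Nat.beq (g b012 b014 b024 b124 b013 b023 b123 b034 b134 b234) (g b012 b013 b023 b123 b014 b024 b124 b034 b134 b234)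

theorem G5_0 {g : ℕ → ℕ → ℕ → ℕ → ℕ → ℕ → ℕ → ℕ → ℕ → ℕ → ℕ} (hE : Sy E) (h : s50 g = true) (a b c d e : V) :
    G5 g E b a c d e = G5 g E a b c d e := by
  unfold G5
  have h2 := Nat.eq_of_beq_eq_true (B2_true (B2_true (B2_true (B2_true (B2_true (B2_true (B2_true (B2_true (B2_true (B2_true h (hE.b a b c)) (hE.b a b d)) (hE.b a c d)) (hE.b b c d)) (hE.b a b e)) (hE.b a c e)) (hE.b b c e)) (hE.b a d e)) (hE.b b d e)) (hE.b c d e))
  simp only [hE.h213 a b c, hE.h213 a b d, hE.h213 a b e]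
  exact h2

theorem G5_1 {g : ℕ → ℕ → ℕ → ℕ → ℕ → ℕ → ℕ → ℕ → ℕ → ℕ → ℕ} (hE : Sy E) (h : s51 g = true) (a b c d e : V) :
    G5 g E a c b d e = G5 g E a b c d e := by
  unfold G5
  have h2 := Nat.eq_of_beq_eq_true (B2_true (B2_true (B2_true (B2_true (B2_true (B2_true (B2_true (B2_true (B2_true (B2_true h (hE.b a b c)) (hE.b a b d)) (hE.b a c d)) (hE.b b c d)) (hE.b a b e)) (hE.b a c e)) (hE.b b c e)) (hE.b a d e)) (hE.b b d e)) (hE.b c d e))
  simp only [hE.h132 a b c, hE.h213 b c d, hE.h213 b c e]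
  exact h2

theorem G5_2 {g : ℕ → ℕ → ℕ → ℕ → ℕ → ℕ → ℕ → ℕ → ℕ → ℕ → ℕ} (hE : Sy E) (h : s52 g = true) (a b c d e : V) :
    G5 g E a b d c e = G5 g E a b c d e := by
  unfold G5
  have h2 := Nat.eq_of_beq_eq_true (B2_true (B2_true (B2_true (B2_true (B2_true (B2_true (B2_true (B2_true (B2_true (B2_true h (hE.b a b c)) (hE.b a b d)) (hE.b a c d)) (hE.b b c d)) (hE.b a b e)) (hE.b a c e)) (hE.b b c e)) (hE.b a d e)) (hE.b b d e)) (hE.b c d e))
  simp only [hE.h132 a c d, hE.h132 b c d, hE.h213 c d e]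
  exact h2

theorem G5_3 {g : ℕ → ℕ → ℕ → ℕ → ℕ → ℕ → ℕ → ℕ → ℕ → ℕ → ℕ} (hE : Sy E) (h : s53 g = true) (a b c d e : V) :
    G5 g E a b c e d = G5 g E a b c d e := by
  unfold G5
  have h2 := Nat.eq_of_beq_eq_true (B2_true (B2_true (B2_true (B2_true (B2_true (B2_true (B2_true (B2_true (B2_true (B2_true h (hE.b a b c)) (hE.b a b d)) (hE.b a c d)) (hE.b b c d)) (hE.b a b e)) (hE.b a c e)) (hE.b b c e)) (hE.b a d e)) (hE.b b d e)) (hE.b c d e))
  simp only [hE.h132 a d e, hE.h132 b d e, hE.h132 c d e]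
  exact h2

/-- a function of the structure on six vertices, at a tuple -/
def G6 (g : ℕ → ℕ → ℕ → ℕ → ℕ → ℕ → ℕ → ℕ → ℕ → ℕ → ℕ → ℕ → ℕ → ℕ → ℕ → ℕ → ℕ → ℕ → ℕ → ℕ → ℕ) (E : V → V → V → ℕ) (a b c d e f : V) : ℕ :=
  g (E a b c) (E a b d) (E a c d) (E b c d) (E a b e) (E a c e) (E b c e) (E a d e) (E b d e) (E c d e) (E a b f) (E a c f) (E b c f) (E a d f) (E b d f) (E c d f) (E a e f) (E b e f) (E c e f) (E d e f)

theorem G6_x5 (g : ℕ → ℕ → ℕ → ℕ → ℕ → ℕ → ℕ → ℕ → ℕ → ℕ → ℕ) (a b c d e f : V) : G6 (x5 g) E a b c d e f =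
    G5 g E a b c d e + (G5 g E a b c d f + (G5 g E a b c e f + (G5 g E a b d e f + (G5 g E a c d e f + G5 g E b c d e f)))) := rfl

theorem x5_0 {g : ℕ → ℕ → ℕ → ℕ → ℕ → ℕ → ℕ → ℕ → ℕ → ℕ → ℕ} (hE : Sy E) (h0 : s50 g = true) (h1 : s51 g = true) (h2 : s52 g = true) (h3 : s53 g = true)
    (a b c d e f : V) : G6 (x5 g) E b a c d e f = G6 (x5 g) E a b c d e f := by
  rw [G6_x5, G6_x5]
  simp only [G5_0 hE h0 a b c d e, G5_0 hE h0 a b c d f, G5_0 hE h0 a b c e f, G5_0 hE h0 a b d e f]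
  omega

theorem x5_1 {g : ℕ → ℕ → ℕ → ℕ → ℕ → ℕ → ℕ → ℕ → ℕ → ℕ → ℕ} (hE : Sy E) (h0 : s50 g = true) (h1 : s51 g = true) (h2 : s52 g = true) (h3 : s53 g = true)
    (a b c d e f : V) : G6 (x5 g) E a c b d e f = G6 (x5 g) E a b c d e f := by
  rw [G6_x5, G6_x5]
  simp only [G5_1 hE h1 a b c d e, G5_1 hE h1 a b c d f, G5_1 hE h1 a b c e f, G5_0 hE h0 b c d e f]
  omega

theorem x5_2 {g : ℕ → ℕ → ℕ → ℕ → ℕ → ℕ → ℕ → ℕ → ℕ → ℕ → ℕ} (hE : Sy E) (h0 : s50 g = true) (h1 : s51 g = true) (h2 : s52 g = true) (h3 : s53 g = true)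
    (a b c d e f : V) : G6 (x5 g) E a b d c e f = G6 (x5 g) E a b c d e f := by
  rw [G6_x5, G6_x5]
  simp only [G5_2 hE h2 a b c d e, G5_2 hE h2 a b c d f, G5_1 hE h1 a c d e f, G5_1 hE h1 b c d e f]
  omega

theorem x5_3 {g : ℕ → ℕ → ℕ → ℕ → ℕ → ℕ → ℕ → ℕ → ℕ → ℕ → ℕ} (hE : Sy E) (h0 : s50 g = true) (h1 : s51 g = true) (h2 : s52 g = true) (h3 : s53 g = true)
    (a b c d e f : V) : G6 (x5 g) E a b c e d f = G6 (x5 g) E a b c d e f := by
  rw [G6_x5, G6_x5]
  simp only [G5_3 hE h3 a b c d e, G5_2 hE h2 a b d e f, G5_2 hE h2 a c d e f, G5_2 hE h2 b c d e f]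
  omega

theorem t20_0 (hE : Sy E) (a b c d e f : V) : G6 t20 E b a c d e f = G6 t20 E a b c d e f := by
  unfold G6 t20
  simp only [hE.h213 a b c, hE.h213 a b d, hE.h213 a b e, hE.h213 a b f, Nat.add_eq]
  omega

theorem gm_eq (m : ℕ) (a b c d e f : V) : G6 (gm m) E a b c d e f = eqb (G6 t20 E a b c d e f) m := by
  unfold G6 gm
  rfl

theorem gm_0 (m : ℕ) (hE : Sy E) (a b c d e f : V) : G6 (gm m) E b a c d e f = G6 (gm m) E a b c d e f := by
  rw [gm_eq, gm_eq, t20_0 hE]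

theorem gst6_0 (hE : Sy E) (a b c d e f : V) : G6 gst6 E b a c d e f = G6 gst6 E a b c d e f := by
  have h := congrArg (fun x => eqb x 10) (t20_0 hE a b c d e f)
  unfold G6 at h
  unfold G6 gst6
  rw [h]
  congr 1
  simp only [hE.h213 a b c, hE.h213 a b d, hE.h213 a b e, hE.h213 a b f, Nat.add_eq]
  ac_rfl

theorem g24_0 (hE : Sy E) (a b c d e f : V) : G6 g24 E b a c d e f = G6 g24 E a b c d e f := by
  have h := congrArg (fun x => eqb x 16) (t20_0 hE a b c d e f)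
  unfold G6 at h
  unfold G6 g24
  rw [h]
  congr 1
  simp only [hE.h213 a b c, hE.h213 a b d, hE.h213 a b e, hE.h213 a b f, Nat.add_eq]
  ac_rfl

theorem t20_1 (hE : Sy E) (a b c d e f : V) : G6 t20 E a c b d e f = G6 t20 E a b c d e f := by
  unfold G6 t20
  simp only [hE.h132 a b c, hE.h213 b c d, hE.h213 b c e, hE.h213 b c f, Nat.add_eq]
  omega

theorem gm_1 (m : ℕ) (hE : Sy E) (a b c d e f : V) : G6 (gm m) E a c b d e f = G6 (gm m) E a b c d e f := by
  rw [gm_eq, gm_eq, t20_1 hE]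

theorem gst6_1 (hE : Sy E) (a b c d e f : V) : G6 gst6 E a c b d e f = G6 gst6 E a b c d e f := by
  have h := congrArg (fun x => eqb x 10) (t20_1 hE a b c d e f)
  unfold G6 at h
  unfold G6 gst6
  rw [h]
  congr 1
  simp only [hE.h132 a b c, hE.h213 b c d, hE.h213 b c e, hE.h213 b c f, Nat.add_eq]
  ac_rfl

theorem g24_1 (hE : Sy E) (a b c d e f : V) : G6 g24 E a c b d e f = G6 g24 E a b c d e f := by
  have h := congrArg (fun x => eqb x 16) (t20_1 hE a b c d e f)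
  unfold G6 at h
  unfold G6 g24
  rw [h]
  congr 1
  simp only [hE.h132 a b c, hE.h213 b c d, hE.h213 b c e, hE.h213 b c f, Nat.add_eq]
  ac_rfl

theorem t20_2 (hE : Sy E) (a b c d e f : V) : G6 t20 E a b d c e f = G6 t20 E a b c d e f := by
  unfold G6 t20
  simp only [hE.h132 a c d, hE.h132 b c d, hE.h213 c d e, hE.h213 c d f, Nat.add_eq]
  omega

theorem gm_2 (m : ℕ) (hE : Sy E) (a b c d e f : V) : G6 (gm m) E a b d c e f = G6 (gm m) E a b c d e f := by
  rw [gm_eq, gm_eq, t20_2 hE]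

theorem gst6_2 (hE : Sy E) (a b c d e f : V) : G6 gst6 E a b d c e f = G6 gst6 E a b c d e f := by
  have h := congrArg (fun x => eqb x 10) (t20_2 hE a b c d e f)
  unfold G6 at h
  unfold G6 gst6
  rw [h]
  congr 1
  simp only [hE.h132 a c d, hE.h132 b c d, hE.h213 c d e, hE.h213 c d f, Nat.add_eq]
  ac_rfl

theorem g24_2 (hE : Sy E) (a b c d e f : V) : G6 g24 E a b d c e f = G6 g24 E a b c d e f := by
  have h := congrArg (fun x => eqb x 16) (t20_2 hE a b c d e f)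
  unfold G6 at h
  unfold G6 g24
  rw [h]
  congr 1
  simp only [hE.h132 a c d, hE.h132 b c d, hE.h213 c d e, hE.h213 c d f, Nat.add_eq]
  ac_rfl

theorem t20_3 (hE : Sy E) (a b c d e f : V) : G6 t20 E a b c e d f = G6 t20 E a b c d e f := by
  unfold G6 t20
  simp only [hE.h132 a d e, hE.h132 b d e, hE.h132 c d e, hE.h213 d e f, Nat.add_eq]
  omega

theorem gm_3 (m : ℕ) (hE : Sy E) (a b c d e f : V) : G6 (gm m) E a b c e d f = G6 (gm m) E a b c d e f := by
  rw [gm_eq, gm_eq, t20_3 hE]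

theorem gst6_3 (hE : Sy E) (a b c d e f : V) : G6 gst6 E a b c e d f = G6 gst6 E a b c d e f := by
  have h := congrArg (fun x => eqb x 10) (t20_3 hE a b c d e f)
  unfold G6 at h
  unfold G6 gst6
  rw [h]
  congr 1
  simp only [hE.h132 a d e, hE.h132 b d e, hE.h132 c d e, hE.h213 d e f, Nat.add_eq]
  ac_rfl

theorem g24_3 (hE : Sy E) (a b c d e f : V) : G6 g24 E a b c e d f = G6 g24 E a b c d e f := by
  have h := congrArg (fun x => eqb x 16) (t20_3 hE a b c d e f)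
  unfold G6 at h
  unfold G6 g24
  rw [h]
  congr 1
  simp only [hE.h132 a d e, hE.h132 b d e, hE.h132 c d e, hE.h213 d e f, Nat.add_eq]
  ac_rfl

end

end Pool.Agent.R170.FA
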