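import Pool.Agent.R170.FA.Use
import Pool.Agent.R170.FA.E18Fin
import Pool.Agent.R170.FA.M59Fin
import Pool.Agent.R170.FA.M24Fin
import Pool.Agent.R170.FA.T59Fin
import Pool.Agent.R170.FA.T14Fin
import Pool.Agent.R170.FA.T15Fin
import Pool.Agent.R170.FA.T24Fin
import Pool.Agent.R170.FA.T33Fin

/-! The inequalities of the certificates. -/

set_option autoImplicit false
set_option maxRecDepth 100000
set_option maxHeartbeats 4000000
open Finset
open scoped Classical

namespace Pool.Agent.R170.FA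
open Pool.Agent.H122R2.N6 Pool.Agent.H37R3.Pen Pool.Agent.H37R3.Cop Pool.Agent.Y580.FL

variable {n : ℕ}

theorem ze_eq {V : Type} (E : V → V → V → ℕ) (C B : ℕ)
    (X : ℕ → ℕ → ℕ → ℕ → ℕ → ℕ → ℕ → ℕ → ℕ → ℕ → ℕ → ℕ → ℕ → ℕ → ℕ → ℕ → ℕ → ℕ → ℕ → ℕ → ℕ) (a b c d e f : V) :
    ZE E (fun b012 b013 b023 b123 b014 b024 b124 b034 b134 b234 b015 b025 b125 b035 b135 b235 b045 b145 b245 b345 => Nat.sub C (Nat.mul B (X b012 b013 b023 b123 b014 b024 b124 b034 b134 b234 b015 b025 b125 b035 b135 b235 b045 b145 b245 b345))) a b c d e f = C - B * G6 X E a b c d e f := rfl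


theorem zE18 : E18.Z = fun b012 b013 b023 b123 b014 b024 b124 b034 b134 b234 b015 b025 b125 b035 b135 b235 b045 b145 b245 b345 => Nat.sub 264849158307840 (Nat.mul 3092376453120 ((gm 18) b012 b013 b023 b123 b014 b024 b124 b034 b134 b234 b015 b025 b125 b035 b135 b235 b045 b145 b245 b345)) := rfl

theorem bE18 {E : Fin n → Fin n → Fin n → ℕ} (hE : Sy E) (hK : Pool.Agent.H37R3.K5.NoK5 E) :
    (3092376453120 : ℤ) * ∑ x : Fin 6 → Fin n, (G6 (gm 18) E (x 0) (x 1) (x 2) (x 3) (x 4) (x 5) : ℤ) ≤ 966367641600 * (n : ℤ) ^ 6 := by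
  have hb := E18.main hE hK (fun a b c d e f => by rw [zE18, ze_eq, ze_eq, gm_0 18 hE a b c d e f]) (fun a b c d e f => by rw [zE18, ze_eq, ze_eq, gm_1 18 hE a b c d e f]) (fun a b c d e f => by rw [zE18, ze_eq, ze_eq, gm_2 18 hE a b c d e f]) (fun a b c d e f => by rw [zE18, ze_eq, ze_eq, gm_3 18 hE a b c d e f])
  rw [Sv_zero E (fun c => (E18.so (E18.rho c) : ℤ)) (fun c => by
      have h : ∀ r, E18.so r = 0 := fun r => by unfold E18.so; simp
      rw [h]; rfl), zE18, ze_sum E 264849158307840 3092376453120 15 (gm 18) (gm_le 18) (by norm_num)] at hb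
  rw [T2_zero E hE (fun k => (E18.ct k : ℤ)) (by
      intro k hk
      interval_cases k <;> decide +kernel), Fintype.card_fin] at hb
  push_cast at hb ⊢
  linarith


theorem zM59 : M59.Z = fun b012 b013 b023 b123 b014 b024 b124 b034 b134 b234 b015 b025 b125 b035 b135 b235 b045 b145 b245 b345 => Nat.sub 265815525949440 (Nat.mul 515396075520 ((x5 g9) b012 b013 b023 b123 b014 b024 b124 b034 b134 b234 b015 b025 b125 b035 b135 b235 b045 b145 b245 b345)) := rfl

theorem bM59 {E : Fin n → Fin n → Fin n → ℕ} (hE : Sy E) (hK : Pool.Agent.H37R3.K5.NoK5 E) :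
    (515396075520 : ℤ) * ∑ x : Fin 6 → Fin n, (G6 (x5 g9) E (x 0) (x 1) (x 2) (x 3) (x 4) (x 5) : ℤ) ≤ 1932735283200 * (n : ℤ) ^ 6 := by
  have hb := M59.main hE hK (fun a b c d e f => by rw [zM59, ze_eq, ze_eq, x5_0 hE s9_0 s9_1 s9_2 s9_3 a b c d e f]) (fun a b c d e f => by rw [zM59, ze_eq, ze_eq, x5_1 hE s9_0 s9_1 s9_2 s9_3 a b c d e f]) (fun a b c d e f => by rw [zM59, ze_eq, ze_eq, x5_2 hE s9_0 s9_1 s9_2 s9_3 a b c d e f]) (fun a b c d e f => by rw [zM59, ze_eq, ze_eq, x5_3 hE s9_0 s9_1 s9_2 s9_3 a b c d e f])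
  rw [Sv_zero E (fun c => (M59.so (M59.rho c) : ℤ)) (fun c => by
      have h : ∀ r, M59.so r = 0 := fun r => by unfold M59.so; simp
      rw [h]; rfl), zM59, ze_sum E 265815525949440 515396075520 30 (x5 g9) (x5_le g9_le) (by norm_num)] at hb
  rw [T2_zero E hE (fun k => (M59.ct k : ℤ)) (by
      intro k hk
      interval_cases k <;> decide +kernel), Fintype.card_fin] at hb
  push_cast at hb ⊢
  linarith


theorem zM24 : M24.Z = fun b012 b013 b023 b123 b014 b024 b124 b034 b134 b234 b015 b025 b125 b035 b135 b235 b045 b145 b245 b345 => Nat.sub 265332342128640 (Nat.mul 3092376453120 ((g24) b012 b013 b023 b123 b014 b024 b124 b034 b134 b234 b015 b025 b125 b035 b135 b235 b045 b145 b245 b345)) := rfl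

theorem bM24 {E : Fin n → Fin n → Fin n → ℕ} (hE : Sy E) (hK : Pool.Agent.H37R3.K5.NoK5 E) :
    (3092376453120 : ℤ) * ∑ x : Fin 6 → Fin n, (G6 (g24) E (x 0) (x 1) (x 2) (x 3) (x 4) (x 5) : ℤ) ≤ 1449551462400 * (n : ℤ) ^ 6 := by
  have hb := M24.main hE hK (fun a b c d e f => by rw [zM24, ze_eq, ze_eq, g24_0 hE a b c d e f]) (fun a b c d e f => by rw [zM24, ze_eq, ze_eq, g24_1 hE a b c d e f]) (fun a b c d e f => by rw [zM24, ze_eq, ze_eq, g24_2 hE a b c d e f]) (fun a b c d e f => by rw [zM24, ze_eq, ze_eq, g24_3 hE a b c d e f])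
  rw [Sv_zero E (fun c => (M24.so (M24.rho c) : ℤ)) (fun c => by
      have h : ∀ r, M24.so r = 0 := fun r => by unfold M24.so; simp
      rw [h]; rfl), zM24, ze_sum E 265332342128640 3092376453120 15 (g24) g24_le (by norm_num)] at hb
  rw [T2_zero E hE (fun k => (M24.ct k : ℤ)) (by
      intro k hk
      interval_cases k <;> decide +kernel), Fintype.card_fin] at hb
  push_cast at hb ⊢
  linarith


theorem zT59 : T59.Z = fun b012 b013 b023 b123 b014 b024 b124 b034 b134 b234 b015 b025 b125 b035 b135 b235 b045 b145 b245 b345 => Nat.sub 268684429885440 (Nat.mul 120795955200 ((x5 g9) b012 b013 b023 b123 b014 b024 b124 b034 b134 b234 b015 b025 b125 b035 b135 b235 b045 b145 b245 b345)) := rfl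

theorem bT59 {E : Fin n → Fin n → Fin n → ℕ} (hE : Sy E) (hK : Pool.Agent.H37R3.K5.NoK5 E) :
    5798205849600 * ((n : ℤ) ^ 3 * ∑ a, ∑ b, ∑ c, (E a b c : ℤ)) + (120795955200 : ℤ) * ∑ x : Fin 6 → Fin n, (G6 (x5 g9) E (x 0) (x 1) (x 2) (x 3) (x 4) (x 5) : ℤ) ≤ 4801639219200 * (n : ℤ) ^ 6 := by
  have hb := T59.main hE hK (fun a b c d e f => by rw [zT59, ze_eq, ze_eq, x5_0 hE s9_0 s9_1 s9_2 s9_3 a b c d e f]) (fun a b c d e f => by rw [zT59, ze_eq, ze_eq, x5_1 hE s9_0 s9_1 s9_2 s9_3 a b c d e f]) (fun a b c d e f => by rw [zT59, ze_eq, ze_eq, x5_2 hE s9_0 s9_1 s9_2 s9_3 a b c d e f]) (fun a b c d e f => by rw [zT59, ze_eq, ze_eq, x5_3 hE s9_0 s9_1 s9_2 s9_3 a b c d e f])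
  rw [Sv_zero E (fun c => (T59.so (T59.rho c) : ℤ)) (fun c => by
      have h : ∀ r, T59.so r = 0 := fun r => by unfold T59.so; simp
      rw [h]; rfl), zT59, ze_sum E 268684429885440 120795955200 30 (x5 g9) (x5_le g9_le) (by norm_num)] at hb
  rw [T2_congr hE (fun k => (T59.ct k : ℤ)) (fun k => 32212254720 * (k : ℤ)) (by
      intro k hk
      interval_cases k <;> decide +kernel),
    Pool.Agent.H37R3.Pen.T2_lin E hE, Fintype.card_fin] at hb
  push_cast at hb ⊢
  linarith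


theorem zT14 : T14.Z = fun b012 b013 b023 b123 b014 b024 b124 b034 b134 b234 b015 b025 b125 b035 b135 b235 b045 b145 b245 b345 => Nat.sub 268684429885440 (Nat.mul 241591910400 ((x5 gst) b012 b013 b023 b123 b014 b024 b124 b034 b134 b234 b015 b025 b125 b035 b135 b235 b045 b145 b245 b345)) := rfl

theorem bT14 {E : Fin n → Fin n → Fin n → ℕ} (hE : Sy E) (hK : Pool.Agent.H37R3.K5.NoK5 E) :
    5798205849600 * ((n : ℤ) ^ 3 * ∑ a, ∑ b, ∑ c, (E a b c : ℤ)) + (241591910400 : ℤ) * ∑ x : Fin 6 → Fin n, (G6 (x5 gst) E (x 0) (x 1) (x 2) (x 3) (x 4) (x 5) : ℤ) ≤ 4801639219200 * (n : ℤ) ^ 6 := by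
  have hb := T14.main hE hK (fun a b c d e f => by rw [zT14, ze_eq, ze_eq, x5_0 hE sst_0 sst_1 sst_2 sst_3 a b c d e f]) (fun a b c d e f => by rw [zT14, ze_eq, ze_eq, x5_1 hE sst_0 sst_1 sst_2 sst_3 a b c d e f]) (fun a b c d e f => by rw [zT14, ze_eq, ze_eq, x5_2 hE sst_0 sst_1 sst_2 sst_3 a b c d e f]) (fun a b c d e f => by rw [zT14, ze_eq, ze_eq, x5_3 hE sst_0 sst_1 sst_2 sst_3 a b c d e f])
  rw [Sv_zero E (fun c => (T14.so (T14.rho c) : ℤ)) (fun c => by
      have h : ∀ r, T14.so r = 0 := fun r => by unfold T14.so; simp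
      rw [h]; rfl), zT14, ze_sum E 268684429885440 241591910400 30 (x5 gst) (x5_le gst_le) (by norm_num)] at hb
  rw [T2_congr hE (fun k => (T14.ct k : ℤ)) (fun k => 32212254720 * (k : ℤ)) (by
      intro k hk
      interval_cases k <;> decide +kernel),
    Pool.Agent.H37R3.Pen.T2_lin E hE, Fintype.card_fin] at hb
  push_cast at hb ⊢
  linarith


theorem zT15 : T15.Z = fun b012 b013 b023 b123 b014 b024 b124 b034 b134 b234 b015 b025 b125 b035 b135 b235 b045 b145 b245 b345 => Nat.sub 268593832919040 (Nat.mul 1932735283200 ((gst6) b012 b013 b023 b123 b014 b024 b124 b034 b134 b234 b015 b025 b125 b035 b135 b235 b045 b145 b245 b345)) := rfl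

theorem bT15 {E : Fin n → Fin n → Fin n → ℕ} (hE : Sy E) (hK : Pool.Agent.H37R3.K5.NoK5 E) :
    5798205849600 * ((n : ℤ) ^ 3 * ∑ a, ∑ b, ∑ c, (E a b c : ℤ)) + (1932735283200 : ℤ) * ∑ x : Fin 6 → Fin n, (G6 (gst6) E (x 0) (x 1) (x 2) (x 3) (x 4) (x 5) : ℤ) ≤ 4711042252800 * (n : ℤ) ^ 6 := by
  have hb := T15.main hE hK (fun a b c d e f => by rw [zT15, ze_eq, ze_eq, gst6_0 hE a b c d e f]) (fun a b c d e f => by rw [zT15, ze_eq, ze_eq, gst6_1 hE a b c d e f]) (fun a b c d e f => by rw [zT15, ze_eq, ze_eq, gst6_2 hE a b c d e f]) (fun a b c d e f => by rw [zT15, ze_eq, ze_eq, gst6_3 hE a b c d e f])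
  rw [Sv_zero E (fun c => (T15.so (T15.rho c) : ℤ)) (fun c => by
      have h : ∀ r, T15.so r = 0 := fun r => by unfold T15.so; simp
      rw [h]; rfl), zT15, ze_sum E 268593832919040 1932735283200 15 (gst6) gst6_le (by norm_num)] at hb
  rw [T2_congr hE (fun k => (T15.ct k : ℤ)) (fun k => 32212254720 * (k : ℤ)) (by
      intro k hk
      interval_cases k <;> decide +kernel),
    Pool.Agent.H37R3.Pen.T2_lin E hE, Fintype.card_fin] at hb
  push_cast at hb ⊢
  linarith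


theorem zT24 : T24.Z = fun b012 b013 b023 b123 b014 b024 b124 b034 b134 b234 b015 b025 b125 b035 b135 b235 b045 b145 b245 b345 => Nat.sub 268457937469440 (Nat.mul 483183820800 ((g24) b012 b013 b023 b123 b014 b024 b124 b034 b134 b234 b015 b025 b125 b035 b135 b235 b045 b145 b245 b345)) := rfl

theorem bT24 {E : Fin n → Fin n → Fin n → ℕ} (hE : Sy E) (hK : Pool.Agent.H37R3.K5.NoK5 E) :
    5798205849600 * ((n : ℤ) ^ 3 * ∑ a, ∑ b, ∑ c, (E a b c : ℤ)) + (483183820800 : ℤ) * ∑ x : Fin 6 → Fin n, (G6 (g24) E (x 0) (x 1) (x 2) (x 3) (x 4) (x 5) : ℤ) ≤ 4575146803200 * (n : ℤ) ^ 6 := by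
  have hb := T24.main hE hK (fun a b c d e f => by rw [zT24, ze_eq, ze_eq, g24_0 hE a b c d e f]) (fun a b c d e f => by rw [zT24, ze_eq, ze_eq, g24_1 hE a b c d e f]) (fun a b c d e f => by rw [zT24, ze_eq, ze_eq, g24_2 hE a b c d e f]) (fun a b c d e f => by rw [zT24, ze_eq, ze_eq, g24_3 hE a b c d e f])
  rw [Sv_zero E (fun c => (T24.so (T24.rho c) : ℤ)) (fun c => by
      have h : ∀ r, T24.so r = 0 := fun r => by unfold T24.so; simp
      rw [h]; rfl), zT24, ze_sum E 268457937469440 483183820800 15 (g24) g24_le (by norm_num)] at hb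
  rw [T2_congr hE (fun k => (T24.ct k : ℤ)) (fun k => 32212254720 * (k : ℤ)) (by
      intro k hk
      interval_cases k <;> decide +kernel),
    Pool.Agent.H37R3.Pen.T2_lin E hE, Fintype.card_fin] at hb
  push_cast at hb ⊢
  linarith


theorem zT33 : T33.Z = fun b012 b013 b023 b123 b014 b024 b124 b034 b134 b234 b015 b025 b125 b035 b135 b235 b045 b145 b245 b345 => Nat.sub 268412638986240 (Nat.mul 579820584960 ((gm 18) b012 b013 b023 b123 b014 b024 b124 b034 b134 b234 b015 b025 b125 b035 b135 b235 b045 b145 b245 b345)) := rfl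

theorem bT33 {E : Fin n → Fin n → Fin n → ℕ} (hE : Sy E) (hK : Pool.Agent.H37R3.K5.NoK5 E) :
    5798205849600 * ((n : ℤ) ^ 3 * ∑ a, ∑ b, ∑ c, (E a b c : ℤ)) + (579820584960 : ℤ) * ∑ x : Fin 6 → Fin n, (G6 (gm 18) E (x 0) (x 1) (x 2) (x 3) (x 4) (x 5) : ℤ) ≤ 4529848320000 * (n : ℤ) ^ 6 := by
  have hb := T33.main hE hK (fun a b c d e f => by rw [zT33, ze_eq, ze_eq, gm_0 18 hE a b c d e f]) (fun a b c d e f => by rw [zT33, ze_eq, ze_eq, gm_1 18 hE a b c d e f]) (fun a b c d e f => by rw [zT33, ze_eq, ze_eq, gm_2 18 hE a b c d e f]) (fun a b c d e f => by rw [zT33, ze_eq, ze_eq, gm_3 18 hE a b c d e f])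
  rw [Sv_zero E (fun c => (T33.so (T33.rho c) : ℤ)) (fun c => by
      have h : ∀ r, T33.so r = 0 := fun r => by unfold T33.so; simp
      rw [h]; rfl), zT33, ze_sum E 268412638986240 579820584960 15 (gm 18) (gm_le 18) (by norm_num)] at hb
  rw [T2_congr hE (fun k => (T33.ct k : ℤ)) (fun k => 32212254720 * (k : ℤ)) (by
      intro k hk
      interval_cases k <;> decide +kernel),
    Pool.Agent.H37R3.Pen.T2_lin E hE, Fintype.card_fin] at hb
  push_cast at hb ⊢
  linarith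


end Pool.Agent.R170.FA
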