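import Pool.Agent.R170.FA.Base
import Pool.Agent.Y580.FL.Quad

/-! Numbers of vertex sets with a given pattern, bounded by sums over tuples. -/

set_option autoImplicit false
set_option maxRecDepth 100000
set_option maxHeartbeats 4000000
open Finset
open scoped Classical

namespace Pool.Agent.R170.FA
open Pool.Agent.H122R2.N6 Pool.Agent.H37R3.Pen Pool.Agent.H37R3.Cop Pool.Agent.Y580.FL

variable {n : ℕ} {H : Finset (Finset (Fin n))}

/-- the number of edges spanned by the vertices of an injective tuple -/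
theorem card_span {k : ℕ} (hH : ∀ e ∈ H, e.card = 3) {x : Fin k → Fin n}
    (hx : Function.Injective x) : (H.filter fun e => e ⊆ univ.image x).card =
      ∑ t ∈ (univ : Finset (Fin k)).powersetCard 3, if t.image x ∈ H then 1 else 0 := by
  rw [← card_filter]
  symm
  refine card_bij (fun t _ => t.image x) ?_ ?_ ?_
  · intro t ht
    obtain ⟨-, h2⟩ := mem_filter.mp ht
    exact mem_filter.mpr ⟨h2, image_subset_image (subset_univ _)⟩
  · intro t _ t' _ h
    exact image_injective hx h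
  · intro e he
    obtain ⟨h1, h2⟩ := mem_filter.mp he
    refine ⟨univ.filter fun i => x i ∈ e, ?_, ?_⟩
    · have e1 : (univ.filter fun i => x i ∈ e).image x = e := by
        ext v
        rw [mem_image]
        constructor
        · rintro ⟨i, hi, rfl⟩
          exact (mem_filter.mp hi).2
        · intro hv
          obtain ⟨i, -, rfl⟩ := mem_image.mp (h2 hv)
          exact ⟨i, mem_filter.mpr ⟨mem_univ _, hv⟩, rfl⟩
      refine mem_filter.mpr ⟨mem_powersetCard.mpr ⟨subset_univ _, ?_⟩, ?_⟩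
      · rw [← card_image_of_injective _ hx, e1]
        exact hH e h1
      · rw [e1]; exact h1
    · ext v
      rw [mem_image]
      constructor
      · rintro ⟨i, hi, rfl⟩
        exact (mem_filter.mp hi).2
      · intro hv
        obtain ⟨i, -, rfl⟩ := mem_image.mp (h2 hv)
        exact ⟨i, mem_filter.mpr ⟨mem_univ _, hv⟩, rfl⟩

theorem tri_img {k : ℕ} (x : Fin k → Fin n) (a b c : Fin k) :
    ({a, b, c} : Finset (Fin k)).image x = {x a, x b, x c} := by
  rw [image_insert, image_insert, image_singleton]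

def T20 : List (Finset (Fin 6)) := [{0, 1, 2}, {0, 1, 3}, {0, 2, 3}, {1, 2, 3}, {0, 1, 4},
  {0, 2, 4}, {1, 2, 4}, {0, 3, 4}, {1, 3, 4}, {2, 3, 4}, {0, 1, 5}, {0, 2, 5}, {1, 2, 5},
  {0, 3, 5}, {1, 3, 5}, {2, 3, 5}, {0, 4, 5}, {1, 4, 5}, {2, 4, 5}, {3, 4, 5}]

def T10 : List (Finset (Fin 5)) := [{0, 1, 2}, {0, 1, 3}, {0, 2, 3}, {1, 2, 3}, {0, 1, 4},
  {0, 2, 4}, {1, 2, 4}, {0, 3, 4}, {1, 3, 4}, {2, 3, 4}]

theorem T20_nd : T20.Nodup := by decide +kernel
theorem T10_nd : T10.Nodup := by decide +kernel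
theorem T20_eq : ∀ t : Finset (Fin 6), t ∈ T20 ↔ t.card = 3 := by decide +kernel
theorem T10_eq : ∀ t : Finset (Fin 5), t ∈ T10 ↔ t.card = 3 := by decide +kernel

theorem sum_T {k : ℕ} {L : List (Finset (Fin k))} (hL : L.Nodup)
    (he : ∀ t : Finset (Fin k), t ∈ L ↔ t.card = 3) (φ : Finset (Fin k) → ℕ) :
    ∑ t ∈ (univ : Finset (Fin k)).powersetCard 3, φ t = (L.map φ).sum := by
  rw [← List.sum_toFinset φ hL]
  refine sum_congr ?_ fun _ _ => rfl
  ext t
  rw [mem_powersetCard, List.mem_toFinset, he]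
  exact ⟨fun h => h.2, fun h => ⟨subset_univ _, h⟩⟩

theorem set3 (d1 d2 : DecidableEq (Fin n)) (a b c : Fin n) :
    @insert (Fin n) (Finset (Fin n)) (@Finset.instInsert _ d1) a
      (@insert (Fin n) (Finset (Fin n)) (@Finset.instInsert _ d1) b {c}) =
    @insert (Fin n) (Finset (Fin n)) (@Finset.instInsert _ d2) a
      (@insert (Fin n) (Finset (Fin n)) (@Finset.instInsert _ d2) b {c}) := by
  have h : d1 = d2 := Subsingleton.elim _ _
  subst h
  rfl

theorem tri_if (a b c : Fin n) : (if ({a, b, c} : Finset (Fin n)) ∈ H then 1 else 0) = tri H a b c := by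
  unfold tri
  by_cases h : ({a, b, c} : Finset (Fin n)) ∈ H
  · rw [if_pos h, if_pos]
    rw [set3 _ (instDecidableEqFin n) a b c]
    exact h
  · rw [if_neg h, if_neg]
    rw [set3 _ (instDecidableEqFin n) a b c]
    exact h

theorem span6 (hH : ∀ e ∈ H, e.card = 3) {x : Fin 6 → Fin n} (hx : Function.Injective x) :
    (H.filter fun e => e ⊆ univ.image x).card = G6 t20 (tri H) (x 0) (x 1) (x 2) (x 3) (x 4) (x 5) := by
  rw [card_span hH hx, sum_T T20_nd T20_eq]
  simp only [T20, List.map_cons, List.map_nil, List.sum_cons, List.sum_nil, tri_img, tri_if]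
  unfold G6 t20
  simp only [Nat.add_eq]
  ring

theorem span5 (hH : ∀ e ∈ H, e.card = 3) {x : Fin 5 → Fin n} (hx : Function.Injective x) :
    (H.filter fun e => e ⊆ univ.image x).card = G5 t10 (tri H) (x 0) (x 1) (x 2) (x 3) (x 4) := by
  rw [card_span hH hx, sum_T T10_nd T10_eq]
  simp only [T10, List.map_cons, List.map_nil, List.sum_cons, List.sum_nil, tri_img, tri_if]
  unfold G5 t10
  simp only [Nat.add_eq]
  ring

theorem fiber_ge {k : ℕ} (S : Finset (Fin n)) (hS : S.card = k) :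
    k.factorial ≤ ((univ : Finset (Fin k → Fin n)).filter fun x => univ.image x = S).card := by
  have h1 : (univ : Finset (Fin k ↪ S)).card = k.factorial := by
    rw [card_univ, Fintype.card_embedding_eq, Fintype.card_fin, Fintype.card_coe, hS,
      Nat.descFactorial_self]
  rw [← h1]
  refine card_le_card_of_injOn (fun e i => (e i : Fin n)) ?_ ?_
  · intro e _
    rw [mem_coe, mem_filter]
    refine ⟨mem_univ _, ?_⟩
    refine eq_of_subset_of_card_le ?_ ?_
    · intro v hv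
      rw [mem_image] at hv
      obtain ⟨i, -, rfl⟩ := hv
      exact (e i).2
    · rw [card_image_of_injective _ (fun i j hij => e.injective (Subtype.ext hij)), hS, card_univ,
        Fintype.card_fin]
  · intro e _ e' _ he
    ext i
    exact congrArg Fin.val (congrFun he i)

theorem le_sum {k : ℕ} (P : Finset (Fin n) → Prop) [DecidablePred P] (g : (Fin k → Fin n) → ℕ)
    (h : ∀ x, Function.Injective x → P (univ.image x) → 1 ≤ g x) :
    k.factorial * (((univ : Finset (Fin n)).powersetCard k).filter P).card ≤ ∑ x, g x := by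
  set TA := ((univ : Finset (Fin n)).powersetCard k).filter P with hTA
  have h1 : ((univ : Finset (Fin k → Fin n)).filter fun x => univ.image x ∈ TA).card ≤
      ∑ x : Fin k → Fin n, g x := by
    rw [card_filter]
    refine sum_le_sum fun x _ => ?_
    split_ifs with hx
    · rw [hTA, mem_filter, mem_powersetCard] at hx
      obtain ⟨⟨-, hc⟩, h14⟩ := hx
      have hxi : Function.Injective x := by
        have h1 : (univ.image x).card = (univ : Finset (Fin k)).card := by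
          rw [hc, card_univ, Fintype.card_fin]
        have h2 := Finset.injOn_of_card_image_eq h1
        intro i j hij
        exact h2 (by simp) (by simp) hij
      exact h x hxi h14
    · exact Nat.zero_le _
  refine le_trans ?_ h1
  have hmap : ∀ x ∈ (univ : Finset (Fin k → Fin n)).filter (fun x => univ.image x ∈ TA),
      univ.image x ∈ TA := fun x hx => (mem_filter.mp hx).2
  rw [card_eq_sum_card_fiberwise hmap]
  rw [mul_comm, ← smul_eq_mul, ← sum_const]
  refine sum_le_sum fun S hS => ?_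
  have hS6 : S.card = k := (mem_powersetCard.mp (mem_filter.mp hS).1).2
  refine le_trans (fiber_ge S hS6) (card_le_card ?_)
  intro x hx
  have hx2 := (mem_filter.mp hx).2
  exact mem_filter.mpr ⟨mem_filter.mpr ⟨mem_univ _, by rw [hx2]; exact hS⟩, hx2⟩

theorem sum_drop (i : Fin 6) (f : (Fin 5 → Fin n) → ℤ) :
    ∑ x : Fin 6 → Fin n, f (fun j => x (i.succAbove j)) = n * ∑ y, f y := by
  rw [← (Fin.insertNthEquiv (fun _ => Fin n) i).sum_comp, Fintype.sum_prod_type]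
  simp only [Fin.insertNthEquiv_apply, Fin.insertNth_apply_succAbove]
  rw [sum_const, card_univ, Fintype.card_fin, nsmul_eq_mul]

theorem sum_x5 (g : ℕ → ℕ → ℕ → ℕ → ℕ → ℕ → ℕ → ℕ → ℕ → ℕ → ℕ) (E : Fin n → Fin n → Fin n → ℕ) :
    ∑ x : Fin 6 → Fin n, (G6 (x5 g) E (x 0) (x 1) (x 2) (x 3) (x 4) (x 5) : ℤ) =
      6 * n * ∑ y : Fin 5 → Fin n, (G5 g E (y 0) (y 1) (y 2) (y 3) (y 4) : ℤ) := by
  have e5 := sum_drop (5 : Fin 6) (fun y => (G5 g E (y 0) (y 1) (y 2) (y 3) (y 4) : ℤ))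
  have e4 := sum_drop (4 : Fin 6) (fun y => (G5 g E (y 0) (y 1) (y 2) (y 3) (y 4) : ℤ))
  have e3 := sum_drop (3 : Fin 6) (fun y => (G5 g E (y 0) (y 1) (y 2) (y 3) (y 4) : ℤ))
  have e2 := sum_drop (2 : Fin 6) (fun y => (G5 g E (y 0) (y 1) (y 2) (y 3) (y 4) : ℤ))
  have e1 := sum_drop (1 : Fin 6) (fun y => (G5 g E (y 0) (y 1) (y 2) (y 3) (y 4) : ℤ))
  have e0 := sum_drop (0 : Fin 6) (fun y => (G5 g E (y 0) (y 1) (y 2) (y 3) (y 4) : ℤ))
  have a5 : ∀ x : Fin 6 → Fin n, (fun y : Fin 5 → Fin n => (G5 g E (y 0) (y 1) (y 2) (y 3) (y 4) : ℤ))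
      (fun j => x ((5 : Fin 6).succAbove j)) = (G5 g E (x 0) (x 1) (x 2) (x 3) (x 4) : ℤ) := fun x => rfl
  have a4 : ∀ x : Fin 6 → Fin n, (fun y : Fin 5 → Fin n => (G5 g E (y 0) (y 1) (y 2) (y 3) (y 4) : ℤ))
      (fun j => x ((4 : Fin 6).succAbove j)) = (G5 g E (x 0) (x 1) (x 2) (x 3) (x 5) : ℤ) := fun x => rfl
  have a3 : ∀ x : Fin 6 → Fin n, (fun y : Fin 5 → Fin n => (G5 g E (y 0) (y 1) (y 2) (y 3) (y 4) : ℤ))
      (fun j => x ((3 : Fin 6).succAbove j)) = (G5 g E (x 0) (x 1) (x 2) (x 4) (x 5) : ℤ) := fun x => rfl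
  have a2 : ∀ x : Fin 6 → Fin n, (fun y : Fin 5 → Fin n => (G5 g E (y 0) (y 1) (y 2) (y 3) (y 4) : ℤ))
      (fun j => x ((2 : Fin 6).succAbove j)) = (G5 g E (x 0) (x 1) (x 3) (x 4) (x 5) : ℤ) := fun x => rfl
  have a1 : ∀ x : Fin 6 → Fin n, (fun y : Fin 5 → Fin n => (G5 g E (y 0) (y 1) (y 2) (y 3) (y 4) : ℤ))
      (fun j => x ((1 : Fin 6).succAbove j)) = (G5 g E (x 0) (x 2) (x 3) (x 4) (x 5) : ℤ) := fun x => rfl
  have a0 : ∀ x : Fin 6 → Fin n, (fun y : Fin 5 → Fin n => (G5 g E (y 0) (y 1) (y 2) (y 3) (y 4) : ℤ))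
      (fun j => x ((0 : Fin 6).succAbove j)) = (G5 g E (x 1) (x 2) (x 3) (x 4) (x 5) : ℤ) := fun x => rfl
  simp only [a5] at e5
  simp only [a4] at e4
  simp only [a3] at e3
  simp only [a2] at e2
  simp only [a1] at e1
  simp only [a0] at e0
  simp only [G6_x5, Nat.cast_add, sum_add_distrib]
  rw [e0, e1, e2, e3, e4, e5]
  ring

/-- the 3-graph `H` induces on `S` the complete bipartite 3-graph with a part of size `a`: the
triples of `H` in `S` are those which meet both parts -/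
def Split (a : ℕ) (H : Finset (Finset (Fin n))) (S : Finset (Fin n)) : Prop :=
  ∃ A ⊆ S, A.card = a ∧ ∀ t ⊆ S, t.card = 3 → (t ∈ H ↔ ¬ t ⊆ A ∧ ¬ t ⊆ S \ A)

/-- the bits of a bipartite 3-graph -/
def mb {k : ℕ} (I : Finset (Fin k)) (i j l : Fin k) : ℕ :=
  if (i ∈ I ∧ j ∈ I ∧ l ∈ I) ∨ (i ∉ I ∧ j ∉ I ∧ l ∉ I) then 0 else 1

theorem split_bits {k a : ℕ} {x : Fin k → Fin n} (hx : Function.Injective x)
    (h : Split a H (univ.image x)) : ∃ I : Finset (Fin k), I.card = a ∧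
      ∀ i j l : Fin k, i < j → j < l → tri H (x i) (x j) (x l) = mb I i j l := by
  obtain ⟨A, hA, hAc, ht⟩ := h
  refine ⟨univ.filter fun i => x i ∈ A, ?_, ?_⟩
  · rw [← hAc, ← card_image_of_injective _ hx]
    congr 1
    ext v
    rw [mem_image]
    constructor
    · rintro ⟨i, hi, rfl⟩
      exact (mem_filter.mp hi).2
    · intro hv
      obtain ⟨i, -, rfl⟩ := mem_image.mp (hA hv)
      exact ⟨i, mem_filter.mpr ⟨mem_univ _, hv⟩, rfl⟩
  · intro i j l hij hjl
    have hc : ({x i, x j, x l} : Finset (Fin n)).card = 3 := by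
      rw [card_eq_three]
      exact ⟨x i, x j, x l, fun e => hij.ne (hx e), fun e => (hij.trans hjl).ne (hx e),
        fun e => hjl.ne (hx e), rfl⟩
    have hs : ({x i, x j, x l} : Finset (Fin n)) ⊆ univ.image x := by
      intro v hv
      simp only [mem_insert, mem_singleton] at hv
      rcases hv with rfl | rfl | rfl <;> exact mem_image_of_mem _ (mem_univ _)
    have h1 := ht _ hs hc
    have h2 : ({x i, x j, x l} : Finset (Fin n)) ⊆ A ↔ (x i ∈ A ∧ x j ∈ A ∧ x l ∈ A) := by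
      simp only [insert_subset_iff, singleton_subset_iff]
    have h3 : ({x i, x j, x l} : Finset (Fin n)) ⊆ univ.image x \ A ↔ (x i ∉ A ∧ x j ∉ A ∧ x l ∉ A) := by
      simp only [insert_subset_iff, singleton_subset_iff, mem_sdiff, mem_image, mem_univ, true_and,
        exists_apply_eq_apply]
    rw [h2, h3] at h1
    rw [← tri_if (H := H)]
    unfold mb
    simp only [mem_filter, mem_univ, true_and]
    by_cases hh : ({x i, x j, x l} : Finset (Fin n)) ∈ H
    · rw [if_pos hh, if_neg]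
      exact fun h4 => h4.elim (h1.mp hh).1 (h1.mp hh).2
    · rw [if_neg hh, if_pos]
      by_contra h4
      rw [not_or] at h4
      exact hh (h1.mpr h4)

theorem G6_bits (g : ℕ → ℕ → ℕ → ℕ → ℕ → ℕ → ℕ → ℕ → ℕ → ℕ → ℕ → ℕ → ℕ → ℕ → ℕ → ℕ → ℕ → ℕ → ℕ → ℕ → ℕ)
    {x : Fin 6 → Fin n} {I : Finset (Fin 6)}
    (h : ∀ i j l : Fin 6, i < j → j < l → tri H (x i) (x j) (x l) = mb I i j l) :
    G6 g (tri H) (x 0) (x 1) (x 2) (x 3) (x 4) (x 5) =
      g (mb I 0 1 2) (mb I 0 1 3) (mb I 0 2 3) (mb I 1 2 3) (mb I 0 1 4) (mb I 0 2 4) (mb I 1 2 4) (mb I 0 3 4) (mb I 1 3 4) (mb I 2 3 4) (mb I 0 1 5) (mb I 0 2 5) (mb I 1 2 5) (mb I 0 3 5) (mb I 1 3 5) (mb I 2 3 5) (mb I 0 4 5) (mb I 1 4 5) (mb I 2 4 5) (mb I 3 4 5) := by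
  unfold G6
  rw [h 0 1 2 (by decide) (by decide), h 0 1 3 (by decide) (by decide), h 0 2 3 (by decide) (by decide), h 1 2 3 (by decide) (by decide), h 0 1 4 (by decide) (by decide), h 0 2 4 (by decide) (by decide), h 1 2 4 (by decide) (by decide), h 0 3 4 (by decide) (by decide), h 1 3 4 (by decide) (by decide), h 2 3 4 (by decide) (by decide), h 0 1 5 (by decide) (by decide), h 0 2 5 (by decide) (by decide), h 1 2 5 (by decide) (by decide), h 0 3 5 (by decide) (by decide), h 1 3 5 (by decide) (by decide), h 2 3 5 (by decide) (by decide), h 0 4 5 (by decide) (by decide), h 1 4 5 (by decide) (by decide), h 2 4 5 (by decide) (by decide), h 3 4 5 (by decide) (by decide)]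

theorem G5_bits (g : ℕ → ℕ → ℕ → ℕ → ℕ → ℕ → ℕ → ℕ → ℕ → ℕ → ℕ)
    {x : Fin 5 → Fin n} {I : Finset (Fin 5)}
    (h : ∀ i j l : Fin 5, i < j → j < l → tri H (x i) (x j) (x l) = mb I i j l) :
    G5 g (tri H) (x 0) (x 1) (x 2) (x 3) (x 4) =
      g (mb I 0 1 2) (mb I 0 1 3) (mb I 0 2 3) (mb I 1 2 3) (mb I 0 1 4) (mb I 0 2 4) (mb I 1 2 4) (mb I 0 3 4) (mb I 1 3 4) (mb I 2 3 4) := by
  unfold G5
  rw [h 0 1 2 (by decide) (by decide), h 0 1 3 (by decide) (by decide), h 0 2 3 (by decide) (by decide), h 1 2 3 (by decide) (by decide), h 0 1 4 (by decide) (by decide), h 0 2 4 (by decide) (by decide), h 1 2 4 (by decide) (by decide), h 0 3 4 (by decide) (by decide), h 1 3 4 (by decide) (by decide), h 2 3 4 (by decide) (by decide)]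

theorem bits_st : ∀ I : Finset (Fin 5), I.card = 1 →
    1 ≤ gst (mb I 0 1 2) (mb I 0 1 3) (mb I 0 2 3) (mb I 1 2 3) (mb I 0 1 4) (mb I 0 2 4) (mb I 1 2 4) (mb I 0 3 4) (mb I 1 3 4) (mb I 2 3 4) := by
  decide +kernel

theorem bits_st6 : ∀ I : Finset (Fin 6), I.card = 1 →
    1 ≤ gst6 (mb I 0 1 2) (mb I 0 1 3) (mb I 0 2 3) (mb I 1 2 3) (mb I 0 1 4) (mb I 0 2 4) (mb I 1 2 4) (mb I 0 3 4) (mb I 1 3 4) (mb I 2 3 4) (mb I 0 1 5) (mb I 0 2 5) (mb I 1 2 5) (mb I 0 3 5) (mb I 1 3 5) (mb I 2 3 5) (mb I 0 4 5) (mb I 1 4 5) (mb I 2 4 5) (mb I 3 4 5) := by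
  decide +kernel

theorem bits_24 : ∀ I : Finset (Fin 6), I.card = 2 →
    1 ≤ g24 (mb I 0 1 2) (mb I 0 1 3) (mb I 0 2 3) (mb I 1 2 3) (mb I 0 1 4) (mb I 0 2 4) (mb I 1 2 4) (mb I 0 3 4) (mb I 1 3 4) (mb I 2 3 4) (mb I 0 1 5) (mb I 0 2 5) (mb I 1 2 5) (mb I 0 3 5) (mb I 1 3 5) (mb I 2 3 5) (mb I 0 4 5) (mb I 1 4 5) (mb I 2 4 5) (mb I 3 4 5) := by
  decide +kernel

theorem bits_33 : ∀ I : Finset (Fin 6), I.card = 3 →
    1 ≤ gm 18 (mb I 0 1 2) (mb I 0 1 3) (mb I 0 2 3) (mb I 1 2 3) (mb I 0 1 4) (mb I 0 2 4) (mb I 1 2 4) (mb I 0 3 4) (mb I 1 3 4) (mb I 2 3 4) (mb I 0 1 5) (mb I 0 2 5) (mb I 1 2 5) (mb I 0 3 5) (mb I 1 3 5) (mb I 2 3 5) (mb I 0 4 5) (mb I 1 4 5) (mb I 2 4 5) (mb I 3 4 5) := by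
  decide +kernel

theorem bits_23 : ∀ I : Finset (Fin 5), I.card = 2 →
    1 ≤ g9 (mb I 0 1 2) (mb I 0 1 3) (mb I 0 2 3) (mb I 1 2 3) (mb I 0 1 4) (mb I 0 2 4) (mb I 1 2 4) (mb I 0 3 4) (mb I 1 3 4) (mb I 2 3 4) := by
  decide +kernel

theorem s9_0 : s50 g9 = true := by decide +kernel
theorem s9_1 : s51 g9 = true := by decide +kernel
theorem s9_2 : s52 g9 = true := by decide +kernel
theorem s9_3 : s53 g9 = true := by decide +kernel
theorem sst_0 : s50 gst = true := by decide +kernel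
theorem sst_1 : s51 gst = true := by decide +kernel
theorem sst_2 : s52 gst = true := by decide +kernel
theorem sst_3 : s53 gst = true := by decide +kernel

theorem eqb_of {x y : ℕ} (h : x = y) : 1 ≤ eqb x y := by
  subst h
  unfold eqb
  have : Nat.beq x x = true := Nat.beq_refl x
  rw [this]
  exact le_refl 1

/-- sets of six vertices with `m` edges -/
theorem cnt_gm (hH : ∀ e ∈ H, e.card = 3) (m : ℕ) :
    720 * (((univ : Finset (Fin n)).powersetCard 6).filter fun S =>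
      (H.filter fun e => e ⊆ S).card = m).card ≤
      ∑ x : Fin 6 → Fin n, G6 (gm m) (tri H) (x 0) (x 1) (x 2) (x 3) (x 4) (x 5) := by
  refine le_sum (k := 6) _ _ fun x hx h => ?_
  rw [gm_eq]
  refine eqb_of ?_
  rw [← span6 hH hx]
  exact h

/-- sets of five vertices with nine edges -/
theorem cnt_g9 (hH : ∀ e ∈ H, e.card = 3) :
    120 * (((univ : Finset (Fin n)).powersetCard 5).filter fun S =>
      (H.filter fun e => e ⊆ S).card = 9).card ≤
      ∑ x : Fin 5 → Fin n, G5 g9 (tri H) (x 0) (x 1) (x 2) (x 3) (x 4) := by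
  refine le_sum (k := 5) _ _ fun x hx h => ?_
  have e : G5 g9 (tri H) (x 0) (x 1) (x 2) (x 3) (x 4) =
      eqb (G5 t10 (tri H) (x 0) (x 1) (x 2) (x 3) (x 4)) 9 := by
    unfold G5 g9
    rfl
  rw [e]
  refine eqb_of ?_
  rw [← span5 hH hx]
  exact h

theorem cnt_st :
    120 * (((univ : Finset (Fin n)).powersetCard 5).filter (Split 1 H)).card ≤
      ∑ x : Fin 5 → Fin n, G5 gst (tri H) (x 0) (x 1) (x 2) (x 3) (x 4) := by
  refine le_sum (k := 5) _ _ fun x hx h => ?_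
  obtain ⟨I, hI, hb⟩ := split_bits hx h
  rw [G5_bits gst hb]
  exact bits_st I hI

theorem cnt_st6 :
    720 * (((univ : Finset (Fin n)).powersetCard 6).filter (Split 1 H)).card ≤
      ∑ x : Fin 6 → Fin n, G6 gst6 (tri H) (x 0) (x 1) (x 2) (x 3) (x 4) (x 5) := by
  refine le_sum (k := 6) _ _ fun x hx h => ?_
  obtain ⟨I, hI, hb⟩ := split_bits hx h
  rw [G6_bits gst6 hb]
  exact bits_st6 I hI

theorem cnt_24 :
    720 * (((univ : Finset (Fin n)).powersetCard 6).filter (Split 2 H)).card ≤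
      ∑ x : Fin 6 → Fin n, G6 g24 (tri H) (x 0) (x 1) (x 2) (x 3) (x 4) (x 5) := by
  refine le_sum (k := 6) _ _ fun x hx h => ?_
  obtain ⟨I, hI, hb⟩ := split_bits hx h
  rw [G6_bits g24 hb]
  exact bits_24 I hI

theorem T2_zero (E : Fin n → Fin n → Fin n → ℕ) (hE : Sy E) (t : ℕ → ℤ) (h : ∀ k, k ≤ 4 → t k = 0) :
    Pool.Agent.H122R2.N6.T2 E t = 0 := by
  rw [T2_congr hE t (fun _ => 0) h]
  unfold Pool.Agent.H122R2.N6.T2
  simp

theorem Sv_zero (E : Fin n → Fin n → Fin n → ℕ) (s : ℕ → ℤ) (h : ∀ c, s c = 0) : Sv E s = 0 := by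
  unfold Sv
  simp [h]

end Pool.Agent.R170.FA
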