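import Mathlib

/-! Three-part patterns of Turán's construction: from smaller to larger parts. -/

set_option autoImplicit false
open Finset
open scoped Classical

namespace Pool.Agent.R170.FA.P3

variable {n : ℕ} {H : Finset (Finset (Fin n))}

/-- the rule of Turán's construction for the parts `A`, `B`, `C` -/
def Ed (A B C t : Finset (Fin n)) : Prop :=
  ((t ∩ A).card = 1 ∧ (t ∩ B).card = 1 ∧ (t ∩ C).card = 1) ∨
    ((t ∩ A).card = 2 ∧ (t ∩ B).card = 1) ∨ ((t ∩ B).card = 2 ∧ (t ∩ C).card = 1) ∨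
    ((t ∩ C).card = 2 ∧ (t ∩ A).card = 1)

/-- the triples of `A ∪ B ∪ C` in `H` are those given by the rule -/
def Pat3 (H : Finset (Finset (Fin n))) (A B C : Finset (Fin n)) : Prop :=
  Disjoint A B ∧ Disjoint B C ∧ Disjoint C A ∧
    ∀ t ⊆ A ∪ B ∪ C, t.card = 3 → (t ∈ H ↔ Ed A B C t)

theorem Ed.rot {A B C t : Finset (Fin n)} : Ed A B C t ↔ Ed B C A t := by
  unfold Ed
  constructor
  · rintro (⟨h1, h2, h3⟩ | h | h | h)
    · exact Or.inl ⟨h2, h3, h1⟩
    · exact Or.inr (Or.inr (Or.inr h))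
    · exact Or.inr (Or.inl h)
    · exact Or.inr (Or.inr (Or.inl h))
  · rintro (⟨h1, h2, h3⟩ | h | h | h)
    · exact Or.inl ⟨h3, h1, h2⟩
    · exact Or.inr (Or.inr (Or.inl h))
    · exact Or.inr (Or.inr (Or.inr h))
    · exact Or.inr (Or.inl h)

theorem Pat3.rot {A B C : Finset (Fin n)} (h : Pat3 H A B C) : Pat3 H B C A := by
  obtain ⟨h1, h2, h3, h4⟩ := h
  refine ⟨h2, h3, h1, fun t ht hc => ?_⟩
  rw [h4 t ?_ hc, Ed.rot]
  refine ht.trans ?_
  intro x hx
  simp only [mem_union] at hx ⊢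
  tauto

theorem inter_eq {A A' B' C' t S : Finset (Fin n)} (hA : A ⊆ A') (h1 : Disjoint A' B')
    (h2 : Disjoint A' C') (hS : ∀ x ∈ S, x ∈ A ∨ x ∈ B' ∨ x ∈ C') (ht : t ⊆ S) :
    t ∩ A' = t ∩ A := by
  ext x
  rw [mem_inter, mem_inter]
  constructor
  · rintro ⟨hx, hxA⟩
    refine ⟨hx, ?_⟩
    rcases hS x (ht hx) with h | h | h
    · exact h
    · exact absurd h (disjoint_left.mp h1 hxA)
    · exact absurd h (disjoint_left.mp h2 hxA)
  · rintro ⟨hx, hxA⟩
    exact ⟨hx, hA hxA⟩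

theorem Pat3.mono {A B C A' B' C' : Finset (Fin n)} (h : Pat3 H A' B' C') (hA : A ⊆ A')
    (hB : B ⊆ B') (hC : C ⊆ C') : Pat3 H A B C := by
  obtain ⟨h1, h2, h3, h4⟩ := h
  refine ⟨disjoint_of_subset_left hA (disjoint_of_subset_right hB h1),
    disjoint_of_subset_left hB (disjoint_of_subset_right hC h2),
    disjoint_of_subset_left hC (disjoint_of_subset_right hA h3), fun t ht hc => ?_⟩
  rw [h4 t (ht.trans (union_subset_union (union_subset_union hA hB) hC)) hc]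
  have e1 : t ∩ A' = t ∩ A := by
    refine inter_eq (S := A ∪ B ∪ C) hA h1 h3.symm (fun x hx => ?_) ht
    rcases mem_union.mp hx with h | h
    · rcases mem_union.mp h with h | h
      · exact Or.inl h
      · exact Or.inr (Or.inl (hB h))
    · exact Or.inr (Or.inr (hC h))
  have e2 : t ∩ B' = t ∩ B := by
    refine inter_eq (S := A ∪ B ∪ C) hB h1.symm h2 (fun x hx => ?_) ht
    rcases mem_union.mp hx with h | h
    · rcases mem_union.mp h with h | h
      · exact Or.inr (Or.inl (hA h))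
      · exact Or.inl h
    · exact Or.inr (Or.inr (hC h))
  have e3 : t ∩ C' = t ∩ C := by
    refine inter_eq (S := A ∪ B ∪ C) hC h3 h2.symm (fun x hx => ?_) ht
    rcases mem_union.mp hx with h | h
    · rcases mem_union.mp h with h | h
      · exact Or.inr (Or.inl (hA h))
      · exact Or.inr (Or.inr (hB h))
    · exact Or.inl h
  unfold Ed
  rw [e1, e2, e3]

/-- the patterns with parts of sizes `a`, `b`, `c` -/
noncomputable def prs3 (a b c : ℕ) (H : Finset (Finset (Fin n))) :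
    Finset (Finset (Fin n) × Finset (Fin n) × Finset (Fin n)) :=
  univ.filter fun p => p.1.card = a ∧ p.2.1.card = b ∧ p.2.2.card = c ∧ Pat3 H p.1 p.2.1 p.2.2

theorem mem_prs3 {a b c : ℕ} {p : Finset (Fin n) × Finset (Fin n) × Finset (Fin n)} :
    p ∈ prs3 a b c H ↔
      p.1.card = a ∧ p.2.1.card = b ∧ p.2.2.card = c ∧ Pat3 H p.1 p.2.1 p.2.2 := by
  unfold prs3
  rw [mem_filter]
  exact ⟨fun h => h.2, fun h => ⟨mem_univ _, h⟩⟩

/-- the vertices which can join the first part -/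
noncomputable def nx (H : Finset (Finset (Fin n))) (A B C : Finset (Fin n)) : Finset (Fin n) :=
  univ.filter fun v => v ∉ A ∧ v ∉ B ∧ v ∉ C ∧ Pat3 H (insert v A) B C

theorem mem_nx {A B C : Finset (Fin n)} {v : Fin n} :
    v ∈ nx H A B C ↔ v ∉ A ∧ v ∉ B ∧ v ∉ C ∧ Pat3 H (insert v A) B C := by
  unfold nx
  rw [mem_filter]
  exact ⟨fun h => h.2, fun h => ⟨mem_univ _, h⟩⟩

theorem crd {x y z : Fin n} (hxy : x ≠ y) (hxz : x ≠ z) (hyz : y ≠ z) (A : Finset (Fin n)) :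
    (({x, y, z} : Finset (Fin n)) ∩ A).card =
      (if x ∈ A then 1 else 0) + ((if y ∈ A then 1 else 0) + (if z ∈ A then 1 else 0)) := by
  rw [← filter_mem_eq_inter, card_filter, sum_insert (by simp [hxy, hxz]), sum_insert (by simp [hyz]),
    sum_singleton]

theorem nx_disj {A B C : Finset (Fin n)} (hA : A.Nonempty) (hC : C.Nonempty) :
    Disjoint (nx H A B C) (nx H B C A) := by
  rw [disjoint_left]
  intro v hv hv'
  obtain ⟨hvA, hvB, hvC, hP⟩ := mem_nx.mp hv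
  obtain ⟨-, -, -, hQ⟩ := mem_nx.mp hv'
  obtain ⟨a, ha⟩ := hA
  obtain ⟨c, hc⟩ := hC
  obtain ⟨p1, p2, p3, p4⟩ := hP
  obtain ⟨q1, q2, q3, q4⟩ := hQ
  have haC : a ∉ C := disjoint_right.mp q2 ha
  have hcA : c ∉ A := disjoint_left.mp q2 hc
  have hva : v ≠ a := fun h => hvA (h ▸ ha)
  have hvc : v ≠ c := fun h => hvC (h ▸ hc)
  have hac : a ≠ c := fun h => haC (h ▸ hc)
  have haB : a ∉ B := fun h => disjoint_left.mp p1 (mem_insert_of_mem ha) h
  have hcB : c ∉ B := fun h => disjoint_left.mp p2 h hc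
  have h3 : ({v, a, c} : Finset (Fin n)).card = 3 := card_eq_three.mpr ⟨v, a, c, hva, hvc, hac, rfl⟩
  have e1 : ({v, a, c} : Finset (Fin n)) ∈ H := by
    rw [q4 _ ?_ h3]
    · left
      rw [crd hva hvc hac, crd hva hvc hac, crd hva hvc hac]
      simp [hva.symm, hvc.symm, haB, hcB, hvC, haC, hc, hvA, ha, hcA]
    · intro x hx
      simp only [mem_insert, mem_singleton] at hx
      simp only [mem_union, mem_insert]
      rcases hx with rfl | rfl | rfl
      · exact Or.inl (Or.inl (Or.inl rfl))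
      · exact Or.inr ha
      · exact Or.inl (Or.inr hc)
  rw [p4 _ ?_ h3] at e1
  · unfold Ed at e1
    rw [crd hva hvc hac, crd hva hvc hac, crd hva hvc hac] at e1
    simp [hva.symm, hvc.symm, haB, hcB, hvC, haC, hc, hvA, ha, hcA, hvB] at e1
  · intro x hx
    simp only [mem_insert, mem_singleton] at hx
    simp only [mem_union, mem_insert]
    rcases hx with rfl | rfl | rfl
    · exact Or.inl (Or.inl (Or.inl rfl))
    · exact Or.inl (Or.inl (Or.inr ha))
    · exact Or.inr hc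

theorem nx_sum {A B C : Finset (Fin n)} (hA : A.Nonempty) (hB : B.Nonempty) (hC : C.Nonempty) :
    (nx H A B C).card + (nx H B C A).card + (nx H C A B).card ≤ n := by
  have d1 := nx_disj (H := H) (B := B) hA hC
  have d2 := nx_disj (H := H) (B := C) hB hA
  have d3 := nx_disj (H := H) (B := A) hC hB
  have h1 := card_union_of_disjoint d1
  have h2 : Disjoint (nx H A B C ∪ nx H B C A) (nx H C A B) :=
    disjoint_union_left.mpr ⟨d3.symm, d2⟩
  rw [← h1, ← card_union_of_disjoint h2]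
  exact (card_le_univ _).trans (by rw [Fintype.card_fin])

theorem amgm3 {x y z n : ℕ} (h : x + y + z ≤ n) : 27 * (x * (y * z)) ≤ n ^ 3 := by
  have h1 : 27 * (x * (y * z)) ≤ (x + y + z) ^ 3 := by
    zify
    nlinarith [mul_nonneg (Nat.cast_nonneg (α := ℤ) x) (sq_nonneg ((y : ℤ) - z)),
      mul_nonneg (Nat.cast_nonneg (α := ℤ) y) (sq_nonneg ((z : ℤ) - x)),
      mul_nonneg (Nat.cast_nonneg (α := ℤ) z) (sq_nonneg ((x : ℤ) - y)),
      mul_nonneg (Nat.cast_nonneg (α := ℤ) x) (sq_nonneg ((x : ℤ) - y)),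
      mul_nonneg (Nat.cast_nonneg (α := ℤ) x) (sq_nonneg ((x : ℤ) - z)),
      mul_nonneg (Nat.cast_nonneg (α := ℤ) y) (sq_nonneg ((y : ℤ) - x)),
      mul_nonneg (Nat.cast_nonneg (α := ℤ) y) (sq_nonneg ((y : ℤ) - z)),
      mul_nonneg (Nat.cast_nonneg (α := ℤ) z) (sq_nonneg ((z : ℤ) - x)),
      mul_nonneg (Nat.cast_nonneg (α := ℤ) z) (sq_nonneg ((z : ℤ) - y))]
  exact h1.trans (Nat.pow_le_pow_left h 3)

theorem amgm2 {x y z n : ℕ} (h : x + y + z ≤ n) : 3 * (x * y + y * z + z * x) ≤ n ^ 2 := by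
  have h1 : 3 * (x * y + y * z + z * x) ≤ (x + y + z) ^ 2 := by
    zify
    nlinarith [sq_nonneg ((x : ℤ) - y), sq_nonneg ((y : ℤ) - z), sq_nonneg ((z : ℤ) - x)]
  exact h1.trans (Nat.pow_le_pow_left h 2)

/-- one vertex in each part -/
theorem cnt3 (a b c : ℕ) :
    (a + 1) * ((b + 1) * (c + 1)) * (prs3 (a + 1) (b + 1) (c + 1) H).card ≤
      ∑ p ∈ prs3 a b c H, (nx H p.1 p.2.1 p.2.2).card *
        ((nx H p.2.1 p.2.2 p.1).card * (nx H p.2.2 p.1 p.2.1).card) := by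
  set D := (prs3 (a + 1) (b + 1) (c + 1) H).sigma (fun p => p.1 ×ˢ (p.2.1 ×ˢ p.2.2)) with hD
  set E := (prs3 a b c H).sigma (fun p => nx H p.1 p.2.1 p.2.2 ×ˢ
    (nx H p.2.1 p.2.2 p.1 ×ˢ nx H p.2.2 p.1 p.2.1)) with hE
  have hDc : D.card = (a + 1) * ((b + 1) * (c + 1)) * (prs3 (a + 1) (b + 1) (c + 1) H).card := by
    rw [hD, card_sigma, mul_comm, ← smul_eq_mul, ← sum_const]
    refine sum_congr rfl fun p hp => ?_
    obtain ⟨h1, h2, h3, -⟩ := mem_prs3.mp hp
    rw [card_product, card_product, h1, h2, h3]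
  have hEc : E.card = ∑ p ∈ prs3 a b c H, (nx H p.1 p.2.1 p.2.2).card *
        ((nx H p.2.1 p.2.2 p.1).card * (nx H p.2.2 p.1 p.2.1).card) := by
    rw [hE, card_sigma]
    exact sum_congr rfl fun p _ => by rw [card_product, card_product]
  rw [← hDc, ← hEc]
  refine card_le_card_of_injOn
    (fun q => ⟨(q.1.1.erase q.2.1, q.1.2.1.erase q.2.2.1, q.1.2.2.erase q.2.2.2), q.2⟩) ?_ ?_
  · rintro ⟨⟨A, B, C⟩, v, w, u⟩ hq
    rw [mem_coe, hD, mem_sigma, mem_product, mem_product] at hq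
    obtain ⟨hp, hv, hw, hu⟩ := hq
    obtain ⟨h1, h2, h3, hP⟩ := mem_prs3.mp hp
    dsimp only at hp hv hw hu h1 h2 h3 hP
    rw [mem_coe, hE, mem_sigma, mem_product, mem_product]
    have hvB : v ∉ B := disjoint_left.mp hP.1 hv
    have hvC : v ∉ C := disjoint_right.mp hP.2.2.1 hv
    have hwA : w ∉ A := disjoint_right.mp hP.1 hw
    have hwC : w ∉ C := disjoint_left.mp hP.2.1 hw
    have huB : u ∉ B := disjoint_right.mp hP.2.1 hu
    have huA : u ∉ A := disjoint_left.mp hP.2.2.1 hu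
    refine ⟨?_, ?_, ?_, ?_⟩
    · rw [mem_prs3]
      refine ⟨?_, ?_, ?_, hP.mono (erase_subset _ _) (erase_subset _ _) (erase_subset _ _)⟩
      · show (A.erase v).card = a
        rw [card_erase_of_mem hv, h1]; rfl
      · show (B.erase w).card = b
        rw [card_erase_of_mem hw, h2]; rfl
      · show (C.erase u).card = c
        rw [card_erase_of_mem hu, h3]; rfl
    · show v ∈ nx H (A.erase v) (B.erase w) (C.erase u)
      rw [mem_nx]
      refine ⟨notMem_erase _ _, fun h => hvB (mem_of_mem_erase h), fun h => hvC (mem_of_mem_erase h), ?_⟩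
      rw [insert_erase hv]
      exact hP.mono (Subset.refl _) (erase_subset _ _) (erase_subset _ _)
    · show w ∈ nx H (B.erase w) (C.erase u) (A.erase v)
      rw [mem_nx]
      refine ⟨notMem_erase _ _, fun h => hwC (mem_of_mem_erase h), fun h => hwA (mem_of_mem_erase h), ?_⟩
      rw [insert_erase hw]
      exact hP.rot.mono (Subset.refl _) (erase_subset _ _) (erase_subset _ _)
    · show u ∈ nx H (C.erase u) (A.erase v) (B.erase w)
      rw [mem_nx]
      refine ⟨notMem_erase _ _, fun h => huA (mem_of_mem_erase h), fun h => huB (mem_of_mem_erase h), ?_⟩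
      rw [insert_erase hu]
      exact hP.rot.rot.mono (Subset.refl _) (erase_subset _ _) (erase_subset _ _)
  · rintro ⟨⟨A, B, C⟩, v, w, u⟩ hq ⟨⟨A', B', C'⟩, v', w', u'⟩ hq' h
    rw [mem_coe, hD, mem_sigma, mem_product, mem_product] at hq hq'
    obtain ⟨-, hv, hw, hu⟩ := hq
    obtain ⟨-, hv', hw', hu'⟩ := hq'
    dsimp only at hv hw hu hv' hw' hu' h
    rw [Sigma.mk.injEq] at h
    obtain ⟨h1, h2⟩ := h
    have h3 := eq_of_heq h2
    rw [Prod.mk.injEq, Prod.mk.injEq] at h1 h3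
    obtain ⟨rfl, rfl, rfl⟩ := h3
    have e1 : A = A' := by rw [← insert_erase hv, h1.1, insert_erase hv']
    have e2 : B = B' := by rw [← insert_erase hw, h1.2.1, insert_erase hw']
    have e3 : C = C' := by rw [← insert_erase hu, h1.2.2, insert_erase hu']
    subst e1
    subst e2
    subst e3
    rfl

/-- one vertex in the first part -/
theorem cnt1 (a b c : ℕ) :
    (a + 1) * (prs3 (a + 1) b c H).card ≤ ∑ p ∈ prs3 a b c H, (nx H p.1 p.2.1 p.2.2).card := by
  set D := (prs3 (a + 1) b c H).sigma (fun p => p.1) with hD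
  set E := (prs3 a b c H).sigma (fun p => nx H p.1 p.2.1 p.2.2) with hE
  have hDc : D.card = (a + 1) * (prs3 (a + 1) b c H).card := by
    rw [hD, card_sigma, mul_comm, ← smul_eq_mul, ← sum_const]
    refine sum_congr rfl fun p hp => ?_
    obtain ⟨h1, -⟩ := mem_prs3.mp hp
    exact h1
  have hEc : E.card = ∑ p ∈ prs3 a b c H, (nx H p.1 p.2.1 p.2.2).card := by
    rw [hE, card_sigma]
  rw [← hDc, ← hEc]
  refine card_le_card_of_injOn (fun q => ⟨(q.1.1.erase q.2, q.1.2.1, q.1.2.2), q.2⟩) ?_ ?_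
  · rintro ⟨⟨A, B, C⟩, v⟩ hq
    rw [mem_coe, hD, mem_sigma] at hq
    obtain ⟨hp, hv⟩ := hq
    obtain ⟨h1, h2, h3, hP⟩ := mem_prs3.mp hp
    dsimp only at hp hv h1 h2 h3 hP
    rw [mem_coe, hE, mem_sigma]
    have hvB : v ∉ B := disjoint_left.mp hP.1 hv
    have hvC : v ∉ C := disjoint_right.mp hP.2.2.1 hv
    refine ⟨?_, ?_⟩
    · rw [mem_prs3]
      refine ⟨?_, h2, h3, hP.mono (erase_subset _ _) (Subset.refl _) (Subset.refl _)⟩
      show (A.erase v).card = a
      rw [card_erase_of_mem hv, h1]; rfl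
    · show v ∈ nx H (A.erase v) B C
      rw [mem_nx]
      refine ⟨notMem_erase _ _, hvB, hvC, ?_⟩
      rw [insert_erase hv]
      exact hP
  · rintro ⟨⟨A, B, C⟩, v⟩ hq ⟨⟨A', B', C'⟩, v'⟩ hq' h
    rw [mem_coe, hD, mem_sigma] at hq hq'
    obtain ⟨-, hv⟩ := hq
    obtain ⟨-, hv'⟩ := hq'
    dsimp only at hv hv' h
    rw [Sigma.mk.injEq] at h
    obtain ⟨h1, h2⟩ := h
    have h3 := eq_of_heq h2
    rw [Prod.mk.injEq, Prod.mk.injEq] at h1
    subst h3
    obtain ⟨k1, k2, k3⟩ := h1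
    have e1 : A = A' := by rw [← insert_erase hv, k1, insert_erase hv']
    subst e1
    subst k2
    subst k3
    rfl

/-- one vertex in each of the first two parts -/
theorem cnt2 (a b c : ℕ) :
    (a + 1) * (b + 1) * (prs3 (a + 1) (b + 1) c H).card ≤
      ∑ p ∈ prs3 a b c H, (nx H p.1 p.2.1 p.2.2).card * (nx H p.2.1 p.2.2 p.1).card := by
  set D := (prs3 (a + 1) (b + 1) c H).sigma (fun p => p.1 ×ˢ p.2.1) with hD
  set E := (prs3 a b c H).sigma (fun p => nx H p.1 p.2.1 p.2.2 ×ˢ nx H p.2.1 p.2.2 p.1) with hE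
  have hDc : D.card = (a + 1) * (b + 1) * (prs3 (a + 1) (b + 1) c H).card := by
    rw [hD, card_sigma, mul_comm, ← smul_eq_mul, ← sum_const]
    refine sum_congr rfl fun p hp => ?_
    obtain ⟨h1, h2, -⟩ := mem_prs3.mp hp
    rw [card_product, h1, h2]
  have hEc : E.card = ∑ p ∈ prs3 a b c H, (nx H p.1 p.2.1 p.2.2).card *
        (nx H p.2.1 p.2.2 p.1).card := by
    rw [hE, card_sigma]
    exact sum_congr rfl fun p _ => by rw [card_product]
  rw [← hDc, ← hEc]
  refine card_le_card_of_injOn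
    (fun q => ⟨(q.1.1.erase q.2.1, q.1.2.1.erase q.2.2, q.1.2.2), q.2⟩) ?_ ?_
  · rintro ⟨⟨A, B, C⟩, v, w⟩ hq
    rw [mem_coe, hD, mem_sigma, mem_product] at hq
    obtain ⟨hp, hv, hw⟩ := hq
    obtain ⟨h1, h2, h3, hP⟩ := mem_prs3.mp hp
    dsimp only at hp hv hw h1 h2 h3 hP
    rw [mem_coe, hE, mem_sigma, mem_product]
    have hvB : v ∉ B := disjoint_left.mp hP.1 hv
    have hvC : v ∉ C := disjoint_right.mp hP.2.2.1 hv
    have hwA : w ∉ A := disjoint_right.mp hP.1 hw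
    have hwC : w ∉ C := disjoint_left.mp hP.2.1 hw
    refine ⟨?_, ?_, ?_⟩
    · rw [mem_prs3]
      refine ⟨?_, ?_, h3, hP.mono (erase_subset _ _) (erase_subset _ _) (Subset.refl _)⟩
      · show (A.erase v).card = a
        rw [card_erase_of_mem hv, h1]; rfl
      · show (B.erase w).card = b
        rw [card_erase_of_mem hw, h2]; rfl
    · show v ∈ nx H (A.erase v) (B.erase w) C
      rw [mem_nx]
      refine ⟨notMem_erase _ _, fun h => hvB (mem_of_mem_erase h), hvC, ?_⟩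
      rw [insert_erase hv]
      exact hP.mono (Subset.refl _) (erase_subset _ _) (Subset.refl _)
    · show w ∈ nx H (B.erase w) C (A.erase v)
      rw [mem_nx]
      refine ⟨notMem_erase _ _, hwC, fun h => hwA (mem_of_mem_erase h), ?_⟩
      rw [insert_erase hw]
      exact hP.rot.mono (Subset.refl _) (Subset.refl _) (erase_subset _ _)
  · rintro ⟨⟨A, B, C⟩, v, w⟩ hq ⟨⟨A', B', C'⟩, v', w'⟩ hq' h
    rw [mem_coe, hD, mem_sigma, mem_product] at hq hq'
    obtain ⟨-, hv, hw⟩ := hq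
    obtain ⟨-, hv', hw'⟩ := hq'
    dsimp only at hv hw hv' hw' h
    rw [Sigma.mk.injEq] at h
    obtain ⟨h1, h2⟩ := h
    have h3 := eq_of_heq h2
    rw [Prod.mk.injEq] at h3
    rw [Prod.mk.injEq, Prod.mk.injEq] at h1
    obtain ⟨rfl, rfl⟩ := h3
    obtain ⟨k1, k2, k3⟩ := h1
    have e1 : A = A' := by rw [← insert_erase hv, k1, insert_erase hv']
    have e2 : B = B' := by rw [← insert_erase hw, k2, insert_erase hw']
    subst e1
    subst e2
    subst k3
    rfl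

theorem nonempty_of_card {A : Finset (Fin n)} {a : ℕ} (h : A.card = a) (ha : 1 ≤ a) : A.Nonempty :=
  card_pos.mp (by omega)

theorem rec3 (a b c : ℕ) (ha : 1 ≤ a) (hb : 1 ≤ b) (hc : 1 ≤ c) :
    27 * ((a + 1) * ((b + 1) * (c + 1)) * (prs3 (a + 1) (b + 1) (c + 1) H).card) ≤
      (prs3 a b c H).card * n ^ 3 := by
  refine (Nat.mul_le_mul_left _ (cnt3 a b c)).trans ?_
  rw [mul_sum, ← smul_eq_mul (prs3 a b c H).card, ← sum_const]
  refine sum_le_sum fun p hp => ?_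
  obtain ⟨h1, h2, h3, -⟩ := mem_prs3.mp hp
  exact amgm3 (nx_sum (nonempty_of_card h1 ha) (nonempty_of_card h2 hb) (nonempty_of_card h3 hc))

/-- summation over patterns with equal parts is invariant under rotation -/
theorem sum_rot (m : ℕ) (f : Finset (Fin n) × Finset (Fin n) × Finset (Fin n) → ℕ) :
    ∑ p ∈ prs3 m m m H, f (p.2.1, p.2.2, p.1) = ∑ p ∈ prs3 m m m H, f p := by
  refine sum_nbij' (fun p => (p.2.1, p.2.2, p.1)) (fun p => (p.2.2, p.1, p.2.1)) ?_ ?_ ?_ ?_ ?_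
  · intro p hp
    obtain ⟨h1, h2, h3, h4⟩ := mem_prs3.mp hp
    exact mem_prs3.mpr ⟨h2, h3, h1, h4.rot⟩
  · intro p hp
    obtain ⟨h1, h2, h3, h4⟩ := mem_prs3.mp hp
    exact mem_prs3.mpr ⟨h3, h1, h2, h4.rot.rot⟩
  · intro p _
    rfl
  · intro p _
    rfl
  · intro p _
    rfl

theorem rec1 (m : ℕ) (hm : 1 ≤ m) :
    3 * ((m + 1) * (prs3 (m + 1) m m H).card) ≤ (prs3 m m m H).card * n := by
  refine (Nat.mul_le_mul_left _ (cnt1 m m m)).trans ?_
  have e1 := sum_rot (H := H) m (fun p => (nx H p.1 p.2.1 p.2.2).card)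
  have e2 := sum_rot (H := H) m (fun p => (nx H p.2.1 p.2.2 p.1).card)
  simp only at e1 e2
  have e : 3 * ∑ p ∈ prs3 m m m H, (nx H p.1 p.2.1 p.2.2).card = ∑ p ∈ prs3 m m m H,
      ((nx H p.1 p.2.1 p.2.2).card + (nx H p.2.1 p.2.2 p.1).card + (nx H p.2.2 p.1 p.2.1).card) := by
    rw [sum_add_distrib, sum_add_distrib, e2, e1]
    ring
  rw [e, ← smul_eq_mul (prs3 m m m H).card, ← sum_const]
  refine sum_le_sum fun p hp => ?_
  obtain ⟨h1, h2, h3, -⟩ := mem_prs3.mp hp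
  exact nx_sum (nonempty_of_card h1 hm) (nonempty_of_card h2 hm) (nonempty_of_card h3 hm)

theorem rec2 (m : ℕ) (hm : 1 ≤ m) :
    9 * ((m + 1) * (m + 1) * (prs3 (m + 1) (m + 1) m H).card) ≤ (prs3 m m m H).card * n ^ 2 := by
  refine (Nat.mul_le_mul_left _ (cnt2 m m m)).trans ?_
  have e1 := sum_rot (H := H) m (fun p => (nx H p.1 p.2.1 p.2.2).card * (nx H p.2.1 p.2.2 p.1).card)
  have e2 := sum_rot (H := H) m (fun p => (nx H p.2.1 p.2.2 p.1).card * (nx H p.2.2 p.1 p.2.1).card)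
  simp only at e1 e2
  have e : 9 * ∑ p ∈ prs3 m m m H, (nx H p.1 p.2.1 p.2.2).card * (nx H p.2.1 p.2.2 p.1).card =
      ∑ p ∈ prs3 m m m H, 3 * ((nx H p.1 p.2.1 p.2.2).card * (nx H p.2.1 p.2.2 p.1).card +
        (nx H p.2.1 p.2.2 p.1).card * (nx H p.2.2 p.1 p.2.1).card +
        (nx H p.2.2 p.1 p.2.1).card * (nx H p.1 p.2.1 p.2.2).card) := by
    rw [← mul_sum, sum_add_distrib, sum_add_distrib, e2, e1]
    ring
  rw [e, ← smul_eq_mul (prs3 m m m H).card, ← sum_const]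
  refine sum_le_sum fun p hp => ?_
  obtain ⟨h1, h2, h3, -⟩ := mem_prs3.mp hp
  exact amgm2 (nx_sum (nonempty_of_card h1 hm) (nonempty_of_card h2 hm) (nonempty_of_card h3 hm))

end Pool.Agent.R170.FA.P3
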