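import Pool.Agent.R170.FA.Pat3
import Pool.Agent.TH983.FC.Orb

/-! The patterns with parts of sizes 3, 2, 1 and 2, 2, 2, and the patterns in Turán's construction. -/

set_option autoImplicit false
set_option maxRecDepth 100000
open Finset
open scoped Classical

namespace Pool.Agent.R170.FA.P3
open Pool.Agent.H122R2.N6 Pool.Agent.H37R3.Pen Pool.Agent.H37R3.Cop Pool.Agent.H37R3.CopL Pool.Agent.TH983.FC

variable {n : ℕ} {H : Finset (Finset (Fin n))}

/-- the rule of Turán's construction for the parts of three vertices -/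
def R3 (i j k : Fin 3) : Bool :=
  (i != j && j != k && i != k) || (i == j && k == i + 1) || (i == k && j == i + 1) ||
    (j == k && i == j + 1)

/-- the part of a vertex -/
noncomputable def pt (A B : Finset (Fin n)) (v : Fin n) : Fin 3 :=
  if v ∈ A then 0 else if v ∈ B then 1 else 2

theorem three_cases {A B C : Finset (Fin n)} (h1 : Disjoint A B) (h2 : Disjoint B C)
    (h3 : Disjoint C A) {x : Fin n} (hx : x ∈ A ∪ B ∪ C) :
    (x ∈ A ∧ x ∉ B ∧ x ∉ C) ∨ (x ∉ A ∧ x ∈ B ∧ x ∉ C) ∨ (x ∉ A ∧ x ∉ B ∧ x ∈ C) := by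
  rcases mem_union.mp hx with h | h
  · rcases mem_union.mp h with h | h
    · exact Or.inl ⟨h, disjoint_left.mp h1 h, disjoint_right.mp h3 h⟩
    · exact Or.inr (Or.inl ⟨disjoint_right.mp h1 h, h, disjoint_left.mp h2 h⟩)
  · exact Or.inr (Or.inr ⟨disjoint_left.mp h3 h, disjoint_right.mp h2 h, h⟩)

theorem ed_pt {A B C : Finset (Fin n)} (h1 : Disjoint A B) (h2 : Disjoint B C)
    (h3 : Disjoint C A) {x y z : Fin n} (hx : x ∈ A ∪ B ∪ C) (hy : y ∈ A ∪ B ∪ C)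
    (hz : z ∈ A ∪ B ∪ C) (hxy : x ≠ y) (hxz : x ≠ z) (hyz : y ≠ z) :
    Ed A B C {x, y, z} ↔ R3 (pt A B x) (pt A B y) (pt A B z) = true := by
  unfold Ed pt
  rw [crd hxy hxz hyz, crd hxy hxz hyz, crd hxy hxz hyz]
  rcases three_cases h1 h2 h3 hx with ⟨a1, a2, a3⟩ | ⟨a1, a2, a3⟩ | ⟨a1, a2, a3⟩ <;>
  rcases three_cases h1 h2 h3 hy with ⟨b1, b2, b3⟩ | ⟨b1, b2, b3⟩ | ⟨b1, b2, b3⟩ <;>
  rcases three_cases h1 h2 h3 hz with ⟨c1, c2, c3⟩ | ⟨c1, c2, c3⟩ | ⟨c1, c2, c3⟩ <;>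
  simp only [a1, a2, a3, b1, b2, b3, c1, c2, c3, if_true, if_false] <;> decide

theorem mem_pt {A B C : Finset (Fin n)} (h : Pat3 H A B C) {x : Fin n} (hx : x ∈ A ∪ B ∪ C) :
    (x ∈ A ↔ pt A B x = 0) ∧ (x ∈ B ↔ pt A B x = 1) ∧ (x ∈ C ↔ pt A B x = 2) := by
  unfold pt
  rcases three_cases h.1 h.2.1 h.2.2.1 hx with ⟨a1, a2, a3⟩ | ⟨a1, a2, a3⟩ | ⟨a1, a2, a3⟩ <;>
  simp [a1, a2, a3]

theorem Pat3.tri {A B C : Finset (Fin n)} (h : Pat3 H A B C) {x y z : Fin n}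
    (hx : x ∈ A ∪ B ∪ C) (hy : y ∈ A ∪ B ∪ C) (hz : z ∈ A ∪ B ∪ C) (hxy : x ≠ y) (hxz : x ≠ z)
    (hyz : y ≠ z) : {x, y, z} ∈ H ↔ R3 (pt A B x) (pt A B y) (pt A B z) = true := by
  rw [h.2.2.2 _ _ (card_eq_three.mpr ⟨x, y, z, hxy, hxz, hyz, rfl⟩)]
  · exact ed_pt h.1 h.2.1 h.2.2.1 hx hy hz hxy hxz hyz
  · intro v hv
    simp only [mem_insert, mem_singleton] at hv
    rcases hv with rfl | rfl | rfl
    exacts [hx, hy, hz]

/-- a division of six vertices whose 3-graph determines it up to rotation -/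
def Uq (g : Fin 6 → Fin 3) : Prop :=
  ∀ g' : Fin 6 → Fin 3,
    (∀ i j k : Fin 6, i < j → j < k → R3 (g' i) (g' j) (g' k) = R3 (g i) (g j) (g k)) →
    (∀ i, g' i = g i) ∨ (∀ i, g' i = g i + 1) ∨ (∀ i, g' i = g i + 2)

theorem part_eq {A A' S : Finset (Fin n)} (hA : A ⊆ S) (hA' : A' ⊆ S)
    (h : ∀ v ∈ S, (v ∈ A' ↔ v ∈ A)) : A' = A := by
  ext v
  exact ⟨fun hv => (h v (hA' hv)).mp hv, fun hv => (h v (hA hv)).mpr hv⟩

theorem same_div {A B C A' B' C' : Finset (Fin n)} (h : Pat3 H A B C) (h' : Pat3 H A' B' C')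
    (hU : A' ∪ B' ∪ C' = A ∪ B ∪ C) (f : Fin 6 → Fin n) (hf : Function.Injective f)
    (hfS : univ.image f = A ∪ B ∪ C) {g : Fin 6 → Fin 3} (hg : ∀ i, pt A B (f i) = g i)
    (hu : Uq g) :
    (A', B', C') = (A, B, C) ∨ (A', B', C') = (C, A, B) ∨ (A', B', C') = (B, C, A) := by
  have hS : ∀ i, f i ∈ A ∪ B ∪ C := fun i => by rw [← hfS]; exact mem_image_of_mem _ (mem_univ _)
  have hS' : ∀ i, f i ∈ A' ∪ B' ∪ C' := fun i => by rw [hU]; exact hS i
  have hex : ∀ v ∈ A ∪ B ∪ C, ∃ i, f i = v := by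
    intro v hv
    rw [← hfS, mem_image] at hv
    obtain ⟨i, -, hi⟩ := hv
    exact ⟨i, hi⟩
  have key := hu (fun i => pt A' B' (f i)) (fun i j k hij hjk => by
    have n1 : f i ≠ f j := fun e => hij.ne (hf e)
    have n2 : f i ≠ f k := fun e => (hij.trans hjk).ne (hf e)
    have n3 : f j ≠ f k := fun e => hjk.ne (hf e)
    have t1 := h.tri (hS i) (hS j) (hS k) n1 n2 n3
    have t2 := h'.tri (hS' i) (hS' j) (hS' k) n1 n2 n3
    rw [t1] at t2
    rw [hg, hg, hg] at t2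
    exact (Bool.eq_iff_iff.mpr t2).symm)
  have sA : A ⊆ A ∪ B ∪ C := subset_union_left.trans subset_union_left
  have sB : B ⊆ A ∪ B ∪ C := subset_union_right.trans subset_union_left
  have sC : C ⊆ A ∪ B ∪ C := subset_union_right
  have sA' : A' ⊆ A ∪ B ∪ C := hU ▸ (subset_union_left.trans subset_union_left)
  have sB' : B' ⊆ A ∪ B ∪ C := hU ▸ (subset_union_right.trans subset_union_left)
  have sC' : C' ⊆ A ∪ B ∪ C := hU ▸ subset_union_right
  have f3 : ∀ x : Fin 3, ((x + 1 = 0 ↔ x = 2) ∧ (x + 1 = 1 ↔ x = 0) ∧ (x + 1 = 2 ↔ x = 1)) ∧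
      ((x + 2 = 0 ↔ x = 1) ∧ (x + 2 = 1 ↔ x = 2) ∧ (x + 2 = 2 ↔ x = 0)) := by decide
  rcases key with k | k | k
  · left
    have e : ∀ v ∈ A ∪ B ∪ C, (v ∈ A' ↔ v ∈ A) ∧ (v ∈ B' ↔ v ∈ B) ∧ (v ∈ C' ↔ v ∈ C) := by
      intro v hv
      obtain ⟨i, rfl⟩ := hex v hv
      obtain ⟨p1, p2, p3⟩ := mem_pt h (hS i)
      obtain ⟨q1, q2, q3⟩ := mem_pt h' (hS' i)
      rw [p1, p2, p3, q1, q2, q3, hg]
      rw [k i]
      exact ⟨Iff.rfl, Iff.rfl, Iff.rfl⟩
    rw [part_eq sA sA' fun v hv => (e v hv).1, part_eq sB sB' fun v hv => (e v hv).2.1,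
      part_eq sC sC' fun v hv => (e v hv).2.2]
  · right
    left
    have e : ∀ v ∈ A ∪ B ∪ C, (v ∈ A' ↔ v ∈ C) ∧ (v ∈ B' ↔ v ∈ A) ∧ (v ∈ C' ↔ v ∈ B) := by
      intro v hv
      obtain ⟨i, rfl⟩ := hex v hv
      obtain ⟨p1, p2, p3⟩ := mem_pt h (hS i)
      obtain ⟨q1, q2, q3⟩ := mem_pt h' (hS' i)
      rw [p1, p2, p3, q1, q2, q3, hg]
      rw [k i]
      exact (f3 (g i)).1
    rw [part_eq sC sA' fun v hv => (e v hv).1, part_eq sA sB' fun v hv => (e v hv).2.1,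
      part_eq sB sC' fun v hv => (e v hv).2.2]
  · right
    right
    have e : ∀ v ∈ A ∪ B ∪ C, (v ∈ A' ↔ v ∈ B) ∧ (v ∈ B' ↔ v ∈ C) ∧ (v ∈ C' ↔ v ∈ A) := by
      intro v hv
      obtain ⟨i, rfl⟩ := hex v hv
      obtain ⟨p1, p2, p3⟩ := mem_pt h (hS i)
      obtain ⟨q1, q2, q3⟩ := mem_pt h' (hS' i)
      rw [p1, p2, p3, q1, q2, q3, hg]
      rw [k i]
      exact (f3 (g i)).2
    rw [part_eq sB sA' fun v hv => (e v hv).1, part_eq sC sB' fun v hv => (e v hv).2.1,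
      part_eq sA sC' fun v hv => (e v hv).2.2]

/-- the 3-graph induced by the union of the parts -/
theorem ind_of {A B C : Finset (Fin n)} (h : Pat3 H A B C) (f : Fin 6 → Fin n)
    (hf : Function.Injective f) (hfS : univ.image f = A ∪ B ∪ C) {g : Fin 6 → Fin 3}
    (hg : ∀ i, pt A B (f i) = g i) {F : Finset (Finset (Fin 6))}
    (hF : ∀ i j k : Fin 6, i ≠ j → i ≠ k → j ≠ k →
      (R3 (g i) (g j) (g k) = true ↔ ({i, j, k} : Finset (Fin 6)) ∈ F)) :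
    Induces F H (A ∪ B ∪ C) := by
  have hS : ∀ i, f i ∈ A ∪ B ∪ C := fun i => by rw [← hfS]; exact mem_image_of_mem _ (mem_univ _)
  refine ⟨f, hf, ?_, ?_⟩
  · rw [← hfS]
    ext v
    simp only [mem_image]
  · intro t ht
    obtain ⟨i, j, k, hij, hik, hjk, rfl⟩ := card_eq_three.mp ht
    have n1 : f i ≠ f j := fun e => hij (hf e)
    have n2 : f i ≠ f k := fun e => hik (hf e)
    have n3 : f j ≠ f k := fun e => hjk (hf e)
    have t1 := h.tri (hS i) (hS j) (hS k) n1 n2 n3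
    rw [hg, hg, hg, hF i j k hij hik hjk] at t1
    rw [← t1]
    simp only [image_insert, image_singleton]
    refine iff_of_eq (congrArg (· ∈ H) ?_)
    ext v
    simp only [mem_insert, mem_singleton]

def F321 : Finset (Finset (Fin 6)) := {{0, 1, 4}, {0, 2, 4}, {1, 2, 4}, {0, 3, 4}, {1, 3, 4}, {2, 3, 4}, {0, 1, 5}, {0, 2, 5}, {1, 2, 5}, {0, 3, 5}, {1, 3, 5}, {2, 3, 5}, {0, 4, 5}}

def F222 : Finset (Finset (Fin 6)) := {{0, 1, 2}, {0, 1, 3}, {0, 2, 4}, {1, 2, 4}, {0, 3, 4}, {1, 3, 4}, {2, 3, 4}, {0, 2, 5}, {1, 2, 5}, {0, 3, 5}, {1, 3, 5}, {2, 3, 5}, {0, 4, 5}, {1, 4, 5}}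

def g321 : Fin 6 → Fin 3 := ![2, 0, 0, 0, 1, 1]
def g222 : Fin 6 → Fin 3 := ![0, 0, 1, 1, 2, 2]

theorem hF321 : ∀ i j k : Fin 6, i ≠ j → i ≠ k → j ≠ k →
    (R3 (g321 i) (g321 j) (g321 k) = true ↔ ({i, j, k} : Finset (Fin 6)) ∈ F321) := by
  decide +kernel

theorem hF222 : ∀ i j k : Fin 6, i ≠ j → i ≠ k → j ≠ k →
    (R3 (g222 i) (g222 j) (g222 k) = true ↔ ({i, j, k} : Finset (Fin 6)) ∈ F222) := by
  decide +kernel

theorem u321 : Uq g321 := by
  unfold Uq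
  decide +kernel

theorem u222 : Uq g222 := by
  unfold Uq
  decide +kernel

theorem enum321 {A B C : Finset (Fin n)} (h : Pat3 H A B C) (hA : A.card = 3) (hB : B.card = 2)
    (hC : C.card = 1) : ∃ f : Fin 6 → Fin n, Function.Injective f ∧
      univ.image f = A ∪ B ∪ C ∧ ∀ i, pt A B (f i) = g321 i := by
  obtain ⟨h1, h2, h3, -⟩ := h
  obtain ⟨a1, a2, a3, ha12, ha13, ha23, rfl⟩ := card_eq_three.mp hA
  obtain ⟨b1, b2, hb12, rfl⟩ := card_eq_two.mp hB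
  obtain ⟨c1, rfl⟩ := card_eq_one.mp hC
  have hAm : ∀ x ∈ ({a1, a2, a3} : Finset (Fin n)), x ∉ ({b1, b2} : Finset (Fin n)) ∧
      x ∉ ({c1} : Finset (Fin n)) := fun x hx => ⟨disjoint_left.mp h1 hx, disjoint_right.mp h3 hx⟩
  have hBm : ∀ x ∈ ({b1, b2} : Finset (Fin n)), x ∉ ({c1} : Finset (Fin n)) :=
    fun x hx => disjoint_left.mp h2 hx
  simp only [mem_insert, mem_singleton, not_or, forall_eq_or_imp, forall_eq] at hAm hBm
  obtain ⟨⟨⟨k1, k2⟩, k3⟩, ⟨⟨k4, k5⟩, k6⟩, ⟨k7, k8⟩, k9⟩ := hAm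
  obtain ⟨l1, l2⟩ := hBm
  refine ⟨![c1, a1, a2, a3, b1, b2], ?_, ?_, ?_⟩
  · intro i j hij
    fin_cases i <;> fin_cases j <;> first | rfl | (exfalso; simp at hij; simp_all)
  · ext v
    simp only [mem_image, mem_univ, true_and, mem_union, mem_insert, mem_singleton]
    constructor
    · rintro ⟨i, rfl⟩
      fin_cases i <;> simp
    · rintro (((rfl | rfl | rfl) | (rfl | rfl)) | rfl)
      exacts [⟨1, rfl⟩, ⟨2, rfl⟩, ⟨3, rfl⟩, ⟨4, rfl⟩, ⟨5, rfl⟩, ⟨0, rfl⟩]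
  · intro i
    unfold pt g321
    fin_cases i <;> simp_all

theorem enum222 {A B C : Finset (Fin n)} (h : Pat3 H A B C) (hA : A.card = 2) (hB : B.card = 2)
    (hC : C.card = 2) : ∃ f : Fin 6 → Fin n, Function.Injective f ∧
      univ.image f = A ∪ B ∪ C ∧ ∀ i, pt A B (f i) = g222 i := by
  obtain ⟨h1, h2, h3, -⟩ := h
  obtain ⟨a1, a2, ha12, rfl⟩ := card_eq_two.mp hA
  obtain ⟨b1, b2, hb12, rfl⟩ := card_eq_two.mp hB
  obtain ⟨c1, c2, hc12, rfl⟩ := card_eq_two.mp hC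
  have hAm : ∀ x ∈ ({a1, a2} : Finset (Fin n)), x ∉ ({b1, b2} : Finset (Fin n)) ∧
      x ∉ ({c1, c2} : Finset (Fin n)) := fun x hx => ⟨disjoint_left.mp h1 hx, disjoint_right.mp h3 hx⟩
  have hBm : ∀ x ∈ ({b1, b2} : Finset (Fin n)), x ∉ ({c1, c2} : Finset (Fin n)) :=
    fun x hx => disjoint_left.mp h2 hx
  simp only [mem_insert, mem_singleton, not_or, forall_eq_or_imp, forall_eq] at hAm hBm
  obtain ⟨⟨⟨k1, k2⟩, k3, k4⟩, ⟨k5, k6⟩, k7, k8⟩ := hAm
  obtain ⟨⟨l1, l2⟩, l3, l4⟩ := hBm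
  refine ⟨![a1, a2, b1, b2, c1, c2], ?_, ?_, ?_⟩
  · intro i j hij
    fin_cases i <;> fin_cases j <;> first | rfl | (exfalso; simp at hij; simp_all)
  · ext v
    simp only [mem_image, mem_univ, true_and, mem_union, mem_insert, mem_singleton]
    constructor
    · rintro ⟨i, rfl⟩
      fin_cases i <;> simp
    · rintro (((rfl | rfl) | (rfl | rfl)) | (rfl | rfl))
      exacts [⟨0, rfl⟩, ⟨1, rfl⟩, ⟨2, rfl⟩, ⟨3, rfl⟩, ⟨4, rfl⟩, ⟨5, rfl⟩]
  · intro i
    unfold pt g222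
    fin_cases i <;> simp_all
    · exact ⟨fun h => k3 h.symm, fun h => k7 h.symm⟩
    · exact ⟨fun h => k4 h.symm, fun h => k8 h.symm⟩

/-- the six-element sets which induce a copy of `F` -/
noncomputable def TT (F : Finset (Finset (Fin 6))) (H : Finset (Finset (Fin n))) :
    Finset (Finset (Fin n)) :=
  ((univ : Finset (Fin n)).powersetCard 6).filter fun S => Induces F H S

theorem card_un {A B C : Finset (Fin n)} (h : Pat3 H A B C) :
    (A ∪ B ∪ C).card = A.card + B.card + C.card := by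
  rw [card_union_of_disjoint (disjoint_union_left.mpr ⟨h.2.2.1.symm, h.2.1⟩),
    card_union_of_disjoint h.1]

theorem p321_le : (prs3 3 2 1 H).card ≤ (TT F321 H).card := by
  refine card_le_card_of_injOn (fun p => p.1 ∪ p.2.1 ∪ p.2.2) ?_ ?_
  · rintro ⟨A, B, C⟩ hp
    obtain ⟨h1, h2, h3, h4⟩ := mem_prs3.mp hp
    dsimp only at h1 h2 h3 h4 ⊢
    obtain ⟨f, hf, hfS, hg⟩ := enum321 h4 h1 h2 h3
    unfold TT
    rw [mem_coe, mem_filter, mem_powersetCard]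
    exact ⟨⟨subset_univ _, by rw [card_un h4, h1, h2, h3]⟩, ind_of h4 f hf hfS hg hF321⟩
  · rintro ⟨A, B, C⟩ hp ⟨A', B', C'⟩ hp' he
    obtain ⟨h1, h2, h3, h4⟩ := mem_prs3.mp hp
    obtain ⟨k1, k2, k3, k4⟩ := mem_prs3.mp hp'
    dsimp only at h1 h2 h3 h4 k1 k2 k3 k4 he
    obtain ⟨f, hf, hfS, hg⟩ := enum321 h4 h1 h2 h3
    rcases same_div h4 k4 he.symm f hf hfS hg u321 with e | e | e
    · exact e.symm
    · rw [Prod.mk.injEq, Prod.mk.injEq] at e
      rw [e.1, h3] at k1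
      exact absurd k1 (by norm_num)
    · rw [Prod.mk.injEq, Prod.mk.injEq] at e
      rw [e.1, h2] at k1
      exact absurd k1 (by norm_num)

theorem p222_le : (prs3 2 2 2 H).card ≤ 3 * (TT F222 H).card := by
  have h1 : (prs3 2 2 2 H).card ≤
      3 * ((prs3 2 2 2 H).image (fun p => p.1 ∪ p.2.1 ∪ p.2.2)).card := by
    refine card_le_mul_card_image _ 3 ?_
    intro S hS
    obtain ⟨⟨A, B, C⟩, hp, rfl⟩ := mem_image.mp hS
    obtain ⟨h1, h2, h3, h4⟩ := mem_prs3.mp hp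
    dsimp only at h1 h2 h3 h4 ⊢
    obtain ⟨f, hf, hfS, hg⟩ := enum222 h4 h1 h2 h3
    have hsub : (prs3 2 2 2 H).filter (fun x => x.1 ∪ x.2.1 ∪ x.2.2 = A ∪ B ∪ C) ⊆
        {(A, B, C), (C, A, B), (B, C, A)} := by
      rintro ⟨A', B', C'⟩ hq
      obtain ⟨hq1, hq2⟩ := mem_filter.mp hq
      obtain ⟨k1, k2, k3, k4⟩ := mem_prs3.mp hq1
      dsimp only at k1 k2 k3 k4 hq2
      rw [mem_insert, mem_insert, mem_singleton]
      exact same_div h4 k4 hq2 f hf hfS hg u222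
    exact (card_le_card hsub).trans card_le_three
  refine h1.trans (Nat.mul_le_mul_left _ (card_le_card ?_))
  intro S hS
  obtain ⟨⟨A, B, C⟩, hp, rfl⟩ := mem_image.mp hS
  obtain ⟨h1, h2, h3, h4⟩ := mem_prs3.mp hp
  dsimp only at h1 h2 h3 h4 ⊢
  obtain ⟨f, hf, hfS, hg⟩ := enum222 h4 h1 h2 h3
  unfold TT
  rw [mem_filter, mem_powersetCard]
  exact ⟨⟨subset_univ _, by rw [card_un h4, h1, h2, h3]⟩, ind_of h4 f hf hfS hg hF222⟩

section lower

/-- a part of the division `g` -/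
def Pg (g : Fin n → Fin 3) (p : Fin 3) : Finset (Fin n) := univ.filter fun v => g v = p

/-- Turán's construction -/
noncomputable def tu (g : Fin n → Fin 3) : Finset (Finset (Fin n)) :=
  ((univ : Finset (Fin n)).powersetCard 3).filter fun t => Ed (Pg g 0) (Pg g 1) (Pg g 2) t

theorem mem_Pg {g : Fin n → Fin 3} {p : Fin 3} {v : Fin n} : v ∈ Pg g p ↔ g v = p := by
  unfold Pg
  rw [mem_filter]
  exact ⟨fun h => h.2, fun h => ⟨mem_univ _, h⟩⟩

theorem Pg_disj (g : Fin n → Fin 3) {p q : Fin 3} (h : p ≠ q) : Disjoint (Pg g p) (Pg g q) := by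
  rw [disjoint_left]
  intro v hv hv'
  exact h ((mem_Pg.mp hv).symm.trans (mem_Pg.mp hv'))

theorem tu_pat (g : Fin n → Fin 3) : Pat3 (tu g) (Pg g 0) (Pg g 1) (Pg g 2) := by
  refine ⟨Pg_disj g (by decide), Pg_disj g (by decide), Pg_disj g (by decide), fun t _ h3 => ?_⟩
  unfold tu
  rw [mem_filter, mem_powersetCard]
  exact ⟨fun h => h.2, fun h => ⟨⟨subset_univ _, h3⟩, h⟩⟩

theorem tu_pt (g : Fin n → Fin 3) (v : Fin n) : pt (Pg g 0) (Pg g 1) v = g v := by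
  unfold pt
  simp only [mem_Pg]
  generalize g v = x
  fin_cases x <;> simp

theorem tu_univ (g : Fin n → Fin 3) (v : Fin n) : v ∈ Pg g 0 ∪ Pg g 1 ∪ Pg g 2 := by
  rw [mem_union, mem_union, mem_Pg, mem_Pg, mem_Pg]
  have : ∀ x : Fin 3, (x = 0 ∨ x = 1) ∨ x = 2 := by decide
  exact this (g v)

theorem free4 : ∀ h : Fin 4 → Fin 3, ∃ i j k : Fin 4, i ≠ j ∧ i ≠ k ∧ j ≠ k ∧
    R3 (h i) (h j) (h k) = false := by
  decide +kernel

theorem tu_free (g : Fin n → Fin 3) : K43Free (tu g) := by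
  intro S hS
  set e := S.orderEmbOfFin hS
  obtain ⟨i, j, k, hij, hik, hjk, hr⟩ := free4 (g ∘ e)
  have n1 : e i ≠ e j := fun h => hij (e.injective h)
  have n2 : e i ≠ e k := fun h => hik (e.injective h)
  have n3 : e j ≠ e k := fun h => hjk (e.injective h)
  refine ⟨{e i, e j, e k}, ?_, card_eq_three.mpr ⟨_, _, _, n1, n2, n3, rfl⟩, ?_⟩
  · intro v hv
    simp only [mem_insert, mem_singleton] at hv
    rcases hv with rfl | rfl | rfl
    all_goals exact S.orderEmbOfFin_mem hS _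
  · have h := (tu_pat g).tri (tu_univ g (e i)) (tu_univ g (e j)) (tu_univ g (e k)) n1 n2 n3
    rw [tu_pt, tu_pt, tu_pt] at h
    intro hm
    have h2 := h.mp hm
    simp only [Function.comp] at hr
    rw [hr] at h2
    exact absurd h2 (by decide)

theorem tu_card {g : Fin n → Fin 3} {e : Finset (Fin n)} (he : e ∈ tu g) : e.card = 3 := by
  unfold tu at he
  exact (mem_powersetCard.mp (mem_filter.mp he).1).2

/-- the patterns in Turán's construction -/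
theorem tu_low (g : Fin n → Fin 3) (m : ℕ) (hm : ∀ p, (Pg g p).card = m) (a b c : ℕ) (ha : 1 ≤ a) :
    3 * (m.choose a * (m.choose b * m.choose c)) ≤ (prs3 a b c (tu g)).card := by
  have key : (univ : Finset (Fin 3)).biUnion (fun p => (Pg g p).powersetCard a ×ˢ
      ((Pg g (p + 1)).powersetCard b ×ˢ (Pg g (p + 2)).powersetCard c)) ⊆ prs3 a b c (tu g) := by
    rintro ⟨A, B, C⟩ h
    simp only [mem_biUnion, mem_univ, true_and, mem_product, mem_powersetCard] at h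
    obtain ⟨p, ⟨hA, h1⟩, ⟨hB, h2⟩, hC, h3⟩ := h
    rw [mem_prs3]
    refine ⟨h1, h2, h3, ?_⟩
    show Pat3 (tu g) A B C
    have h0 := tu_pat g
    fin_cases p
    · exact h0.mono hA hB hC
    · exact h0.rot.mono hA hB hC
    · exact h0.rot.rot.mono hA hB hC
  refine le_trans (le_of_eq ?_) (card_le_card key)
  rw [card_biUnion]
  · simp only [card_product, card_powersetCard, hm, sum_const, card_univ, Fintype.card_fin,
      smul_eq_mul]
  · intro p _ q _ hpq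
    show Disjoint _ _
    rw [disjoint_left]
    rintro ⟨A, B, C⟩ h h'
    simp only [mem_product, mem_powersetCard] at h h'
    obtain ⟨x, hx⟩ : A.Nonempty := by rw [← card_pos, h.1.2]; exact ha
    exact disjoint_left.mp (Pg_disj g hpq) (h.1.1 hx) (h'.1.1 hx)

/-- the part of a vertex in the division of `3 m` vertices into three blocks -/
def blk (m : ℕ) (v : Fin (3 * m)) : Fin 3 := (finProdFinEquiv.symm v).1

theorem blk_card (m : ℕ) (p : Fin 3) : (Pg (blk m) p).card = m := by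
  have h : (Pg (blk m) p) = (univ : Finset (Fin m)).image (fun i => finProdFinEquiv (p, i)) := by
    ext v
    rw [mem_Pg, mem_image]
    unfold blk
    constructor
    · intro h
      refine ⟨(finProdFinEquiv.symm v).2, mem_univ _, ?_⟩
      rw [← h]
      exact finProdFinEquiv.apply_symm_apply v
    · rintro ⟨i, -, rfl⟩
      rw [Equiv.symm_apply_apply]
  rw [h, card_image_of_injective, card_univ, Fintype.card_fin]
  intro i j hij
  have := finProdFinEquiv.injective hij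
  rw [Prod.mk.injEq] at this
  exact this.2

end lower

end Pool.Agent.R170.FA.P3
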