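import Pool.Agent.R170.FA.Pat3S
import Pool.Agent.Results.MP_466853_co.FewerCopies

/-! Patterns in 3-graphs with more edges than Turán's construction. -/

set_option autoImplicit false
set_option maxRecDepth 100000
open Finset
open scoped Classical

namespace Pool.Agent.R170.FA.P3
open Pool.Agent.H122R2.N6 (K43Free)
open Pool.Agent.Results.MP_466853_co.FewerCopies (T part z copies sorted z_part z_comp monotone_part Iso)

variable {n : ℕ} {H : Finset (Finset (Fin n))}

/-! ### Extending patterns with an empty part -/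

theorem nx_disj_ab {A B C : Finset (Fin n)} (hA : A.Nonempty) (hB : B.Nonempty) :
    Disjoint (nx H A B C) (nx H B C A) := by
  rw [disjoint_left]
  intro v hv hv'
  obtain ⟨hvA, hvB, hvC, hP⟩ := mem_nx.mp hv
  obtain ⟨-, -, -, hQ⟩ := mem_nx.mp hv'
  obtain ⟨a, ha⟩ := hA
  obtain ⟨b, hb⟩ := hB
  obtain ⟨p1, p2, p3, p4⟩ := hP
  obtain ⟨q1, q2, q3, q4⟩ := hQ
  have haC : a ∉ C := fun h => disjoint_left.mp p3 h (mem_insert_of_mem ha)
  have haB : a ∉ B := fun h => disjoint_left.mp p1 (mem_insert_of_mem ha) h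
  have hbA : b ∉ A := fun h => disjoint_left.mp p1 (mem_insert_of_mem h) hb
  have hbC : b ∉ C := disjoint_left.mp p2 hb
  have hva : v ≠ a := fun h => hvA (h ▸ ha)
  have hvb : v ≠ b := fun h => hvB (h ▸ hb)
  have hab : a ≠ b := fun h => haB (h ▸ hb)
  have h3 : ({v, a, b} : Finset (Fin n)).card = 3 := card_eq_three.mpr ⟨v, a, b, hva, hvb, hab, rfl⟩
  have e1 : ({v, a, b} : Finset (Fin n)) ∈ H := by
    rw [p4 _ ?_ h3]
    · right; left
      rw [crd hva hvb hab, crd hva hvb hab]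
      simp [hva.symm, hvb.symm, haB, hbA, ha, hb, hvB]
    · intro x hx
      simp only [mem_insert, mem_singleton] at hx
      simp only [mem_union, mem_insert]
      rcases hx with rfl | rfl | rfl
      · exact Or.inl (Or.inl (Or.inl rfl))
      · exact Or.inl (Or.inl (Or.inr ha))
      · exact Or.inl (Or.inr hb)
  rw [q4 _ ?_ h3] at e1
  · unfold Ed at e1
    rw [crd hva hvb hab, crd hva hvb hab, crd hva hvb hab] at e1
    simp [hva.symm, hvb.symm, haB, hbA, ha, hb, hvB, hvA, hvC, haC, hbC] at e1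
  · intro x hx
    simp only [mem_insert, mem_singleton] at hx
    simp only [mem_union, mem_insert]
    rcases hx with rfl | rfl | rfl
    · exact Or.inl (Or.inl (Or.inl rfl))
    · exact Or.inr ha
    · exact Or.inl (Or.inl (Or.inr hb))

theorem nx_disj_ca {A B C : Finset (Fin n)} (hB : 2 ≤ B.card) :
    Disjoint (nx H C A B) (nx H A B C) := by
  rw [disjoint_left]
  intro v hv hv'
  obtain ⟨hvC, hvA, hvB, hP⟩ := mem_nx.mp hv
  obtain ⟨-, -, -, hQ⟩ := mem_nx.mp hv'
  obtain ⟨b, hb, b', hb', hbb⟩ := one_lt_card.mp hB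
  obtain ⟨p1, p2, p3, p4⟩ := hP
  obtain ⟨q1, q2, q3, q4⟩ := hQ
  have hbC : b ∉ C := fun h => disjoint_left.mp p3 hb (mem_insert_of_mem h)
  have hbC' : b' ∉ C := fun h => disjoint_left.mp p3 hb' (mem_insert_of_mem h)
  have hbA : b ∉ A := fun h => disjoint_left.mp p2 h hb
  have hbA' : b' ∉ A := fun h => disjoint_left.mp p2 h hb'
  have hvb : v ≠ b := fun h => hvB (h ▸ hb)
  have hvb' : v ≠ b' := fun h => hvB (h ▸ hb')
  have h3 : ({v, b, b'} : Finset (Fin n)).card = 3 :=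
    card_eq_three.mpr ⟨v, b, b', hvb, hvb', hbb, rfl⟩
  have e1 : ({v, b, b'} : Finset (Fin n)) ∈ H := by
    rw [p4 _ ?_ h3]
    · right; right; right
      rw [crd hvb hvb' hbb, crd hvb hvb' hbb]
      simp [hvb.symm, hvb'.symm, hb, hb', hvB, hbC, hbC']
    · intro x hx
      simp only [mem_insert, mem_singleton] at hx
      simp only [mem_union, mem_insert]
      rcases hx with rfl | rfl | rfl
      · exact Or.inl (Or.inl (Or.inl rfl))
      · exact Or.inr hb
      · exact Or.inr hb'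
  rw [q4 _ ?_ h3] at e1
  · unfold Ed at e1
    rw [crd hvb hvb' hbb, crd hvb hvb' hbb, crd hvb hvb' hbb] at e1
    simp [hvb.symm, hvb'.symm, hb, hb', hvB, hvC, hbC, hbC', hbA, hbA'] at e1
  · intro x hx
    simp only [mem_insert, mem_singleton] at hx
    simp only [mem_union, mem_insert]
    rcases hx with rfl | rfl | rfl
    · exact Or.inl (Or.inl (Or.inl rfl))
    · exact Or.inl (Or.inr hb)
    · exact Or.inl (Or.inr hb')

theorem nx_sum' {A B C : Finset (Fin n)} (hA : A.Nonempty) (hB : 2 ≤ B.card) :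
    (nx H A B C).card + (nx H B C A).card + (nx H C A B).card ≤ n := by
  have hB' : B.Nonempty := card_pos.mp (by omega)
  have d1 := nx_disj_ab (H := H) (C := C) hA hB'
  have d2 := nx_disj (H := H) (B := C) hB' hA
  have d3 := nx_disj_ca (H := H) (A := A) (C := C) hB
  have h1 := card_union_of_disjoint d1
  have h2 : Disjoint (nx H A B C ∪ nx H B C A) (nx H C A B) :=
    disjoint_union_left.mpr ⟨d3.symm, d2⟩
  rw [← h1, ← card_union_of_disjoint h2]
  exact (card_le_univ _).trans (by rw [Fintype.card_fin])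

theorem rec3' (a b c : ℕ) (ha : 1 ≤ a) (hb : 2 ≤ b) :
    27 * ((a + 1) * ((b + 1) * (c + 1)) * (prs3 (a + 1) (b + 1) (c + 1) H).card) ≤
      (prs3 a b c H).card * n ^ 3 := by
  refine (Nat.mul_le_mul_left _ (cnt3 a b c)).trans ?_
  rw [mul_sum, ← smul_eq_mul (prs3 a b c H).card, ← sum_const]
  refine sum_le_sum fun p hp => ?_
  obtain ⟨h1, h2, h3, -⟩ := mem_prs3.mp hp
  exact amgm3 (nx_sum' (nonempty_of_card h1 ha) (by omega))

/-! ### The inequality and its steps -/

/-- the inequality -/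
def GT (D C K e a b c : ℕ) (H : Finset (Finset (Fin n))) : Prop :=
  n ^ e * D + C * (3 ^ (e + 2) * (a.factorial * (b.factorial * c.factorial)) * (prs3 a b c H).card) ≤
    K * n ^ (e + 3)

theorem GT.step_of {D C K e a b c : ℕ} (h : GT D C K e a b c H)
    (hr : 27 * ((a + 1) * ((b + 1) * (c + 1)) * (prs3 (a + 1) (b + 1) (c + 1) H).card) ≤
      (prs3 a b c H).card * n ^ 3) : GT D C K (e + 3) (a + 1) (b + 1) (c + 1) H := by
  unfold GT at h ⊢
  rw [Nat.factorial_succ, Nat.factorial_succ, Nat.factorial_succ]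
  calc n ^ (e + 3) * D + C * (3 ^ (e + 3 + 2) * ((a + 1) * a.factorial * ((b + 1) * b.factorial *
        ((c + 1) * c.factorial))) * (prs3 (a + 1) (b + 1) (c + 1) H).card)
      = n ^ (e + 3) * D + C * (3 ^ (e + 2) * (a.factorial * (b.factorial * c.factorial)) *
        (27 * ((a + 1) * ((b + 1) * (c + 1)) * (prs3 (a + 1) (b + 1) (c + 1) H).card))) := by
        rw [show e + 3 + 2 = e + 2 + 3 by ring, pow_add 3 (e + 2) 3]; ring
    _ ≤ n ^ (e + 3) * D + C * (3 ^ (e + 2) * (a.factorial * (b.factorial * c.factorial)) *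
        ((prs3 a b c H).card * n ^ 3)) :=
        Nat.add_le_add_left (Nat.mul_le_mul_left _ (Nat.mul_le_mul_left _ hr)) _
    _ = (n ^ e * D + C * (3 ^ (e + 2) * (a.factorial * (b.factorial * c.factorial)) *
        (prs3 a b c H).card)) * n ^ 3 := by rw [pow_add n e 3]; ring
    _ ≤ (K * n ^ (e + 3)) * n ^ 3 := Nat.mul_le_mul_right _ h
    _ = K * n ^ (e + 3 + 3) := by rw [pow_add n (e + 3) 3]; ring

theorem GT.step1 {D C K e m : ℕ} (h : GT D C K e m m m H) (hm : 1 ≤ m) :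
    GT D C K (e + 1) (m + 1) m m H := by
  unfold GT at h ⊢
  have hr := rec1 (H := H) m hm
  rw [Nat.factorial_succ]
  calc n ^ (e + 1) * D + C * (3 ^ (e + 1 + 2) * ((m + 1) * m.factorial * (m.factorial *
        m.factorial)) * (prs3 (m + 1) m m H).card)
      = n ^ (e + 1) * D + C * (3 ^ (e + 2) * (m.factorial * (m.factorial * m.factorial)) *
        (3 * ((m + 1) * (prs3 (m + 1) m m H).card))) := by
        rw [show e + 1 + 2 = e + 2 + 1 by ring, pow_add 3 (e + 2) 1]; ring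
    _ ≤ n ^ (e + 1) * D + C * (3 ^ (e + 2) * (m.factorial * (m.factorial * m.factorial)) *
        ((prs3 m m m H).card * n)) :=
        Nat.add_le_add_left (Nat.mul_le_mul_left _ (Nat.mul_le_mul_left _ hr)) _
    _ = (n ^ e * D + C * (3 ^ (e + 2) * (m.factorial * (m.factorial * m.factorial)) *
        (prs3 m m m H).card)) * n := by rw [pow_add n e 1]; ring
    _ ≤ (K * n ^ (e + 3)) * n := Nat.mul_le_mul_right _ h
    _ = K * n ^ (e + 1 + 3) := by rw [show e + 1 + 3 = e + 3 + 1 by ring, pow_add n (e + 3) 1]; ring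

theorem GT.step2 {D C K e m : ℕ} (h : GT D C K e m m m H) (hm : 1 ≤ m) :
    GT D C K (e + 2) (m + 1) (m + 1) m H := by
  unfold GT at h ⊢
  have hr := rec2 (H := H) m hm
  rw [Nat.factorial_succ]
  calc n ^ (e + 2) * D + C * (3 ^ (e + 2 + 2) * ((m + 1) * m.factorial * ((m + 1) * m.factorial *
        m.factorial)) * (prs3 (m + 1) (m + 1) m H).card)
      = n ^ (e + 2) * D + C * (3 ^ (e + 2) * (m.factorial * (m.factorial * m.factorial)) *
        (9 * ((m + 1) * (m + 1) * (prs3 (m + 1) (m + 1) m H).card))) := by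
        rw [pow_add 3 (e + 2) 2]; ring
    _ ≤ n ^ (e + 2) * D + C * (3 ^ (e + 2) * (m.factorial * (m.factorial * m.factorial)) *
        ((prs3 m m m H).card * n ^ 2)) :=
        Nat.add_le_add_left (Nat.mul_le_mul_left _ (Nat.mul_le_mul_left _ hr)) _
    _ = (n ^ e * D + C * (3 ^ (e + 2) * (m.factorial * (m.factorial * m.factorial)) *
        (prs3 m m m H).card)) * n ^ 2 := by rw [pow_add n e 2]; ring
    _ ≤ (K * n ^ (e + 3)) * n ^ 2 := Nat.mul_le_mul_right _ h
    _ = K * n ^ (e + 2 + 3) := by rw [show e + 2 + 3 = e + 3 + 2 by ring, pow_add n (e + 3) 2]; ring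

/-! ### The six-vertex cases -/

theorem fewer_turan (g : Fin 6 → Fin 3) (i j k : Fin 6) (hij : i ≠ j) (hik : i ≠ k) (hjk : j ≠ k) :
    ({i, j, k} : Finset (Fin 6)) ∈ Pool.Agent.Results.MP_466853_co.FewerCopies.turan g ↔
      R3 (g i) (g j) (g k) = true := by
  rw [← mem_tu g hij hik hjk, tu_turan]
  rfl

theorem exists_enum {a b c : ℕ} {A B C : Finset (Fin n)} (h : Pat3 H A B C) (hA : A.card = a)
    (hB : B.card = b) (hC : C.card = c) (h6 : a + b + c = 6) : ∃ f : Fin 6 → Fin n,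
      Function.Injective f ∧ univ.image f = A ∪ B ∪ C ∧ ∀ i, pt A B (f i) = part a b i := by
  have hS : (A ∪ B ∪ C).card = 6 := by rw [card_un h, hA, hB, hC, h6]
  set e := (A ∪ B ∪ C).orderEmbOfFin hS with he
  set g : Fin 6 → Fin 3 := fun i => pt A B (e i) with hg
  have hm : Monotone (g ∘ Tuple.sort g) := Tuple.monotone_sort _
  obtain ⟨a', b', hab, hh⟩ := monotone_part (g ∘ Tuple.sort g) fun i j hij => hm hij
  have hgp : g ∘ Tuple.sort g = part a'.val b'.val := funext hh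
  have heS : ∀ i, e i ∈ A ∪ B ∪ C := fun i => (A ∪ B ∪ C).orderEmbOfFin_mem hS _
  have himg : univ.image e = A ∪ B ∪ C := by
    refine eq_of_subset_of_card_le ?_ ?_
    · intro v hv
      obtain ⟨i, -, rfl⟩ := mem_image.mp hv
      exact heS i
    · rw [hS, card_image_of_injective _ e.injective]
      rfl
  have zA : z g 0 = a := by
    rw [← hA]
    unfold z
    rw [← card_image_of_injective (univ.filter fun i => g i = 0) e.injective]
    refine congrArg card ?_
    ext v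
    rw [mem_image]
    constructor
    · rintro ⟨i, hi, rfl⟩
      exact ((mem_pt h (heS i)).1).mpr (mem_filter.mp hi).2
    · intro hv
      have hv' : v ∈ univ.image e := by
        rw [himg]; exact mem_union_left _ (mem_union_left _ hv)
      obtain ⟨i, -, rfl⟩ := mem_image.mp hv'
      exact ⟨i, mem_filter.mpr ⟨mem_univ _, ((mem_pt h (heS i)).1).mp hv⟩, rfl⟩
  have zB : z g 1 = b := by
    rw [← hB]
    unfold z
    rw [← card_image_of_injective (univ.filter fun i => g i = 1) e.injective]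
    refine congrArg card ?_
    ext v
    rw [mem_image]
    constructor
    · rintro ⟨i, hi, rfl⟩
      exact ((mem_pt h (heS i)).2.1).mpr (mem_filter.mp hi).2
    · intro hv
      have hv' : v ∈ univ.image e := by
        rw [himg]; exact mem_union_left _ (mem_union_right _ hv)
      obtain ⟨i, -, rfl⟩ := mem_image.mp hv'
      exact ⟨i, mem_filter.mpr ⟨mem_univ _, ((mem_pt h (heS i)).2.1).mp hv⟩, rfl⟩
  obtain ⟨k0, k1, -⟩ := z_part a' b' hab
  rw [← hgp, z_comp] at k0 k1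
  have ea : a = a'.val := by rw [← zA, k0]
  have eb : b = b'.val := by rw [← zB, k1]
  refine ⟨e ∘ Tuple.sort g, e.injective.comp (Tuple.sort g).injective, ?_, ?_⟩
  · rw [← image_image, image_univ_of_surjective (Tuple.sort g).surjective]
    exact himg
  · intro i
    rw [ea, eb]
    exact hh i

theorem ind_copy {a b c : ℕ} {A B C : Finset (Fin n)} (h : Pat3 H A B C) (hA : A.card = a)
    (hB : B.card = b) (hC : C.card = c) (h6 : a + b + c = 6) :
    Pool.Agent.Results.MP_466853_co.FewerCopies.Induces (T a b) H (A ∪ B ∪ C) := by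
  obtain ⟨f, hf, hfS, hg⟩ := exists_enum h hA hB hC h6
  have hS : ∀ i, f i ∈ A ∪ B ∪ C := fun i => by rw [← hfS]; exact mem_image_of_mem _ (mem_univ _)
  refine ⟨f, hf, hfS, ?_⟩
  intro t ht
  obtain ⟨i, j, k, hij, hik, hjk, rfl⟩ := card_eq_three.mp ht
  have n1 : f i ≠ f j := fun e => hij (hf e)
  have n2 : f i ≠ f k := fun e => hik (hf e)
  have n3 : f j ≠ f k := fun e => hjk (hf e)
  have t1 := h.tri (hS i) (hS j) (hS k) n1 n2 n3
  rw [hg, hg, hg, ← fewer_turan (part a b) i j k hij hik hjk] at t1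
  rw [image_insert, image_insert, image_singleton]
  exact t1

theorem prs_le {a b c : ℕ} (h6 : a + b + c = 6) (hu : Uq (part a b)) (hne : ¬ (a = b ∧ b = c)) :
    (prs3 a b c H).card ≤ copies (T a b) H := by
  unfold copies
  refine card_le_card_of_injOn (fun p => p.1 ∪ p.2.1 ∪ p.2.2) ?_ ?_
  · rintro ⟨A, B, C⟩ hp
    obtain ⟨h1, h2, h3, h4⟩ := mem_prs3.mp hp
    dsimp only at h1 h2 h3 h4 ⊢
    rw [mem_coe, mem_filter]
    exact ⟨mem_univ _, ind_copy h4 h1 h2 h3 h6⟩
  · rintro ⟨A, B, C⟩ hp ⟨A', B', C'⟩ hp' he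
    obtain ⟨h1, h2, h3, h4⟩ := mem_prs3.mp hp
    obtain ⟨k1, k2, k3, k4⟩ := mem_prs3.mp hp'
    dsimp only at h1 h2 h3 h4 k1 k2 k3 k4 he
    obtain ⟨f, hf, hfS, hg⟩ := exists_enum h4 h1 h2 h3 h6
    rcases same_div h4 k4 he.symm f hf hfS hg hu with e | e | e
    · exact e.symm
    · rw [Prod.mk.injEq, Prod.mk.injEq] at e
      exfalso
      apply hne
      rw [e.1] at k1
      rw [e.2.1] at k2
      omega
    · rw [Prod.mk.injEq, Prod.mk.injEq] at e
      exfalso
      apply hne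
      rw [e.1] at k1
      rw [e.2.1] at k2
      omega

theorem prs_le3 (hu : Uq (part 2 2)) : (prs3 2 2 2 H).card ≤ 3 * copies (T 2 2) H := by
  have h1 : (prs3 2 2 2 H).card ≤
      3 * ((prs3 2 2 2 H).image (fun p => p.1 ∪ p.2.1 ∪ p.2.2)).card := by
    refine card_le_mul_card_image _ 3 ?_
    intro S hS
    obtain ⟨⟨A, B, C⟩, hp, rfl⟩ := mem_image.mp hS
    obtain ⟨h1, h2, h3, h4⟩ := mem_prs3.mp hp
    dsimp only at h1 h2 h3 h4 ⊢
    obtain ⟨f, hf, hfS, hg⟩ := exists_enum h4 h1 h2 h3 rfl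
    have hsub : (prs3 2 2 2 H).filter (fun x => x.1 ∪ x.2.1 ∪ x.2.2 = A ∪ B ∪ C) ⊆
        {(A, B, C), (C, A, B), (B, C, A)} := by
      rintro ⟨A', B', C'⟩ hq
      obtain ⟨hq1, hq2⟩ := mem_filter.mp hq
      obtain ⟨k1, k2, k3, k4⟩ := mem_prs3.mp hq1
      dsimp only at k1 k2 k3 k4 hq2
      rw [mem_insert, mem_insert, mem_singleton]
      exact same_div h4 k4 hq2 f hf hfS hg hu
    exact (card_le_card hsub).trans card_le_three
  refine h1.trans (Nat.mul_le_mul_left _ ?_)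
  unfold copies
  refine card_le_card ?_
  intro S hS
  obtain ⟨⟨A, B, C⟩, hp, rfl⟩ := mem_image.mp hS
  obtain ⟨h1, h2, h3, h4⟩ := mem_prs3.mp hp
  dsimp only at h1 h2 h3 h4 ⊢
  exact mem_filter.mpr ⟨mem_univ _, ind_copy h4 h1 h2 h3 rfl⟩

theorem uq22 : Uq (part 2 2) := by
  unfold Uq
  decide +kernel
theorem uq32 : Uq (part 3 2) := by
  unfold Uq
  decide +kernel
theorem uq31 : Uq (part 3 1) := by
  unfold Uq
  decide +kernel
theorem uq33 : Uq (part 3 3) := by
  unfold Uq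
  decide +kernel
theorem uq42 : Uq (part 4 2) := by
  unfold Uq
  decide +kernel
theorem uq24 : Uq (part 2 4) := by
  unfold Uq
  decide +kernel

section base
open Pool.Agent.Results.MP_466853_co.FewerCopies (base1 base2 base3 base5 base6 base7 iso_2_2 iso_3_2
  iso_3_1 iso_3_3 iso_4_2 iso_2_4)

/-- the inequality for 3-graphs with at least as many edges as Turán's construction -/
def GE (e a b c : ℕ) (H : Finset (Finset (Fin n))) : Prop := GT (486 * H.card) 2 47 e a b c H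

theorem ge222 (h3 : ∀ e ∈ H, e.card = 3) (hK : K43Free H) : GE 3 2 2 2 H := by
  have h := base7 h3 hK iso_2_2
  have hp := prs_le3 (H := H) uq22
  unfold GE GT
  simp only [Nat.factorial]
  norm_num
  rw [mul_assoc 21870 (n ^ 3) H.card] at h
  rw [show n ^ 3 * (486 * H.card) = 486 * (n ^ 3 * H.card) by ring]
  generalize n ^ 3 * H.card = X at h ⊢
  generalize n ^ 6 = Y at h ⊢
  generalize (prs3 2 2 2 H).card = P at hp ⊢
  generalize copies (T 2 2) H = N at h hp
  omega

theorem ge321 (h3 : ∀ e ∈ H, e.card = 3) (hK : K43Free H) : GE 3 3 2 1 H := by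
  have h := base6 h3 hK iso_3_2
  have hp := prs_le (H := H) (a := 3) (b := 2) (c := 1) rfl uq32 (by omega)
  unfold GE GT
  simp only [Nat.factorial]
  norm_num
  rw [mul_assoc 43740 (n ^ 3) H.card] at h
  rw [show n ^ 3 * (486 * H.card) = 486 * (n ^ 3 * H.card) by ring]
  generalize n ^ 3 * H.card = X at h ⊢
  generalize n ^ 6 = Y at h ⊢
  generalize (prs3 3 2 1 H).card = P at hp ⊢
  generalize copies (T 3 2) H = N at h hp
  omega

theorem ge312 (h3 : ∀ e ∈ H, e.card = 3) (hK : K43Free H) : GE 3 3 1 2 H := by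
  have h := base5 h3 hK iso_3_1
  have hp := prs_le (H := H) (a := 3) (b := 1) (c := 2) rfl uq31 (by omega)
  unfold GE GT
  simp only [Nat.factorial]
  norm_num
  rw [mul_assoc 43740 (n ^ 3) H.card] at h
  rw [show n ^ 3 * (486 * H.card) = 486 * (n ^ 3 * H.card) by ring]
  generalize n ^ 3 * H.card = X at h ⊢
  generalize n ^ 6 = Y at h ⊢
  generalize (prs3 3 1 2 H).card = P at hp ⊢
  generalize copies (T 3 1) H = N at h hp
  omega

theorem ge240 (h3 : ∀ e ∈ H, e.card = 3) (hK : K43Free H) : GE 3 2 4 0 H := by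
  have h := base1 h3 hK iso_2_4
  have hp := prs_le (H := H) (a := 2) (b := 4) (c := 0) rfl uq24 (by omega)
  unfold GE GT
  simp only [Nat.factorial]
  norm_num
  rw [mul_assoc 21870 (n ^ 3) H.card] at h
  rw [show n ^ 3 * (486 * H.card) = 486 * (n ^ 3 * H.card) by ring]
  generalize n ^ 3 * H.card = X at h ⊢
  generalize n ^ 6 = Y at h ⊢
  generalize (prs3 2 4 0 H).card = P at hp ⊢
  generalize copies (T 2 4) H = N at h hp
  omega

theorem dense {n : ℕ} {E : ℕ} (h : 5 * n ^ 3 ≤ 54 * E) : 5 * n ^ 6 ≤ 54 * (n ^ 3 * E) := by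
  calc 5 * n ^ 6 = n ^ 3 * (5 * n ^ 3) := by ring
    _ ≤ n ^ 3 * (54 * E) := Nat.mul_le_mul_left _ h
    _ = 54 * (n ^ 3 * E) := by ring

theorem ge330 (h3 : ∀ e ∈ H, e.card = 3) (hK : K43Free H) (hd : 5 * n ^ 3 ≤ 54 * H.card) :
    GE 3 3 3 0 H := by
  have h := base2 h3 hK iso_3_3
  have hp := prs_le (H := H) (a := 3) (b := 3) (c := 0) rfl uq33 (by omega)
  have hd' := dense hd
  unfold GE GT
  simp only [Nat.factorial]
  norm_num
  rw [mul_assoc 21870 (n ^ 3) H.card] at h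
  rw [show n ^ 3 * (486 * H.card) = 486 * (n ^ 3 * H.card) by ring]
  generalize n ^ 3 * H.card = X at h hd' ⊢
  generalize n ^ 6 = Y at h hd' ⊢
  generalize (prs3 3 3 0 H).card = P at hp ⊢
  generalize copies (T 3 3) H = N at h hp
  omega

theorem ge420 (h3 : ∀ e ∈ H, e.card = 3) (hK : K43Free H) (hd : 5 * n ^ 3 ≤ 54 * H.card) :
    GE 3 4 2 0 H := by
  have h := base3 h3 hK iso_4_2
  have hp := prs_le (H := H) (a := 4) (b := 2) (c := 0) rfl uq42 (by omega)
  have hd' := dense hd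
  unfold GE GT
  simp only [Nat.factorial]
  norm_num
  rw [mul_assoc 17496 (n ^ 3) H.card] at h
  rw [show n ^ 3 * (486 * H.card) = 486 * (n ^ 3 * H.card) by ring]
  generalize n ^ 3 * H.card = X at h hd' ⊢
  generalize n ^ 6 = Y at h hd' ⊢
  generalize (prs3 4 2 0 H).card = P at hp ⊢
  generalize copies (T 4 2) H = N at h hp
  omega

end base

theorem GE.up {e a b c : ℕ} (h : GE e a b c H) (ha : 1 ≤ a) (hb : 2 ≤ b) :
    GE (e + 3) (a + 1) (b + 1) (c + 1) H := GT.step_of h (rec3' a b c ha hb)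

theorem GE.up' {e a b c : ℕ} (h : GE e a b c H) (ha : 1 ≤ a) (hb : 1 ≤ b) (hc : 1 ≤ c) :
    GE (e + 3) (a + 1) (b + 1) (c + 1) H := GT.step_of h (rec3 a b c ha hb hc)

/-- the sizes of the parts -/
def Sz (a b c : ℕ) : Prop :=
  1 ≤ b ∧ 1 ≤ c ∧ 6 ≤ a + b + c ∧ ((a = c ∧ b = c) ∨ (a = c + 1 ∧ b = c) ∨
    (a = c + 1 ∧ b = c + 1) ∨ (a = c + 2 ∧ b = c + 1) ∨ (a = b + 2 ∧ c = b + 1) ∨
    (a = c + 3 ∧ b = c + 3) ∨ (a = c + 4 ∧ b = c + 2) ∨ (a = c + 2 ∧ b = c + 4))

theorem ge_all (h3 : ∀ e ∈ H, e.card = 3) (hK : K43Free H) (hd : 5 * n ^ 3 ≤ 54 * H.card)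
    {a b c : ℕ} (hs : Sz a b c) : GE (a + b + c - 3) a b c H := by
  have f0 : ∀ m : ℕ, GE (3 * m + 3) (m + 2) (m + 2) (m + 2) H := by
    intro m
    induction m with
    | zero => exact ge222 h3 hK
    | succ m ih => exact ih.up' (by omega) (by omega) (by omega)
  have f1 : ∀ m : ℕ, GE (3 * m + 3) (m + 3) (m + 2) (m + 1) H := by
    intro m
    induction m with
    | zero => exact ge321 h3 hK
    | succ m ih => exact ih.up' (by omega) (by omega) (by omega)
  have f2 : ∀ m : ℕ, GE (3 * m + 3) (m + 3) (m + 1) (m + 2) H := by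
    intro m
    induction m with
    | zero => exact ge312 h3 hK
    | succ m ih => exact ih.up' (by omega) (by omega) (by omega)
  have f3 : ∀ m : ℕ, GE (3 * m + 3) (m + 3) (m + 3) m H := by
    intro m
    induction m with
    | zero => exact ge330 h3 hK hd
    | succ m ih => exact ih.up (by omega) (by omega)
  have f4 : ∀ m : ℕ, GE (3 * m + 3) (m + 4) (m + 2) m H := by
    intro m
    induction m with
    | zero => exact ge420 h3 hK hd
    | succ m ih => exact ih.up (by omega) (by omega)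
  have f5 : ∀ m : ℕ, GE (3 * m + 3) (m + 2) (m + 4) m H := by
    intro m
    induction m with
    | zero => exact ge240 h3 hK
    | succ m ih => exact ih.up (by omega) (by omega)
  obtain ⟨hb, hc, h6, h⟩ := hs
  rcases h with ⟨ha, hb'⟩ | ⟨ha, hb'⟩ | ⟨ha, hb'⟩ | ⟨ha, hb'⟩ | ⟨ha, hb'⟩ | ⟨ha, hb'⟩ | ⟨ha, hb'⟩ |
    ⟨ha, hb'⟩
  · obtain ⟨m, rfl⟩ : ∃ m, c = m + 2 := ⟨c - 2, by omega⟩
    rw [ha, hb', show m + 2 + (m + 2) + (m + 2) - 3 = 3 * m + 3 by omega]
    exact f0 m
  · obtain ⟨m, rfl⟩ : ∃ m, c = m + 2 := ⟨c - 2, by omega⟩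
    rw [ha, hb', show m + 2 + 1 + (m + 2) + (m + 2) - 3 = 3 * m + 3 + 1 by omega]
    exact GT.step1 (f0 m) (by omega)
  · obtain ⟨m, rfl⟩ : ∃ m, c = m + 2 := ⟨c - 2, by omega⟩
    rw [ha, hb', show m + 2 + 1 + (m + 2 + 1) + (m + 2) - 3 = 3 * m + 3 + 2 by omega]
    exact GT.step2 (f0 m) (by omega)
  · obtain ⟨m, rfl⟩ : ∃ m, c = m + 1 := ⟨c - 1, by omega⟩
    rw [ha, hb', show m + 1 + 2 + (m + 1 + 1) + (m + 1) - 3 = 3 * m + 3 by omega]
    exact f1 m
  · obtain ⟨m, rfl⟩ : ∃ m, b = m + 1 := ⟨b - 1, by omega⟩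
    rw [ha, hb', show m + 1 + 2 + (m + 1) + (m + 1 + 1) - 3 = 3 * m + 3 by omega]
    exact f2 m
  · rw [ha, hb', show c + 3 + (c + 3) + c - 3 = 3 * c + 3 by omega]
    exact f3 c
  · rw [ha, hb', show c + 4 + (c + 2) + c - 3 = 3 * c + 3 by omega]
    exact f4 c
  · rw [ha, hb', show c + 2 + (c + 4) + c - 3 = 3 * c + 3 by omega]
    exact f5 c

end Pool.Agent.R170.FA.P3
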