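import Pool.Agent.R170.FA.Pat3B
import Pool.Agent.Y850.FA.T6Stab
import Pool.Agent.R470.Tf.Core

/-! Stability for the nearly balanced patterns. -/

set_option autoImplicit false
set_option maxRecDepth 100000
open Finset
open scoped Classical

namespace Pool.Agent.R170.FA.P3
open Pool.Agent.H122R2.N6 Pool.Agent.H37R3.Cop

variable {n : ℕ} {H : Finset (Finset (Fin n))}

theorem mem_tu (g : Fin n → Fin 3) {x y z : Fin n} (h1 : x ≠ y) (h2 : x ≠ z) (h3 : y ≠ z) :
    ({x, y, z} : Finset (Fin n)) ∈ tu g ↔ R3 (g x) (g y) (g z) = true := by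
  have h := (tu_pat g).tri (tu_univ g x) (tu_univ g y) (tu_univ g z) h1 h2 h3
  rw [tu_pt, tu_pt, tu_pt] at h
  exact h

theorem R3_rB : ∀ a b c : Fin 3, R3 a b c = Pool.Agent.TH773.ST.rB a b c := by decide

theorem tu_turG (g : Fin n → Fin 3) : tu g = Pool.Agent.R470.Tf.turG g := by
  ext t
  by_cases ht : t.card = 3
  · obtain ⟨x, y, z, h1, h2, h3, rfl⟩ := card_eq_three.mp ht
    rw [mem_tu g h1 h2 h3, R3_rB]
    have h := Pool.Agent.R470.Tf.ind_turG g h1 h2 h3
    unfold Pool.Agent.H449R2.Fl.ind Pool.Agent.TH773.ST.Rf at h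
    by_cases hm : ({x, y, z} : Finset (Fin n)) ∈ Pool.Agent.R470.Tf.turG g
    · refine iff_of_true ?_ hm
      by_contra hn
      rw [if_pos hm, if_neg hn] at h
      omega
    · refine iff_of_false ?_ hm
      intro hn
      rw [if_neg hm, if_pos hn] at h
      omega
  · exact ⟨fun h => absurd (tu_card h) ht, fun h => absurd (Pool.Agent.R470.Tf.turG_card g t h) ht⟩

theorem tu_turan (g : Fin n → Fin 3) : tu g = Pool.Agent.TH773.Turan34.turan g := by
  ext t
  by_cases ht : t.card = 3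
  · obtain ⟨x, y, z, h1, h2, h3, rfl⟩ := card_eq_three.mp ht
    rw [mem_tu g h1 h2 h3, R3_rB, Pool.Agent.TH773.ST.mem_turan (g := g) h1 h2 h3]
    unfold Pool.Agent.TH773.ST.Rf
    by_cases hb : Pool.Agent.TH773.ST.rB (g x) (g y) (g z) = true
    · rw [if_pos hb]
      exact iff_of_true hb rfl
    · rw [if_neg hb]
      exact iff_of_false hb (by norm_num)
  · refine ⟨fun h => absurd (tu_card h) ht, fun h => absurd ?_ ht⟩
    unfold Pool.Agent.TH773.Turan34.turan at h
    exact (mem_powersetCard.mp (mem_filter.mp h).1).2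

theorem f222_card : F222.card = 14 := by decide +kernel

theorem f222_three : ∀ t ∈ F222, t.card = 3 := by decide +kernel

theorem img (f : Fin 6 → Fin n) (t : Finset (Fin 6)) :
    @Finset.image _ _ (fun a b => Classical.propDecidable (a = b)) f t =
      @Finset.image _ _ (instDecidableEqFin n) f t := by
  ext v
  simp only [mem_image]

theorem ind_fourteen (h3 : ∀ e ∈ H, e.card = 3) {S : Finset (Fin n)} (h : Induces F222 H S) :
    (H.filter fun e => e ⊆ S).card = 14 := by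
  obtain ⟨f, hf, hfS', hfe'⟩ := h
  have hfS : univ.image f = S := by rw [← hfS', img]
  have hfe : ∀ t : Finset (Fin 6), t.card = 3 → (t.image f ∈ H ↔ t ∈ F222) := by
    intro t ht
    rw [← hfe' t ht, img]
  clear hfS' hfe'
  have e : (H.filter fun e => e ⊆ S) = F222.image (fun t => t.image f) := by
    ext e
    rw [mem_filter, mem_image]
    constructor
    · rintro ⟨he, heS⟩
      rw [← hfS, subset_image_iff] at heS
      obtain ⟨t, -, rfl⟩ := heS
      have ht : t.card = 3 := by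
        rw [← card_image_of_injective t hf]
        exact h3 _ he
      exact ⟨t, (hfe t ht).mp he, rfl⟩
    · rintro ⟨t, ht, rfl⟩
      refine ⟨(hfe t (f222_three t ht)).mpr ht, ?_⟩
      rw [← hfS]
      exact image_subset_image (subset_univ _)
  rw [e, card_image_of_injective _ (image_injective hf), f222_card]

/-- the bound with a deficit -/
def GS (C D e a b c : ℕ) (H : Finset (Finset (Fin n))) : Prop :=
  n ^ e * D + C * (3 ^ (e + 2) * (a.factorial * (b.factorial * c.factorial)) * (prs3 a b c H).card) ≤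
    C * n ^ (e + 3)

theorem GS.step {C D e a b c : ℕ} (h : GS C D e a b c H) (ha : 1 ≤ a) (hb : 1 ≤ b) (hc : 1 ≤ c) :
    GS C D (e + 3) (a + 1) (b + 1) (c + 1) H := by
  unfold GS at h ⊢
  have hr := rec3 (H := H) a b c ha hb hc
  rw [Nat.factorial_succ, Nat.factorial_succ, Nat.factorial_succ]
  calc n ^ (e + 3) * D + C * (3 ^ (e + 3 + 2) * ((a + 1) * a.factorial * ((b + 1) * b.factorial *
        ((c + 1) * c.factorial))) * (prs3 (a + 1) (b + 1) (c + 1) H).card)
      = n ^ (e + 3) * D + C * (3 ^ (e + 2) * (a.factorial * (b.factorial * c.factorial)) *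
        (27 * ((a + 1) * ((b + 1) * (c + 1)) * (prs3 (a + 1) (b + 1) (c + 1) H).card))) := by
        rw [show e + 3 + 2 = e + 2 + 3 by ring, pow_add 3 (e + 2) 3]; ring
    _ ≤ n ^ (e + 3) * D + C * (3 ^ (e + 2) * (a.factorial * (b.factorial * c.factorial)) *
        ((prs3 a b c H).card * n ^ 3)) :=
        Nat.add_le_add_left (Nat.mul_le_mul_left _ (Nat.mul_le_mul_left _ hr)) _
    _ = (n ^ e * D + C * (3 ^ (e + 2) * (a.factorial * (b.factorial * c.factorial)) *
        (prs3 a b c H).card)) * n ^ 3 := by rw [pow_add n e 3]; ring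
    _ ≤ (C * n ^ (e + 3)) * n ^ 3 := Nat.mul_le_mul_right _ h
    _ = C * n ^ (e + 3 + 3) := by rw [pow_add n (e + 3) 3]; ring

theorem GS.step1 {C D e m : ℕ} (h : GS C D e m m m H) (hm : 1 ≤ m) :
    GS C D (e + 1) (m + 1) m m H := by
  unfold GS at h ⊢
  have hr := rec1 (H := H) m hm
  rw [Nat.factorial_succ]
  calc n ^ (e + 1) * D + C * (3 ^ (e + 1 + 2) * ((m + 1) * m.factorial * (m.factorial *
        m.factorial)) * (prs3 (m + 1) m m H).card)
      = n ^ (e + 1) * D + C * (3 ^ (e + 2) * (m.factorial * (m.factorial * m.factorial)) *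
        (3 * ((m + 1) * (prs3 (m + 1) m m H).card))) := by
        rw [show e + 1 + 2 = e + 2 + 1 by ring, pow_add 3 (e + 2) 1]; ring
    _ ≤ n ^ (e + 1) * D + C * (3 ^ (e + 2) * (m.factorial * (m.factorial * m.factorial)) *
        ((prs3 m m m H).card * n)) :=
        Nat.add_le_add_left (Nat.mul_le_mul_left _ (Nat.mul_le_mul_left _ hr)) _
    _ = (n ^ e * D + C * (3 ^ (e + 2) * (m.factorial * (m.factorial * m.factorial)) *
        (prs3 m m m H).card)) * n := by rw [pow_add n e 1]; ring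
    _ ≤ (C * n ^ (e + 3)) * n := Nat.mul_le_mul_right _ h
    _ = C * n ^ (e + 1 + 3) := by rw [show e + 1 + 3 = e + 3 + 1 by ring, pow_add n (e + 3) 1]; ring

theorem GS.step2 {C D e m : ℕ} (h : GS C D e m m m H) (hm : 1 ≤ m) :
    GS C D (e + 2) (m + 1) (m + 1) m H := by
  unfold GS at h ⊢
  have hr := rec2 (H := H) m hm
  rw [Nat.factorial_succ]
  calc n ^ (e + 2) * D + C * (3 ^ (e + 2 + 2) * ((m + 1) * m.factorial * ((m + 1) * m.factorial *
        m.factorial)) * (prs3 (m + 1) (m + 1) m H).card)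
      = n ^ (e + 2) * D + C * (3 ^ (e + 2) * (m.factorial * (m.factorial * m.factorial)) *
        (9 * ((m + 1) * (m + 1) * (prs3 (m + 1) (m + 1) m H).card))) := by
        rw [pow_add 3 (e + 2) 2]; ring
    _ ≤ n ^ (e + 2) * D + C * (3 ^ (e + 2) * (m.factorial * (m.factorial * m.factorial)) *
        ((prs3 m m m H).card * n ^ 2)) :=
        Nat.add_le_add_left (Nat.mul_le_mul_left _ (Nat.mul_le_mul_left _ hr)) _
    _ = (n ^ e * D + C * (3 ^ (e + 2) * (m.factorial * (m.factorial * m.factorial)) *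
        (prs3 m m m H).card)) * n ^ 2 := by rw [pow_add n e 2]; ring
    _ ≤ (C * n ^ (e + 3)) * n ^ 2 := Nat.mul_le_mul_right _ h
    _ = C * n ^ (e + 2 + 3) := by rw [show e + 2 + 3 = e + 3 + 2 by ring, pow_add n (e + 3) 2]; ring

theorem gs222 (h3 : ∀ e ∈ H, e.card = 3) (hK : K43Free H) :
    ∃ g : Fin n → Fin 3, GS 430080000 (symmDiff H (tu g)).card 3 2 2 2 H := by
  obtain ⟨g, hg⟩ := Pool.Agent.Y850.FA.core h3 hK
  refine ⟨g, ?_⟩
  rw [← tu_turan g] at hg
  have h1 := p222_le (H := H)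
  have h2 : (TT F222 H).card ≤ (((univ : Finset (Fin n)).powersetCard 6).filter fun S =>
        (H.filter fun e => e ⊆ S).card = 14).card := by
    refine card_le_card ?_
    intro S hS
    unfold TT at hS
    rw [mem_filter] at hS ⊢
    exact ⟨hS.1, ind_fourteen h3 hS.2⟩
  have e1 : Nat.factorial 2 = 2 := rfl
  unfold GS
  rw [e1]
  norm_num
  generalize (((univ : Finset (Fin n)).powersetCard 6).filter fun S =>
        (H.filter fun e => e ⊆ S).card = 14).card = N at hg h2
  generalize (TT F222 H).card = M at h1 h2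
  generalize (prs3 2 2 2 H).card = P at h1 ⊢
  omega

theorem pat_sp {A B C : Finset (Fin n)} (h : Pat3 H A B C) (hA : A.card = 3) (hB : B.card = 2)
    (hC : C.card = 1) : Pool.Agent.R470.Tf.Sp H (A ∪ B ∪ C) := by
  have sA : A ⊆ A ∪ B ∪ C := subset_union_left.trans subset_union_left
  have sB : B ⊆ A ∪ B ∪ C := subset_union_right.trans subset_union_left
  have sC : C ⊆ A ∪ B ∪ C := subset_union_right
  refine ⟨by rw [card_un h, hA, hB, hC], pt A B, ?_, ?_, ?_, ?_⟩
  · refine Eq.trans (congrArg card ?_) hA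
    ext v
    rw [mem_filter]
    exact ⟨fun k => ((mem_pt h k.1).1).mpr k.2, fun k => ⟨sA k, ((mem_pt h (sA k)).1).mp k⟩⟩
  · refine Eq.trans (congrArg card ?_) hB
    ext v
    rw [mem_filter]
    exact ⟨fun k => ((mem_pt h k.1).2.1).mpr k.2, fun k => ⟨sB k, ((mem_pt h (sB k)).2.1).mp k⟩⟩
  · refine Eq.trans (congrArg card ?_) hC
    ext v
    rw [mem_filter]
    exact ⟨fun k => ((mem_pt h k.1).2.2).mpr k.2, fun k => ⟨sC k, ((mem_pt h (sC k)).2.2).mp k⟩⟩
  · intro x hx y hy z hz h1 h2 h3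
    have ht := h.tri hx hy hz h1 h2 h3
    rw [R3_rB] at ht
    unfold Pool.Agent.H449R2.Fl.ind Pool.Agent.TH773.ST.Rf
    by_cases hm : Pool.Agent.TH773.ST.rB (pt A B x) (pt A B y) (pt A B z) = true
    · rw [if_pos hm, if_pos (ht.mpr hm)]
    · rw [if_neg hm, if_neg fun k => hm (ht.mp k)]

theorem p321_pats : (prs3 3 2 1 H).card ≤ Pool.Agent.R470.Tf.pats H := by
  unfold Pool.Agent.R470.Tf.pats
  refine card_le_card_of_injOn (fun p => p.1 ∪ p.2.1 ∪ p.2.2) ?_ ?_
  · rintro ⟨A, B, C⟩ hp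
    obtain ⟨h1, h2, h3, h4⟩ := mem_prs3.mp hp
    dsimp only at h1 h2 h3 h4 ⊢
    rw [mem_coe, mem_filter]
    exact ⟨mem_univ _, pat_sp h4 h1 h2 h3⟩
  · rintro ⟨A, B, C⟩ hp ⟨A', B', C'⟩ hp' he
    obtain ⟨h1, h2, h3, h4⟩ := mem_prs3.mp hp
    obtain ⟨k1, k2, k3, k4⟩ := mem_prs3.mp hp'
    dsimp only at h1 h2 h3 h4 k1 k2 k3 k4 he
    obtain ⟨f, hf, hfS, hg⟩ := enum321 h4 h1 h2 h3
    rcases same_div h4 k4 he.symm f hf hfS hg u321 with e | e | e
    · exact e.symm
    · rw [Prod.mk.injEq, Prod.mk.injEq] at e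
      rw [e.1, h3] at k1
      exact absurd k1 (by norm_num)
    · rw [Prod.mk.injEq, Prod.mk.injEq] at e
      rw [e.1, h2] at k1
      exact absurd k1 (by norm_num)

theorem gs321 (h3 : ∀ e ∈ H, e.card = 3) (hK : K43Free H) :
    ∃ g : Fin n → Fin 3, GS 107520 (symmDiff H (tu g)).card 3 3 2 1 H := by
  obtain ⟨g, hg⟩ := Pool.Agent.R470.Tf.core h3 hK
  refine ⟨g, ?_⟩
  rw [← tu_turG g, Fintype.card_fin] at hg
  have h1 := p321_pats (H := H)
  have e1 : Nat.factorial 3 = 6 := rfl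
  have e2 : Nat.factorial 2 = 2 := rfl
  have e3 : Nat.factorial 1 = 1 := rfl
  unfold GS
  rw [e1, e2, e3]
  norm_num
  generalize (prs3 3 2 1 H).card = P at h1 ⊢
  generalize Pool.Agent.R470.Tf.pats H = N at h1 hg
  omega

theorem gs_eq (h3 : ∀ e ∈ H, e.card = 3) (hK : K43Free H) : ∃ g : Fin n → Fin 3, ∀ m : ℕ,
    GS 430080000 (symmDiff H (tu g)).card (3 * m + 3) (m + 2) (m + 2) (m + 2) H := by
  obtain ⟨g, hg⟩ := gs222 h3 hK
  refine ⟨g, fun m => ?_⟩
  induction m with
  | zero => exact hg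
  | succ m ih =>
    have := ih.step (by omega) (by omega) (by omega)
    exact this

theorem gs_st (h3 : ∀ e ∈ H, e.card = 3) (hK : K43Free H) : ∃ g : Fin n → Fin 3, ∀ m : ℕ,
    GS 107520 (symmDiff H (tu g)).card (3 * m + 3) (m + 3) (m + 2) (m + 1) H := by
  obtain ⟨g, hg⟩ := gs321 h3 hK
  refine ⟨g, fun m => ?_⟩
  induction m with
  | zero => exact hg
  | succ m ih =>
    have := ih.step (by omega) (by omega) (by omega)
    exact this

theorem GS.weaken {C C' D e a b c : ℕ} (h : GS C D e a b c H) (h0 : 0 < C) (hC : C ≤ C') :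
    GS C' D e a b c H := by
  unfold GS at h ⊢
  obtain ⟨d, rfl⟩ := Nat.exists_eq_add_of_le hC
  generalize 3 ^ (e + 2) * (a.factorial * (b.factorial * c.factorial)) * (prs3 a b c H).card = X
    at h ⊢
  generalize n ^ (e + 3) = Y at h ⊢
  have h1 : X ≤ Y := Nat.le_of_mul_le_mul_left ((Nat.le_add_left _ _).trans h) h0
  calc n ^ e * D + (C + d) * X = (n ^ e * D + C * X) + d * X := by ring
    _ ≤ C * Y + d * Y := Nat.add_le_add h (Nat.mul_le_mul_left _ h1)
    _ = (C + d) * Y := by ring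

/-- the bound with a deficit for all nearly balanced patterns -/
theorem gs_all (h3 : ∀ e ∈ H, e.card = 3) (hK : K43Free H) (a b c : ℕ) (h6 : 6 ≤ a + b + c)
    (hcb : c ≤ b) (hbc : b ≤ c + 1) (hba : b ≤ a) (hab : a ≤ b + 1) : ∃ g : Fin n → Fin 3,
    GS 430080000 (symmDiff H (tu g)).card (a + b + c - 3) a b c H := by
  rcases Nat.lt_or_ge b (c + 1) with hb | hb
  · obtain rfl : b = c := by omega
    obtain ⟨m, rfl⟩ : ∃ m, b = m + 2 := ⟨b - 2, by omega⟩
    obtain ⟨g, hg⟩ := gs_eq h3 hK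
    refine ⟨g, ?_⟩
    rcases Nat.lt_or_ge a (m + 2 + 1) with ha | ha
    · obtain rfl : a = m + 2 := by omega
      rw [show m + 2 + (m + 2) + (m + 2) - 3 = 3 * m + 3 by omega]
      exact hg m
    · obtain rfl : a = m + 2 + 1 := by omega
      rw [show m + 2 + 1 + (m + 2) + (m + 2) - 3 = 3 * m + 3 + 1 by omega]
      exact (hg m).step1 (by omega)
  · obtain rfl : b = c + 1 := by omega
    rcases Nat.lt_or_ge a (c + 1 + 1) with ha | ha
    · obtain rfl : a = c + 1 := by omega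
      obtain ⟨m, rfl⟩ : ∃ m, c = m + 2 := ⟨c - 2, by omega⟩
      obtain ⟨g, hg⟩ := gs_eq h3 hK
      refine ⟨g, ?_⟩
      rw [show m + 2 + 1 + (m + 2 + 1) + (m + 2) - 3 = 3 * m + 3 + 2 by omega]
      exact (hg m).step2 (by omega)
    · obtain rfl : a = c + 1 + 1 := by omega
      obtain ⟨m, rfl⟩ : ∃ m, c = m + 1 := ⟨c - 1, by omega⟩
      obtain ⟨g, hg⟩ := gs_st h3 hK
      refine ⟨g, ?_⟩
      rw [show m + 1 + 1 + 1 + (m + 1 + 1) + (m + 1) - 3 = 3 * m + 3 by omega]
      exact (hg m).weaken (by norm_num) (by norm_num)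

section nonind

/-- the triples of the construction with the parts `A`, `B`, `C` are in `H` -/
def Cp (H : Finset (Finset (Fin n))) (A B C : Finset (Fin n)) : Prop :=
  Disjoint A B ∧ Disjoint B C ∧ Disjoint C A ∧
    ∀ t ⊆ A ∪ B ∪ C, t.card = 3 → Ed A B C t → t ∈ H

theorem k4_contra (hK : K43Free H) {x y z v : Fin n} (hxy : x ≠ y) (hxz : x ≠ z) (hxv : x ≠ v)
    (hyz : y ≠ z) (hyv : y ≠ v) (hzv : z ≠ v) (h1 : {x, y, z} ∈ H) (h2 : {x, y, v} ∈ H)
    (h3 : {x, z, v} ∈ H) (h4 : {y, z, v} ∈ H) : False := by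
  have c4 : ({x, y, z, v} : Finset (Fin n)).card = 4 := by
    rw [card_insert_of_notMem (by simp [hxy, hxz, hxv]), card_insert_of_notMem (by simp [hyz, hyv]),
      card_pair hzv]
  obtain ⟨s, hs, hc, hn⟩ := hK {x, y, z, v} c4
  have key : ∀ (w : Fin n) (T : Finset (Fin n)), w ∉ s →
      (∀ u, u = x ∨ u = y ∨ u = z ∨ u = v → u = w ∨ u ∈ T) → T.card = 3 → s = T := by
    intro w T hw hT hT3
    refine eq_of_subset_of_card_le (fun u hu => ?_) (by rw [hc, hT3])
    have hu' := hs hu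
    simp only [mem_insert, mem_singleton] at hu'
    rcases hT u hu' with rfl | h
    · exact absurd hu hw
    · exact h
  by_cases ax : x ∈ s
  · by_cases ay : y ∈ s
    · by_cases az : z ∈ s
      · by_cases av : v ∈ s
        · have hsub : ({x, y, z, v} : Finset (Fin n)) ⊆ s := by
            intro u hu
            simp only [mem_insert, mem_singleton] at hu
            rcases hu with rfl | rfl | rfl | rfl <;> assumption
          have := card_le_card hsub
          omega
        · refine hn ?_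
          rw [key v {x, y, z} av (by intro u hu; simp only [mem_insert, mem_singleton]; tauto)
            (card_eq_three.mpr ⟨x, y, z, hxy, hxz, hyz, rfl⟩)]
          exact h1
      · refine hn ?_
        rw [key z {x, y, v} az (by intro u hu; simp only [mem_insert, mem_singleton]; tauto)
          (card_eq_three.mpr ⟨x, y, v, hxy, hxv, hyv, rfl⟩)]
        exact h2
    · refine hn ?_
      rw [key y {x, z, v} ay (by intro u hu; simp only [mem_insert, mem_singleton]; tauto)
        (card_eq_three.mpr ⟨x, z, v, hxz, hxv, hzv, rfl⟩)]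
      exact h3
  · refine hn ?_
    rw [key x {y, z, v} ax (by intro u hu; simp only [mem_insert, mem_singleton]; tauto)
      (card_eq_three.mpr ⟨y, z, v, hyz, hyv, hzv, rfl⟩)]
    exact h4

theorem R3_ext : ∀ i j k : Fin 3, R3 i j k = false → ∃ l : Fin 3, l ≠ i ∧ l ≠ j ∧ l ≠ k ∧
    R3 i j l = true ∧ R3 i k l = true ∧ R3 j k l = true := by decide

/-- in a `K_4^3`-free 3-graph the non-edges of the construction are forced -/
theorem Cp.pat (hK : K43Free H) {A B C : Finset (Fin n)} (h : Cp H A B C) (hA : A.Nonempty)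
    (hB : B.Nonempty) (hC : C.Nonempty) : Pat3 H A B C := by
  obtain ⟨h1, h2, h3, h4⟩ := h
  refine ⟨h1, h2, h3, fun t ht hc => ⟨fun hm => ?_, h4 t ht hc⟩⟩
  obtain ⟨x, y, z, hxy, hxz, hyz, rfl⟩ := card_eq_three.mp hc
  have hx : x ∈ A ∪ B ∪ C := ht (by simp)
  have hy : y ∈ A ∪ B ∪ C := ht (by simp)
  have hz : z ∈ A ∪ B ∪ C := ht (by simp)
  rw [ed_pt h1 h2 h3 hx hy hz hxy hxz hyz]
  by_contra hn
  rw [Bool.not_eq_true] at hn
  obtain ⟨l, li, lj, lk, l1, l2, l3⟩ := R3_ext _ _ _ hn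
  obtain ⟨v, hv, hvl⟩ : ∃ v ∈ A ∪ B ∪ C, pt A B v = l := by
    obtain ⟨a, ha⟩ := hA
    obtain ⟨b, hb⟩ := hB
    obtain ⟨c, hc⟩ := hC
    have e0 : pt A B a = 0 := by unfold pt; rw [if_pos ha]
    have e1 : pt A B b = 1 := by
      unfold pt; rw [if_neg (disjoint_right.mp h1 hb), if_pos hb]
    have e2 : pt A B c = 2 := by
      unfold pt; rw [if_neg (disjoint_left.mp h3 hc), if_neg (disjoint_right.mp h2 hc)]
    fin_cases l
    · exact ⟨a, mem_union_left _ (mem_union_left _ ha), e0⟩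
    · exact ⟨b, mem_union_left _ (mem_union_right _ hb), e1⟩
    · exact ⟨c, mem_union_right _ hc, e2⟩
  have hxv : x ≠ v := fun e => li (by rw [← hvl, ← e])
  have hyv : y ≠ v := fun e => lj (by rw [← hvl, ← e])
  have hzv : z ≠ v := fun e => lk (by rw [← hvl, ← e])
  have key : ∀ p ∈ A ∪ B ∪ C, ∀ q ∈ A ∪ B ∪ C, p ≠ q → p ≠ v → q ≠ v →
      R3 (pt A B p) (pt A B q) l = true → ({p, q, v} : Finset (Fin n)) ∈ H := by
    intro p hp q hq n1 n2 n3 hr
    refine h4 _ ?_ (card_eq_three.mpr ⟨p, q, v, n1, n2, n3, rfl⟩) ?_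
    · intro u hu
      simp only [mem_insert, mem_singleton] at hu
      rcases hu with rfl | rfl | rfl <;> assumption
    · rw [ed_pt h1 h2 h3 hp hq hv n1 n2 n3, hvl]
      exact hr
  exact k4_contra hK hxy hxz hxv hyz hyv hzv hm (key x hx y hy hxy hxv hyv l1)
    (key x hx z hz hxz hxv hzv l2) (key y hy z hz hyz hyv hzv l3)

/-- copies of the construction, not necessarily induced -/
noncomputable def cps (a b c : ℕ) (H : Finset (Finset (Fin n))) :
    Finset (Finset (Fin n) × Finset (Fin n) × Finset (Fin n)) :=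
  univ.filter fun p => p.1.card = a ∧ p.2.1.card = b ∧ p.2.2.card = c ∧ Cp H p.1 p.2.1 p.2.2

theorem cps_eq (hK : K43Free H) {a b c : ℕ} (ha : 1 ≤ a) (hb : 1 ≤ b) (hc : 1 ≤ c) :
    cps a b c H = prs3 a b c H := by
  ext p
  unfold cps prs3
  rw [mem_filter, mem_filter]
  constructor
  · rintro ⟨-, h1, h2, h3, h4⟩
    exact ⟨mem_univ _, h1, h2, h3, h4.pat hK (nonempty_of_card h1 ha) (nonempty_of_card h2 hb)
      (nonempty_of_card h3 hc)⟩
  · rintro ⟨-, h1, h2, h3, h4⟩
    exact ⟨mem_univ _, h1, h2, h3, h4.1, h4.2.1, h4.2.2.1, fun t ht hc he =>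
      (h4.2.2.2 t ht hc).mpr he⟩

end nonind

end Pool.Agent.R170.FA.P3
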