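import Pool.Agent.R170.FA.Use

/-! Complete bipartite patterns: from parts of sizes `a`, `b` to parts of sizes `a + 1`, `b + 1`. -/

set_option autoImplicit false
open Finset
open scoped Classical

namespace Pool.Agent.R170.FA
open Pool.Agent.H122R2.K5

variable {n : ℕ} {H : Finset (Finset (Fin n))}

/-- the triples of `A ∪ B` in `H` are those which meet both `A` and `B` -/
def Pat (H : Finset (Finset (Fin n))) (A B : Finset (Fin n)) : Prop :=
  Disjoint A B ∧ ∀ t ⊆ A ∪ B, t.card = 3 → (t ∈ H ↔ ¬ t ⊆ A ∧ ¬ t ⊆ B)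

theorem Pat.mono {A B A' B' : Finset (Fin n)} (h : Pat H A' B') (hA : A ⊆ A') (hB : B ⊆ B') :
    Pat H A B := by
  refine ⟨disjoint_of_subset_left hA (disjoint_of_subset_right hB h.1), fun t ht h3 => ?_⟩
  rw [h.2 t (ht.trans (union_subset_union hA hB)) h3]
  have e1 : t ⊆ A ↔ t ⊆ A' := ⟨fun k => k.trans hA, fun k x hx => by
    rcases mem_union.mp (ht hx) with h' | h'
    · exact h'
    · exact absurd (hB h') (disjoint_left.mp h.1 (k hx))⟩
  have e2 : t ⊆ B ↔ t ⊆ B' := ⟨fun k => k.trans hB, fun k x hx => by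
    rcases mem_union.mp (ht hx) with h' | h'
    · exact absurd (k hx) (disjoint_left.mp h.1 (hA h'))
    · exact h'⟩
  rw [e1, e2]

theorem Pat.symm {A B : Finset (Fin n)} (h : Pat H A B) : Pat H B A :=
  ⟨h.1.symm, fun t ht h3 => by rw [h.2 t (by rw [union_comm]; exact ht) h3, and_comm]⟩

/-- the pairs of vertex sets of sizes `a` and `b` which span a complete bipartite pattern -/
noncomputable def prs (a b : ℕ) (H : Finset (Finset (Fin n))) :
    Finset (Finset (Fin n) × Finset (Fin n)) :=
  ((univ : Finset (Fin n)).powersetCard a ×ˢ (univ : Finset (Fin n)).powersetCard b).filter fun p =>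
    Pat H p.1 p.2

theorem mem_prs {a b : ℕ} {p : Finset (Fin n) × Finset (Fin n)} :
    p ∈ prs a b H ↔ (p.1.card = a ∧ p.2.card = b) ∧ Pat H p.1 p.2 := by
  unfold prs
  rw [mem_filter, mem_product, mem_powersetCard, mem_powersetCard]
  constructor
  · rintro ⟨⟨⟨-, h1⟩, -, h2⟩, h3⟩
    exact ⟨⟨h1, h2⟩, h3⟩
  · rintro ⟨⟨h1, h2⟩, h3⟩
    exact ⟨⟨⟨subset_univ _, h1⟩, subset_univ _, h2⟩, h3⟩

/-- the vertices which can join the first part -/
noncomputable def nA (H : Finset (Finset (Fin n))) (p : Finset (Fin n) × Finset (Fin n)) :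
    Finset (Fin n) := univ.filter fun v => v ∉ p.1 ∧ v ∉ p.2 ∧ Pat H (insert v p.1) p.2
/-- the vertices which can join the second part -/
noncomputable def nB (H : Finset (Finset (Fin n))) (p : Finset (Fin n) × Finset (Fin n)) :
    Finset (Fin n) := univ.filter fun v => v ∉ p.1 ∧ v ∉ p.2 ∧ Pat H p.1 (insert v p.2)

theorem nA_nB {p : Finset (Fin n) × Finset (Fin n)} (h2 : 2 ≤ p.2.card) :
    Disjoint (nA H p) (nB H p) := by
  rw [disjoint_left]
  intro v hv hv'
  obtain ⟨-, hvA, hvB, hP⟩ := mem_filter.mp hv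
  obtain ⟨-, -, -, hQ⟩ := mem_filter.mp hv'
  obtain ⟨x, hx, y, hy, hxy⟩ := one_lt_card.mp h2
  have hvx : v ≠ x := fun h => hvB (h ▸ hx)
  have hvy : v ≠ y := fun h => hvB (h ▸ hy)
  have hc : ({v, x, y} : Finset (Fin n)).card = 3 := card_eq_three.mpr ⟨v, x, y, hvx, hvy, hxy, rfl⟩
  have hsub : ({v, x, y} : Finset (Fin n)) ⊆ insert v p.2 := by
    intro z hz
    simp only [mem_insert, mem_singleton] at hz
    rcases hz with rfl | rfl | rfl
    · exact mem_insert_self _ _
    · exact mem_insert_of_mem hx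
    · exact mem_insert_of_mem hy
  have hin : ({v, x, y} : Finset (Fin n)) ∈ H := by
    rw [hP.2 _ ?_ hc]
    · constructor
      · intro h
        have hx' : x ∈ insert v p.1 := h (mem_insert_of_mem (mem_insert_self _ _))
        exact (disjoint_left.mp hP.1 hx') hx
      · intro h
        exact hvB (h (mem_insert_self _ _))
    · intro z hz
      simp only [mem_insert, mem_singleton] at hz
      rcases hz with rfl | rfl | rfl
      · exact mem_union_left _ (mem_insert_self _ _)
      · exact mem_union_right _ hx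
      · exact mem_union_right _ hy
  rw [hQ.2 _ (hsub.trans subset_union_right) hc] at hin
  exact hin.2 hsub

theorem four_mul_le {p : Finset (Fin n) × Finset (Fin n)} (h2 : 2 ≤ p.2.card) :
    4 * ((nA H p).card * (nB H p).card) ≤ n ^ 2 := by
  have h := card_union_of_disjoint (nA_nB (H := H) h2)
  have h3 := card_le_univ (nA H p ∪ nB H p)
  rw [Fintype.card_fin, h] at h3
  calc 4 * ((nA H p).card * (nB H p).card) ≤ ((nA H p).card + (nB H p).card) ^ 2 := by
        nlinarith [sq_nonneg (((nA H p).card : ℤ) - (nB H p).card),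
          Nat.mul_self_le_mul_self (le_refl (nA H p).card),
          four_mul_le_sq_add (nA H p).card (nB H p).card]
    _ ≤ n ^ 2 := Nat.pow_le_pow_left h3 2

theorem rec_le (a b : ℕ) (hb : 2 ≤ b) :
    4 * ((a + 1) * (b + 1)) * (prs (a + 1) (b + 1) H).card ≤ (prs a b H).card * n ^ 2 := by
  set D := (prs (a + 1) (b + 1) H).sigma (fun p => p.1 ×ˢ p.2) with hD
  set E := (prs a b H).sigma (fun p => nA H p ×ˢ nB H p) with hE
  have hDc : D.card = (prs (a + 1) (b + 1) H).card * ((a + 1) * (b + 1)) := by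
    rw [hD, card_sigma, ← smul_eq_mul, ← sum_const]
    refine sum_congr rfl fun p hp => ?_
    obtain ⟨⟨h1, h2⟩, -⟩ := mem_prs.mp hp
    rw [card_product, h1, h2]
  have hDE : D.card ≤ E.card := by
    refine card_le_card_of_injOn (fun q => ⟨(q.1.1.erase q.2.1, q.1.2.erase q.2.2), q.2⟩) ?_ ?_
    · rintro ⟨⟨A, B⟩, v, w⟩ hq
      rw [mem_coe, hD, mem_sigma, mem_product] at hq
      obtain ⟨hp, hv, hw⟩ := hq
      obtain ⟨⟨h1, h2⟩, hP⟩ := mem_prs.mp hp
      dsimp only at hp hv hw h1 h2 hP
      rw [mem_coe, hE, mem_sigma, mem_product]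
      have hvB : v ∉ B := disjoint_left.mp hP.1 hv
      have hwA : w ∉ A := disjoint_right.mp hP.1 hw
      refine ⟨?_, ?_, ?_⟩
      · rw [mem_prs]
        refine ⟨⟨?_, ?_⟩, hP.mono (erase_subset _ _) (erase_subset _ _)⟩
        · show (A.erase v).card = a
          rw [card_erase_of_mem hv, h1]; rfl
        · show (B.erase w).card = b
          rw [card_erase_of_mem hw, h2]; rfl
      · show v ∈ nA H (A.erase v, B.erase w)
        unfold nA
        rw [mem_filter]
        refine ⟨mem_univ _, notMem_erase _ _, fun h => hvB (mem_of_mem_erase h), ?_⟩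
        dsimp only
        rw [insert_erase hv]
        exact hP.mono (Subset.refl _) (erase_subset _ _)
      · show w ∈ nB H (A.erase v, B.erase w)
        unfold nB
        rw [mem_filter]
        refine ⟨mem_univ _, fun h => hwA (mem_of_mem_erase h), notMem_erase _ _, ?_⟩
        dsimp only
        rw [insert_erase hw]
        exact hP.mono (erase_subset _ _) (Subset.refl _)
    · rintro ⟨⟨A, B⟩, v, w⟩ hq ⟨⟨A', B'⟩, v', w'⟩ hq' h
      rw [mem_coe, hD, mem_sigma, mem_product] at hq hq'
      obtain ⟨-, hv, hw⟩ := hq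
      obtain ⟨-, hv', hw'⟩ := hq'
      dsimp only at hv hw hv' hw' h
      rw [Sigma.mk.injEq] at h
      obtain ⟨h1, h2⟩ := h
      have h3 := eq_of_heq h2
      rw [Prod.mk.injEq] at h1 h3
      obtain ⟨rfl, rfl⟩ := h3
      have e1 : A = A' := by rw [← insert_erase hv, h1.1, insert_erase hv']
      have e2 : B = B' := by rw [← insert_erase hw, h1.2, insert_erase hw']
      subst e1
      subst e2
      rfl
  have hEc : 4 * E.card ≤ (prs a b H).card * n ^ 2 := by
    rw [hE, card_sigma, mul_sum, ← smul_eq_mul, ← sum_const]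
    refine sum_le_sum fun p hp => ?_
    obtain ⟨⟨-, h2⟩, -⟩ := mem_prs.mp hp
    rw [card_product]
    exact four_mul_le (by omega)
  calc 4 * ((a + 1) * (b + 1)) * (prs (a + 1) (b + 1) H).card = 4 * D.card := by rw [hDc]; ring
    _ ≤ 4 * E.card := Nat.mul_le_mul_left _ hDE
    _ ≤ _ := hEc

/-- the numbers of patterns with larger parts in terms of those with smaller parts -/
theorem iter_mul (a b : ℕ) (hb : 2 ≤ b) (i : ℕ) :
    2 ^ ((a + i) + (b + i)) * ((a + i).factorial * (b + i).factorial) * (prs (a + i) (b + i) H).card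
      ≤ 2 ^ (a + b) * (a.factorial * b.factorial) * (prs a b H).card * n ^ (2 * i) := by
  induction i with
  | zero => simp
  | succ i ih =>
    have hr := rec_le (H := H) (a + i) (b + i) (by omega)
    have e1 : a + (i + 1) = (a + i) + 1 := by ring
    have e2 : b + (i + 1) = (b + i) + 1 := by ring
    rw [e1, e2, Nat.factorial_succ, Nat.factorial_succ]
    calc 2 ^ (a + i + 1 + (b + i + 1)) * ((a + i + 1) * (a + i).factorial *
          ((b + i + 1) * (b + i).factorial)) * (prs (a + i + 1) (b + i + 1) H).card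
        = 2 ^ (a + i + (b + i)) * ((a + i).factorial * (b + i).factorial) *
          (4 * ((a + i + 1) * (b + i + 1)) * (prs (a + i + 1) (b + i + 1) H).card) := by
          rw [show a + i + 1 + (b + i + 1) = a + i + (b + i) + 2 by ring, pow_add]; ring
      _ ≤ 2 ^ (a + i + (b + i)) * ((a + i).factorial * (b + i).factorial) *
          ((prs (a + i) (b + i) H).card * n ^ 2) := Nat.mul_le_mul_left _ hr
      _ = (2 ^ (a + i + (b + i)) * ((a + i).factorial * (b + i).factorial) *
          (prs (a + i) (b + i) H).card) * n ^ 2 := by ring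
      _ ≤ (2 ^ (a + b) * (a.factorial * b.factorial) * (prs a b H).card * n ^ (2 * i)) * n ^ 2 :=
          Nat.mul_le_mul_right _ ih
      _ = _ := by rw [show 2 * (i + 1) = 2 * i + 2 by ring, pow_add n (2 * i) 2]; ring

/-- a part with at least three vertices lies inside a part of every other division -/
theorem part_sub {A B C D : Finset (Fin n)} (h : Pat H A B) (h' : Pat H C D) (hU : A ∪ B = C ∪ D)
    (hB : 3 ≤ B.card) : B ⊆ C ∨ B ⊆ D := by
  by_contra hcon
  push Not at hcon
  obtain ⟨hC, hD⟩ := hcon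
  obtain ⟨x, hx, hxC⟩ := not_subset.mp hC
  obtain ⟨y, hy, hyD⟩ := not_subset.mp hD
  have hxU : x ∈ C ∪ D := hU ▸ mem_union_right _ hx
  have hyU : y ∈ C ∪ D := hU ▸ mem_union_right _ hy
  have hxD : x ∈ D := (mem_union.mp hxU).resolve_left hxC
  have hyC : y ∈ C := (mem_union.mp hyU).resolve_right hyD
  have hxy : x ≠ y := fun e => hyD (e ▸ hxD)
  obtain ⟨z, hz, hzn⟩ : ∃ z ∈ B, z ∉ ({x, y} : Finset (Fin n)) := by
    by_contra hcon
    push Not at hcon
    have h1 := card_le_card (show B ⊆ {x, y} from hcon)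
    rw [card_pair hxy] at h1
    omega
  simp only [mem_insert, mem_singleton, not_or] at hzn
  have hc : ({x, y, z} : Finset (Fin n)).card = 3 :=
    card_eq_three.mpr ⟨x, y, z, hxy, fun e => hzn.1 e.symm, fun e => hzn.2 e.symm, rfl⟩
  have hs : ({x, y, z} : Finset (Fin n)) ⊆ B := by
    intro t ht
    simp only [mem_insert, mem_singleton] at ht
    rcases ht with rfl | rfl | rfl
    exacts [hx, hy, hz]
  have h1 : ({x, y, z} : Finset (Fin n)) ∈ H := by
    rw [h'.2 _ (hU ▸ hs.trans subset_union_right) hc]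
    exact ⟨fun k => hxC (k (mem_insert_self _ _)),
      fun k => hyD (k (mem_insert_of_mem (mem_insert_self _ _)))⟩
  rw [h.2 _ (hs.trans subset_union_right) hc] at h1
  exact h1.2 hs

theorem other_part {A B C : Finset (Fin n)} (h : Disjoint A B) (h' : Disjoint C B)
    (hU : A ∪ B = C ∪ B) : A = C := by
  have e1 : (A ∪ B) \ B = A := by rw [union_sdiff_right, sdiff_eq_self_of_disjoint h]
  have e2 : (C ∪ B) \ B = C := by rw [union_sdiff_right, sdiff_eq_self_of_disjoint h']
  rw [← e1, hU, e2]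

/-- a division is unique up to the order of the parts -/
theorem pat_unique {A B C D : Finset (Fin n)} (h : Pat H A B) (h' : Pat H C D) (hU : A ∪ B = C ∪ D)
    (hB : 3 ≤ B.card) (hBD : B.card = D.card) (hAC : A.card = C.card) (hab : A.card ≤ B.card) :
    (A, B) = (C, D) ∨ (A, B) = (D, C) ∧ A.card = B.card := by
  rcases part_sub h h' hU hB with h1 | h1
  · right
    have e : B = C := eq_of_subset_of_card_le h1 (by omega)
    have e2 : A = D := by
      refine other_part h.1 ?_ (by rw [hU, e, union_comm])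
      rw [e]; exact h'.1.symm
    refine ⟨by rw [e, e2], ?_⟩
    rw [hAC, e]
  · left
    have e : B = D := eq_of_subset_of_card_le h1 (by omega)
    have e2 : A = C := other_part h.1 (by rw [e]; exact h'.1) (by rw [hU, e])
    rw [e, e2]

theorem prs_le_lt {a b : ℕ} (hb : 3 ≤ b) (hab : a < b) (T : Finset (Finset (Fin n)))
    (hT : ∀ A B : Finset (Fin n), A.card = a → B.card = b → Pat H A B → A ∪ B ∈ T) :
    (prs a b H).card ≤ T.card := by
  refine card_le_card_of_injOn (fun p => p.1 ∪ p.2) ?_ ?_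
  · intro p hp
    obtain ⟨⟨h1, h2⟩, h3⟩ := mem_prs.mp hp
    exact hT _ _ h1 h2 h3
  · intro p hp q hq h
    obtain ⟨⟨h1, h2⟩, h3⟩ := mem_prs.mp hp
    obtain ⟨⟨k1, k2⟩, k3⟩ := mem_prs.mp hq
    rcases pat_unique h3 k3 h (by omega) (by omega) (by omega) (by omega) with e | ⟨-, e⟩
    · exact e
    · omega

theorem prs_le_eq {a : ℕ} (hb : 3 ≤ a) (T : Finset (Finset (Fin n)))
    (hT : ∀ A B : Finset (Fin n), A.card = a → B.card = a → Pat H A B → A ∪ B ∈ T) :
    (prs a a H).card ≤ 2 * T.card := by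
  have h1 : (prs a a H).card ≤ 2 * ((prs a a H).image (fun p => p.1 ∪ p.2)).card := by
    refine card_le_mul_card_image _ 2 ?_
    intro S hS
    obtain ⟨p, hp, rfl⟩ := mem_image.mp hS
    obtain ⟨⟨h1, h2⟩, h3⟩ := mem_prs.mp hp
    have hsub : (prs a a H).filter (fun x => x.1 ∪ x.2 = p.1 ∪ p.2) ⊆ {(p.1, p.2), (p.2, p.1)} := by
      intro q hq
      obtain ⟨hq1, hq2⟩ := mem_filter.mp hq
      obtain ⟨⟨k1, k2⟩, k3⟩ := mem_prs.mp hq1
      rw [mem_insert, mem_singleton]
      rcases pat_unique k3 h3 hq2 (by omega) (by omega) (by omega) (by omega) with e | ⟨e, -⟩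
      · left; exact e
      · right; exact e
    exact (card_le_card hsub).trans card_le_two
  refine h1.trans (Nat.mul_le_mul_left _ (card_le_card ?_))
  intro S hS
  obtain ⟨p, hp, rfl⟩ := mem_image.mp hS
  obtain ⟨⟨h1, h2⟩, h3⟩ := mem_prs.mp hp
  exact hT _ _ h1 h2 h3

theorem Pat.split {a : ℕ} {A B : Finset (Fin n)} (h : Pat H A B) (ha : A.card = a) :
    Split a H (A ∪ B) := by
  refine ⟨A, subset_union_left, ha, fun t ht h3 => ?_⟩
  have e : (A ∪ B) \ A = B := by rw [union_sdiff_left, sdiff_eq_self_of_disjoint h.1.symm]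
  rw [e]
  exact h.2 t ht h3

theorem Pat.card_union {a b : ℕ} {A B : Finset (Fin n)} (h : Pat H A B) (ha : A.card = a)
    (hb : B.card = b) : A ∪ B ∈ (univ : Finset (Fin n)).powersetCard (a + b) := by
  rw [mem_powersetCard, card_union_of_disjoint h.1, ha, hb]
  exact ⟨subset_univ _, rfl⟩

/-- patterns in the complete bipartite 3-graph -/
theorem bip_pat {m : ℕ} {A B : Finset (Fin (2 * m))} (hA : A ⊆ PA (2 * m) m)
    (hB : B ⊆ PB (2 * m) m) : Pat (bip (2 * m) m) A B := by
  have hd : Disjoint A B := disjoint_left.mpr fun x hx hy => not_both _ m x (hA hx) (hB hy)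
  refine ⟨hd, fun t ht h3 => ?_⟩
  unfold bip
  rw [mem_filter, mem_powersetCard]
  have e1 : t ⊆ PA (2 * m) m ↔ t ⊆ A := ⟨fun k x hx => by
    rcases mem_union.mp (ht hx) with h | h
    · exact h
    · exact absurd (hB h) (fun h' => not_both _ m x (k hx) h'), fun k => k.trans hA⟩
  have e2 : t ⊆ PB (2 * m) m ↔ t ⊆ B := ⟨fun k x hx => by
    rcases mem_union.mp (ht hx) with h | h
    · exact absurd (hA h) (fun h' => not_both _ m x h' (k hx))
    · exact h, fun k => k.trans hB⟩
  rw [e1, e2]
  exact ⟨fun h => h.2, fun h => ⟨⟨subset_univ _, h3⟩, h⟩⟩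

theorem prs_low (m a b : ℕ) (ha : 1 ≤ a) :
    2 * (m.choose a * m.choose b) ≤ (prs a b (bip (2 * m) m)).card := by
  set U := (PA (2 * m) m).powersetCard a ×ˢ (PB (2 * m) m).powersetCard b with hU
  set W := (PB (2 * m) m).powersetCard a ×ˢ (PA (2 * m) m).powersetCard b with hW
  have h1 : U.card = m.choose a * m.choose b := by
    rw [hU, card_product, card_powersetCard, card_powersetCard, card_PA, card_PB]
  have h2 : W.card = m.choose a * m.choose b := by
    rw [hW, card_product, card_powersetCard, card_powersetCard, card_PA, card_PB]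
  have hd : Disjoint U W := by
    rw [disjoint_left]
    intro p hp hp'
    rw [hU, mem_product, mem_powersetCard, mem_powersetCard] at hp
    rw [hW, mem_product, mem_powersetCard, mem_powersetCard] at hp'
    obtain ⟨x, hx⟩ : p.1.Nonempty := by rw [← card_pos, hp.1.2]; exact ha
    exact not_both _ m x (hp.1.1 hx) (hp'.1.1 hx)
  have h3 : U ∪ W ⊆ prs a b (bip (2 * m) m) := by
    intro p hp
    rw [mem_prs]
    rcases mem_union.mp hp with h | h
    · rw [hU, mem_product, mem_powersetCard, mem_powersetCard] at h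
      exact ⟨⟨h.1.2, h.2.2⟩, bip_pat h.1.1 h.2.1⟩
    · rw [hW, mem_product, mem_powersetCard, mem_powersetCard] at h
      exact ⟨⟨h.1.2, h.2.2⟩, (bip_pat h.2.1 h.1.1).symm⟩
  have h4 := card_le_card h3
  rw [card_union_of_disjoint hd, h1, h2] at h4
  omega

end Pool.Agent.R170.FA
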