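import Pool.Agent.R170.FA.Cnt

/-! Use of the certificates: the sum of the right sides, and the complete bipartite 3-graph. -/

set_option autoImplicit false
set_option maxRecDepth 100000
set_option maxHeartbeats 4000000
open Finset
open scoped Classical

namespace Pool.Agent.R170.FA
open Pool.Agent.H122R2.N6 Pool.Agent.H37R3.Pen Pool.Agent.H37R3.Cop Pool.Agent.Y580.FL
open Pool.Agent.H122R2.K5

variable {n : ℕ}

theorem eqb_le (x y : ℕ) : eqb x y ≤ 1 := by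
  unfold eqb
  cases Nat.beq x y <;> simp

theorem gm_le (m : ℕ) (b012 b013 b023 b123 b014 b024 b124 b034 b134 b234 b015 b025 b125 b035 b135 b235 b045 b145 b245 b345 : ℕ) : gm m b012 b013 b023 b123 b014 b024 b124 b034 b134 b234 b015 b025 b125 b035 b135 b235 b045 b145 b245 b345 ≤ 15 := by
  unfold gm
  exact (eqb_le _ _).trans (by norm_num)

theorem g24_le (b012 b013 b023 b123 b014 b024 b124 b034 b134 b234 b015 b025 b125 b035 b135 b235 b045 b145 b245 b345 : ℕ) : g24 b012 b013 b023 b123 b014 b024 b124 b034 b134 b234 b015 b025 b125 b035 b135 b235 b045 b145 b245 b345 ≤ 15 := by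
  unfold g24
  refine (Nat.mul_le_mul (eqb_le _ _) (?_ : _ ≤ 15)).trans (by norm_num)
  simp only [Nat.add_eq]
  repeat' first
    | exact eqb_le _ _
    | refine Nat.add_le_add (eqb_le _ _) (?_ : _ ≤ 14)
    | refine Nat.add_le_add (eqb_le _ _) (?_ : _ ≤ 13)
    | refine Nat.add_le_add (eqb_le _ _) (?_ : _ ≤ 12)
    | refine Nat.add_le_add (eqb_le _ _) (?_ : _ ≤ 11)
    | refine Nat.add_le_add (eqb_le _ _) (?_ : _ ≤ 10)
    | refine Nat.add_le_add (eqb_le _ _) (?_ : _ ≤ 9)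
    | refine Nat.add_le_add (eqb_le _ _) (?_ : _ ≤ 8)
    | refine Nat.add_le_add (eqb_le _ _) (?_ : _ ≤ 7)
    | refine Nat.add_le_add (eqb_le _ _) (?_ : _ ≤ 6)
    | refine Nat.add_le_add (eqb_le _ _) (?_ : _ ≤ 5)
    | refine Nat.add_le_add (eqb_le _ _) (?_ : _ ≤ 4)
    | refine Nat.add_le_add (eqb_le _ _) (?_ : _ ≤ 3)
    | refine Nat.add_le_add (eqb_le _ _) (?_ : _ ≤ 2)
    | refine Nat.add_le_add (eqb_le _ _) (?_ : _ ≤ 1)

theorem gst6_le (b012 b013 b023 b123 b014 b024 b124 b034 b134 b234 b015 b025 b125 b035 b135 b235 b045 b145 b245 b345 : ℕ) : gst6 b012 b013 b023 b123 b014 b024 b124 b034 b134 b234 b015 b025 b125 b035 b135 b235 b045 b145 b245 b345 ≤ 15 := by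
  unfold gst6
  refine (Nat.mul_le_mul (eqb_le _ _) (?_ : _ ≤ 6)).trans (by norm_num)
  refine Nat.add_le_add (eqb_le _ _) (?_ : _ ≤ 5)
  refine Nat.add_le_add (eqb_le _ _) (?_ : _ ≤ 4)
  refine Nat.add_le_add (eqb_le _ _) (?_ : _ ≤ 3)
  refine Nat.add_le_add (eqb_le _ _) (?_ : _ ≤ 2)
  exact Nat.add_le_add (eqb_le _ _) (eqb_le _ _)

theorem g9_le (b012 b013 b023 b123 b014 b024 b124 b034 b134 b234 : ℕ) : g9 b012 b013 b023 b123 b014 b024 b124 b034 b134 b234 ≤ 5 := by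
  unfold g9
  exact (eqb_le _ _).trans (by norm_num)

theorem gst_le (b012 b013 b023 b123 b014 b024 b124 b034 b134 b234 : ℕ) : gst b012 b013 b023 b123 b014 b024 b124 b034 b134 b234 ≤ 5 := by
  unfold gst
  refine (Nat.mul_le_mul (eqb_le _ _) (?_ : _ ≤ 5)).trans (by norm_num)
  refine Nat.add_le_add (eqb_le _ _) (?_ : _ ≤ 4)
  refine Nat.add_le_add (eqb_le _ _) (?_ : _ ≤ 3)
  refine Nat.add_le_add (eqb_le _ _) (?_ : _ ≤ 2)
  exact Nat.add_le_add (eqb_le _ _) (eqb_le _ _)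

theorem x5_le {g : ℕ → ℕ → ℕ → ℕ → ℕ → ℕ → ℕ → ℕ → ℕ → ℕ → ℕ} (hg : ∀ b0 b1 b2 b3 b4 b5 b6 b7 b8 b9, g b0 b1 b2 b3 b4 b5 b6 b7 b8 b9 ≤ 5) (b012 b013 b023 b123 b014 b024 b124 b034 b134 b234 b015 b025 b125 b035 b135 b235 b045 b145 b245 b345 : ℕ) : x5 g b012 b013 b023 b123 b014 b024 b124 b034 b134 b234 b015 b025 b125 b035 b135 b235 b045 b145 b245 b345 ≤ 30 := by
  unfold x5
  refine Nat.add_le_add (hg _ _ _ _ _ _ _ _ _ _) (?_ : _ ≤ 25)
  refine Nat.add_le_add (hg _ _ _ _ _ _ _ _ _ _) (?_ : _ ≤ 20)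
  refine Nat.add_le_add (hg _ _ _ _ _ _ _ _ _ _) (?_ : _ ≤ 15)
  refine Nat.add_le_add (hg _ _ _ _ _ _ _ _ _ _) (?_ : _ ≤ 10)
  exact Nat.add_le_add (hg _ _ _ _ _ _ _ _ _ _) (hg _ _ _ _ _ _ _ _ _ _)

/-- the sum of the right sides -/
theorem ze_sum (E : Fin n → Fin n → Fin n → ℕ) (C B M : ℕ)
    (X : ℕ → ℕ → ℕ → ℕ → ℕ → ℕ → ℕ → ℕ → ℕ → ℕ → ℕ → ℕ → ℕ → ℕ → ℕ → ℕ → ℕ → ℕ → ℕ → ℕ → ℕ)
    (hX : ∀ b012 b013 b023 b123 b014 b024 b124 b034 b134 b234 b015 b025 b125 b035 b135 b235 b045 b145 b245 b345, X b012 b013 b023 b123 b014 b024 b124 b034 b134 b234 b015 b025 b125 b035 b135 b235 b045 b145 b245 b345 ≤ M)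
    (hM : B * M ≤ C) :
    ∑ x : Fin 6 → Fin n, (ZE E (fun b012 b013 b023 b123 b014 b024 b124 b034 b134 b234 b015 b025 b125 b035 b135 b235 b045 b145 b245 b345 => Nat.sub C (Nat.mul B (X b012 b013 b023 b123 b014 b024 b124 b034 b134 b234 b015 b025 b125 b035 b135 b235 b045 b145 b245 b345))) (x 0) (x 1) (x 2) (x 3) (x 4) (x 5) : ℤ) =
      C * (n : ℤ) ^ 6 - B * ∑ x : Fin 6 → Fin n, (G6 X E (x 0) (x 1) (x 2) (x 3) (x 4) (x 5) : ℤ) := by
  have h : ∀ x : Fin 6 → Fin n, (ZE E (fun b012 b013 b023 b123 b014 b024 b124 b034 b134 b234 b015 b025 b125 b035 b135 b235 b045 b145 b245 b345 => Nat.sub C (Nat.mul B (X b012 b013 b023 b123 b014 b024 b124 b034 b134 b234 b015 b025 b125 b035 b135 b235 b045 b145 b245 b345))) (x 0) (x 1) (x 2) (x 3) (x 4) (x 5) : ℤ) =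
      (C : ℤ) - B * (G6 X E (x 0) (x 1) (x 2) (x 3) (x 4) (x 5) : ℤ) := by
    intro x
    have e : ZE E (fun b012 b013 b023 b123 b014 b024 b124 b034 b134 b234 b015 b025 b125 b035 b135 b235 b045 b145 b245 b345 => Nat.sub C (Nat.mul B (X b012 b013 b023 b123 b014 b024 b124 b034 b134 b234 b015 b025 b125 b035 b135 b235 b045 b145 b245 b345))) (x 0) (x 1) (x 2) (x 3) (x 4) (x 5) = C - B * G6 X E (x 0) (x 1) (x 2) (x 3) (x 4) (x 5) := rfl
    rw [e, Nat.cast_sub]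
    · push_cast; ring
    · exact (Nat.mul_le_mul_left _ (hX _ _ _ _ _ _ _ _ _ _ _ _ _ _ _ _ _ _ _ _)).trans hM
  simp only [h]
  rw [sum_sub_distrib, sum_const, card_univ, Fintype.card_fun, Fintype.card_fin, Fintype.card_fin,
    nsmul_eq_mul, mul_sum]
  push_cast
  ring

/-- no five vertices span all ten triples -/
theorem nok {H : Finset (Finset (Fin n))} (h3 : ∀ s ∈ H, s.card = 3)
    (hK : ∀ S : Finset (Fin n), S.card = 5 → ∃ s ⊆ S, s.card = 3 ∧ s ∉ H) :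
    Pool.Agent.H37R3.K5.NoK5 (tri H) := Pool.Agent.H37R3.K5.tri_noK5 h3 hK

theorem PA_inter {m : ℕ} (S : Finset (Fin n)) : S ∩ PB n m = S \ (S ∩ PA n m) := by
  ext x
  simp only [mem_inter, mem_sdiff, PA, PB, mem_filter, mem_univ, true_and]
  tauto

theorem disj (n m : ℕ) : Disjoint (PA n m) (PB n m) := by
  rw [Finset.disjoint_left]
  exact fun i h1 h2 => not_both n m i h1 h2

theorem bip_split {m a : ℕ} {S : Finset (Fin n)} (h : (S ∩ PA n m).card = a) :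
    Split a (bip n m) S := by
  refine ⟨S ∩ PA n m, inter_subset_left, h, ?_⟩
  intro t ht h3
  rw [← PA_inter]
  unfold bip
  rw [mem_filter, mem_powersetCard]
  constructor
  · rintro ⟨-, h1, h2⟩
    exact ⟨fun h4 => h1 (h4.trans inter_subset_right), fun h4 => h2 (h4.trans inter_subset_right)⟩
  · rintro ⟨h1, h2⟩
    exact ⟨⟨subset_univ _, h3⟩, fun h4 => h1 (subset_inter ht h4), fun h4 => h2 (subset_inter ht h4)⟩

theorem bip_split' {m a : ℕ} {S : Finset (Fin n)} (h : (S ∩ PB n m).card = a) :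
    Split a (bip n m) S := by
  refine ⟨S ∩ PB n m, inter_subset_left, h, ?_⟩
  intro t ht h3
  have e : S \ (S ∩ PB n m) = S ∩ PA n m := by
    ext x
    simp only [mem_inter, mem_sdiff, PA, PB, mem_filter, mem_univ, true_and]
    tauto
  rw [e]
  unfold bip
  rw [mem_filter, mem_powersetCard]
  constructor
  · rintro ⟨-, h1, h2⟩
    exact ⟨fun h4 => h2 (h4.trans inter_subset_right), fun h4 => h1 (h4.trans inter_subset_right)⟩
  · rintro ⟨h1, h2⟩
    exact ⟨⟨subset_univ _, h3⟩, fun h4 => h2 (subset_inter ht h4), fun h4 => h1 (subset_inter ht h4)⟩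

/-- the number of edges of a split set -/
theorem split_card {H : Finset (Finset (Fin n))} (h3 : ∀ s ∈ H, s.card = 3) {a b : ℕ}
    {S : Finset (Fin n)} (hS : S.card = a + b) (h : Split a H S) :
    (H.filter fun e => e ⊆ S).card + (a.choose 3 + b.choose 3) = (a + b).choose 3 := by
  obtain ⟨A, hA, hAc, ht⟩ := h
  have e1 : H.filter (fun e => e ⊆ S) = S.powersetCard 3 \ (A.powersetCard 3 ∪ (S \ A).powersetCard 3) := by
    ext t
    simp only [mem_filter, mem_sdiff, mem_union, mem_powersetCard]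
    constructor
    · rintro ⟨h1, h2⟩
      have h4 := h3 t h1
      have h5 := (ht t h2 h4).mp h1
      exact ⟨⟨h2, h4⟩, fun h6 => h6.elim (fun h7 => h5.1 h7.1) (fun h7 => h5.2 h7.1)⟩
    · rintro ⟨⟨h2, h4⟩, h5⟩
      refine ⟨(ht t h2 h4).mpr ⟨fun h6 => h5 (Or.inl ⟨h6, h4⟩), fun h6 => h5 (Or.inr ⟨h6, h4⟩)⟩, h2⟩
  have hsub : A.powersetCard 3 ∪ (S \ A).powersetCard 3 ⊆ S.powersetCard 3 :=
    union_subset (powersetCard_mono hA) (powersetCard_mono sdiff_subset)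
  have hd : Disjoint (A.powersetCard 3) ((S \ A).powersetCard 3) := by
    rw [Finset.disjoint_left]
    intro t h1 h2
    rw [mem_powersetCard] at h1 h2
    have h4 : t = ∅ := by
      rw [eq_empty_iff_forall_notMem]
      intro v hv
      exact (mem_sdiff.mp (h2.1 hv)).2 (h1.1 hv)
    rw [h4] at h1
    simp at h1
  have hcA : (S \ A).card = b := by
    rw [card_sdiff_of_subset hA, hS, hAc]; omega
  have h5 := card_sdiff_add_card_eq_card hsub
  rw [card_union_of_disjoint hd, card_powersetCard, card_powersetCard, card_powersetCard, hcA, hAc,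
    hS] at h5
  rw [e1]
  exact h5

end Pool.Agent.R170.FA
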